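import Pool.Agent.Lib_helper61.Rat.Defs

/-!
Positive solutions, passage to solutions with zeros, the record lemma.
-/

set_option autoImplicit false

namespace Pool.Agent.RatRec

open Filter Topology

theorem SupportedOn.nonneg {c : Fin 5 → ℝ} {S : Finset (Fin 5)} (h : SupportedOn c S) (i : Fin 5) :
    0 ≤ c i := by
  by_cases hi : i ∈ S
  · exact (h.1 i hi).le
  · rw [h.2 i hi]

theorem lin_nonneg {c : Fin 5 → ℝ} (hc : ∀ i, 0 ≤ c i) {x : ℕ → ℝ} {n : ℕ}
    (h0 : 0 ≤ x n) (h1 : 0 ≤ x (n + 1)) (h2 : 0 ≤ x (n + 2)) (h3 : 0 ≤ x (n + 3)) :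
    0 ≤ lin c x n := by
  unfold lin
  have := hc 0
  have := mul_nonneg (hc 1) h3
  have := mul_nonneg (hc 2) h2
  have := mul_nonneg (hc 3) h1
  have := mul_nonneg (hc 4) h0
  positivity

theorem IsSolution.nonneg {b B : Fin 5 → ℝ} (hb : ∀ i, 0 ≤ b i) {x : ℕ → ℝ}
    (h : IsSolution b B x) (n : ℕ) : 0 ≤ x n := by
  induction n using Nat.strong_induction_on with
  | _ n ih =>
    by_cases hn : n < 4
    · exact h.init n hn
    · obtain ⟨m, rfl⟩ : ∃ m, n = m + 4 := ⟨n - 4, by omega⟩
      rw [h.step m]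
      exact div_nonneg (lin_nonneg hb (ih _ (by omega)) (ih _ (by omega)) (ih _ (by omega))
        (ih _ (by omega))) (h.den_pos m).le

/-- A solution all of whose terms are positive. -/
structure PosSolution (b B : Fin 5 → ℝ) (x : ℕ → ℝ) : Prop where
  pos : ∀ n, 0 < x n
  step : ∀ n, x (n + 4) = lin b x n / lin B x n

theorem lin_pos {c : Fin 5 → ℝ} {S : Finset (Fin 5)} (hc : SupportedOn c S) (hS : S.Nonempty)
    {x : ℕ → ℝ} {n : ℕ}
    (h0 : 0 < x n) (h1 : 0 < x (n + 1)) (h2 : 0 < x (n + 2)) (h3 : 0 < x (n + 3)) :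
    0 < lin c x n := by
  have hn := hc.nonneg
  have a0 := hn 0
  have a1 := mul_nonneg (hn 1) h3.le
  have a2 := mul_nonneg (hn 2) h2.le
  have a3 := mul_nonneg (hn 3) h1.le
  have a4 := mul_nonneg (hn 4) h0.le
  obtain ⟨i, hi⟩ := hS
  have hp := hc.1 i hi
  unfold lin
  fin_cases i
  · have : 0 < c 0 := hp
    positivity
  · have : 0 < c 1 := hp
    positivity
  · have : 0 < c 2 := hp
    positivity
  · have : 0 < c 3 := hp
    positivity
  · have : 0 < c 4 := hp
    positivity

/-- The state map. -/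
noncomputable def stepState (b B : Fin 5 → ℝ) (s : ℝ × ℝ × ℝ × ℝ) : ℝ × ℝ × ℝ × ℝ :=
  (s.2.1, s.2.2.1, s.2.2.2,
    (b 0 + b 1 * s.2.2.2 + b 2 * s.2.2.1 + b 3 * s.2.1 + b 4 * s.1) /
    (B 0 + B 1 * s.2.2.2 + B 2 * s.2.2.1 + B 3 * s.2.1 + B 4 * s.1))

/-- The orbit of the state map. -/
noncomputable def orbit (b B : Fin 5 → ℝ) (s : ℝ × ℝ × ℝ × ℝ) : ℕ → ℝ × ℝ × ℝ × ℝ
  | 0 => s
  | n + 1 => stepState b B (orbit b B s n)

/-- The sequence with initial state `s`. -/
noncomputable def seq (b B : Fin 5 → ℝ) (s : ℝ × ℝ × ℝ × ℝ) (n : ℕ) : ℝ := (orbit b B s n).1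

theorem orbit_eq (b B : Fin 5 → ℝ) (s : ℝ × ℝ × ℝ × ℝ) (n : ℕ) :
    orbit b B s n = (seq b B s n, seq b B s (n + 1), seq b B s (n + 2), seq b B s (n + 3)) := by
  simp [seq, orbit, stepState]

theorem seq_step (b B : Fin 5 → ℝ) (s : ℝ × ℝ × ℝ × ℝ) (n : ℕ) :
    seq b B s (n + 4) = lin b (seq b B s) n / lin B (seq b B s) n := by
  have h : seq b B s (n + 4) = (stepState b B (orbit b B s n)).2.2.2 := by
    simp [seq, orbit, stepState]
  rw [h, orbit_eq]
  simp [stepState, lin]

theorem posSolution_seq {b B : Fin 5 → ℝ} {S T : Finset (Fin 5)} (hb : SupportedOn b S)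
    (hB : SupportedOn B T) (hS : S.Nonempty) (hT : T.Nonempty) {s : ℝ × ℝ × ℝ × ℝ}
    (h1 : 0 < s.1) (h2 : 0 < s.2.1) (h3 : 0 < s.2.2.1) (h4 : 0 < s.2.2.2) :
    PosSolution b B (seq b B s) := by
  refine ⟨?_, seq_step b B s⟩
  intro n
  induction n using Nat.strong_induction_on with
  | _ n ih =>
    by_cases hn : n < 4
    · interval_cases n
      · exact h1
      · exact h2
      · exact h3
      · exact h4
    · obtain ⟨m, rfl⟩ : ∃ m, n = m + 4 := ⟨n - 4, by omega⟩
      rw [seq_step]
      exact div_pos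
        (lin_pos hb hS (ih _ (by omega)) (ih _ (by omega)) (ih _ (by omega)) (ih _ (by omega)))
        (lin_pos hB hT (ih _ (by omega)) (ih _ (by omega)) (ih _ (by omega)) (ih _ (by omega)))

/-- Solutions with positive initial values close to those of `x` converge to `x`. -/
theorem tendsto_seq {b B : Fin 5 → ℝ} {x : ℕ → ℝ} (hx : IsSolution b B x) (n : ℕ) :
    Tendsto (fun e : ℝ => seq b B (x 0 + e, x 1 + e, x 2 + e, x 3 + e) n) (𝓝[>] 0)
      (𝓝 (x n)) := by
  induction n using Nat.strong_induction_on with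
  | _ n ih =>
    have base : ∀ a : ℝ, Tendsto (fun e : ℝ => a + e) (𝓝[>] 0) (𝓝 a) := by
      intro a
      have : Tendsto (fun e : ℝ => a + e) (𝓝 0) (𝓝 (a + 0)) := by
        exact (continuous_const.add continuous_id).tendsto 0
      rw [add_zero] at this
      exact this.mono_left nhdsWithin_le_nhds
    by_cases hn : n < 4
    · interval_cases n
      · exact base _
      · exact base _
      · exact base _
      · exact base _
    · obtain ⟨m, rfl⟩ : ∃ m, n = m + 4 := ⟨n - 4, by omega⟩
      have h0 := ih m (by omega)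
      have h1 := ih (m + 1) (by omega)
      have h2 := ih (m + 2) (by omega)
      have h3 := ih (m + 3) (by omega)
      rw [hx.step m]
      simp only [seq_step]
      refine Tendsto.div ?_ ?_ (hx.den_pos m).ne'
      · unfold lin
        exact ((((tendsto_const_nhds.add (h3.const_mul _)).add (h2.const_mul _)).add
          (h1.const_mul _)).add (h0.const_mul _))
      · unfold lin
        exact ((((tendsto_const_nhds.add (h3.const_mul _)).add (h2.const_mul _)).add
          (h1.const_mul _)).add (h0.const_mul _))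

/-- The interface: a bound for the records of positive solutions which depends only on the
coefficients. -/
def RecordBound (b B : Fin 5 → ℝ) : Prop :=
  ∃ (K : ℝ) (L : ℕ), ∀ x : ℕ → ℝ, PosSolution b B x → ∀ N, L ≤ N → (∀ m, m < N → x m ≤ x N) →
    x N ≤ K

/-- A record bound gives a bound in terms of the first terms. -/
theorem bound_of_record {K : ℝ} {L : ℕ} {x : ℕ → ℝ}
    (h : ∀ N, L ≤ N → (∀ m, m < N → x m ≤ x N) → x N ≤ K) (n : ℕ) :
    x n ≤ K ∨ ∃ m, m < L ∧ x n ≤ x m := by
  induction n using Nat.strong_induction_on with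
  | _ n ih =>
    by_cases hn : n < L
    · exact Or.inr ⟨n, hn, le_rfl⟩
    · by_cases hr : ∀ m, m < n → x m ≤ x n
      · exact Or.inl (h n (by omega) hr)
      · push Not at hr
        obtain ⟨m, hm, hlt⟩ := hr
        rcases ih m hm with h1 | ⟨k, hk, h1⟩
        · exact Or.inl (hlt.le.trans h1)
        · exact Or.inr ⟨k, hk, hlt.le.trans h1⟩

theorem boundedOnly_of_record {S T : Finset (Fin 5)} (hS : S.Nonempty) (hT : T.Nonempty)
    (h : ∀ b B : Fin 5 → ℝ, SupportedOn b S → SupportedOn B T → RecordBound b B) :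
    BoundedOnly S T := by
  intro b B hb hB x hx
  obtain ⟨K, L, hKL⟩ := h b B hb hB
  -- the bound for the limit
  have key : ∀ n, x n ≤ max K (∑ m ∈ Finset.range L, x m) := by
    intro n
    set X : ℝ → ℕ → ℝ := fun e => seq b B (x 0 + e, x 1 + e, x 2 + e, x 3 + e) with hX
    have hpos : ∀ᶠ e in 𝓝[>] (0 : ℝ), PosSolution b B (X e) := by
      filter_upwards [self_mem_nhdsWithin] with e he
      have he' : (0 : ℝ) < e := he
      have i0 := hx.init 0 (by norm_num)
      have i1 := hx.init 1 (by norm_num)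
      have i2 := hx.init 2 (by norm_num)
      have i3 := hx.init 3 (by norm_num)
      exact posSolution_seq hb hB hS hT (by simp only; linarith) (by simp only; linarith)
        (by simp only; linarith) (by simp only; linarith)
    have hbd : ∀ᶠ e in 𝓝[>] (0 : ℝ), X e n ≤ max K (∑ m ∈ Finset.range L, X e m) := by
      filter_upwards [hpos] with e he
      rcases bound_of_record (fun N hN hr => hKL (X e) he N hN hr) n with
        h1 | ⟨m, hm, h1⟩
      · exact h1.trans (le_max_left _ _)
      · refine h1.trans (le_trans ?_ (le_max_right _ _))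
        exact Finset.single_le_sum (f := fun m => X e m) (fun i _ => (he.pos i).le)
          (Finset.mem_range.mpr hm)
    have hl : Tendsto (fun e => X e n) (𝓝[>] (0 : ℝ)) (𝓝 (x n)) := tendsto_seq hx n
    have hr : Tendsto (fun e => max K (∑ m ∈ Finset.range L, X e m)) (𝓝[>] (0 : ℝ))
        (𝓝 (max K (∑ m ∈ Finset.range L, x m))) := by
      refine Tendsto.max tendsto_const_nhds ?_
      exact tendsto_finsetSum _ (fun m _ => tendsto_seq hx m)
    exact le_of_tendsto_of_tendsto hl hr hbd
  exact ⟨_, key⟩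

end Pool.Agent.RatRec
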