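import Pool.Agent.Lib_helper61.Rat.Basic

/-!
A verified checker for case trees with Farkas multipliers over windows of logarithms.
-/

set_option autoImplicit false

namespace Pool.Agent.RatRec

/-- The logarithm of the argument number `k` at the backward time `d`. -/
def zv (y : ℕ → ℝ) (d k : ℕ) : ℝ := if k = 0 then 0 else y (d + k)

/-- The tropical form of the recurrence on a window, with error `c`. -/
def Window (S T : List ℕ) (c : ℝ) (W : ℕ) (y : ℕ → ℝ) : Prop :=
  ∀ d, d + 4 < W →
    (∀ i ∈ S, (∀ k ∈ S, zv y d k ≤ zv y d i) → ∀ j ∈ T, y d - zv y d i + zv y d j ≤ c) ∧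
    (∀ j ∈ T, (∀ k ∈ T, zv y d k ≤ zv y d j) → ∀ i ∈ S, - y d + zv y d i - zv y d j ≤ c)

/-- Evaluation of a dense linear form. -/
def ev (y : ℕ → ℝ) : ℕ → List ℤ → ℝ
  | _, [] => 0
  | s, a :: l => (a : ℝ) * y s + ev y (s + 1) l

/-- Add `a y_t`. -/
def addAt (a : ℤ) : ℕ → List ℤ → List ℤ
  | 0, [] => [a]
  | 0, b :: l => (a + b) :: l
  | t + 1, [] => 0 :: addAt a t []
  | t + 1, b :: l => b :: addAt a t l

theorem ev_addAt (y : ℕ → ℝ) (a : ℤ) (t : ℕ) (l : List ℤ) (s : ℕ) :
    ev y s (addAt a t l) = a * y (s + t) + ev y s l := by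
  induction t generalizing l s with
  | zero =>
    cases l with
    | nil => simp [addAt, ev]
    | cons b l => simp [addAt, ev]; ring
  | succ t ih =>
    cases l with
    | nil =>
      simp only [addAt, ev, ih]
      have : s + 1 + t = s + (t + 1) := by ring
      rw [this]; simp
    | cons b l =>
      simp only [addAt, ev, ih]
      have : s + 1 + t = s + (t + 1) := by ring
      rw [this]; ring

/-- Add `a z_{d, k}`. -/
def addZ (a : ℤ) (d k : ℕ) (l : List ℤ) : List ℤ :=
  match k with
  | 0 => l
  | k + 1 => addAt a (d + (k + 1)) l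

theorem ev_addZ (y : ℕ → ℝ) (a : ℤ) (d k : ℕ) (l : List ℤ) :
    ev y 0 (addZ a d k l) = a * zv y d k + ev y 0 l := by
  cases k with
  | zero => simp [addZ, zv]
  | succ k => simp [addZ, zv, ev_addAt]

/-- Add `a` times a dense form. -/
def addForm (a : ℤ) : List ℤ → List ℤ → List ℤ
  | [], l => l
  | b :: f, [] => (a * b) :: addForm a f []
  | b :: f, e :: l => (a * b + e) :: addForm a f l

theorem ev_addForm (y : ℕ → ℝ) (a : ℤ) (f l : List ℤ) (s : ℕ) :
    ev y s (addForm a f l) = a * ev y s f + ev y s l := by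
  induction f generalizing l s with
  | nil => simp [addForm, ev]
  | cons b f ih =>
    cases l with
    | nil => simp [addForm, ev, ih]; ring
    | cons e l => simp [addForm, ev, ih]; ring

/-- Is every coefficient zero? -/
def allZero : List ℤ → Bool
  | [] => true
  | a :: l => a == 0 && allZero l

theorem ev_allZero (y : ℕ → ℝ) (l : List ℤ) (s : ℕ) (h : allZero l = true) : ev y s l = 0 := by
  induction l generalizing s with
  | nil => rfl
  | cons a l ih =>
    simp only [allZero, Bool.and_eq_true, beq_iff_eq] at h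
    simp [ev, h.1, ih _ h.2]

/-- A fact: the kind (`false`: numerator, `true`: denominator), the time, the index of the largest
argument. -/
abbrev Fact := Bool × ℕ × ℕ

/-- An atom: type, time, two indices, multiplier. -/
abbrev Atom := ℕ × ℕ × ℕ × ℕ × ℕ

/-- Case trees. -/
inductive Tree where
  | leaf (g : Bool) (m : ℕ) (cert : List Atom)
  | split (k : Bool) (d : ℕ) (ch : Tree)
  | cons (a b : Tree)
  | nil

/-- The meaning of a fact. -/
def FactOK (S T : List ℕ) (W : ℕ) (y : ℕ → ℝ) (f : Fact) : Prop :=
  f.2.1 + 4 < W ∧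
    match f.1 with
    | false => f.2.2 ∈ S ∧ ∀ k ∈ S, zv y f.2.1 k ≤ zv y f.2.1 f.2.2
    | true => f.2.2 ∈ T ∧ ∀ k ∈ T, zv y f.2.1 k ≤ zv y f.2.1 f.2.2

/-- Membership in the context. -/
def memF (k : Bool) (d i : ℕ) : List Fact → Bool
  | [] => false
  | f :: l => (f.1 == k && Nat.beq f.2.1 d && Nat.beq f.2.2 i) || memF k d i l

theorem memF_iff {k : Bool} {d i : ℕ} {l : List Fact} (h : memF k d i l = true) :
    (k, d, i) ∈ l := by
  induction l with
  | nil => simp [memF] at h
  | cons f l ih =>
    simp only [memF, Bool.or_eq_true, Bool.and_eq_true, beq_iff_eq] at h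
    rcases h with h | h
    · have : f = (k, d, i) := by
        obtain ⟨⟨h1, h2⟩, h3⟩ := h
        exact Prod.ext h1 (Prod.ext (Nat.eq_of_beq_eq_true h2) (Nat.eq_of_beq_eq_true h3))
      simp [this]
    · exact List.mem_cons_of_mem _ (ih h)

/-- Membership in a list of indices. -/
def memN (i : ℕ) : List ℕ → Bool
  | [] => false
  | a :: l => Nat.beq a i || memN i l

theorem memN_iff {i : ℕ} {l : List ℕ} (h : memN i l = true) : i ∈ l := by
  induction l with
  | nil => simp [memN] at h
  | cons a l ih =>
    simp only [memN, Bool.or_eq_true] at h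
    rcases h with h | h
    · simp [Nat.eq_of_beq_eq_true h]
    · exact List.mem_cons_of_mem _ (ih h)

/-- Is the atom justified by the context? -/
def atomOK (S T : List ℕ) (H : List (List ℤ)) (ctx : List Fact) (a : Atom) : Bool :=
  match a with
  | (0, t, _, _, _) => Nat.blt t H.length
  | (1, d, i, j, _) => memF false d i ctx && memN j T
  | (2, d, i, j, _) => memF true d j ctx && memN i S
  | (3, d, i, j, _) => memF false d j ctx && memN i S
  | (4, d, i, j, _) => memF true d j ctx && memN i T
  | _ => false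

/-- Add the form of the atom. -/
def addAtom (H : List (List ℤ)) (a : Atom) (l : List ℤ) : List ℤ :=
  match a with
  | (0, t, _, _, m) => addForm m (H.getD t []) l
  | (1, d, i, j, m) => addAt m d (addZ (-m) d i (addZ m d j l))
  | (2, d, i, j, m) => addAt (-m) d (addZ m d i (addZ (-m) d j l))
  | (3, d, i, j, m) => addZ m d i (addZ (-m) d j l)
  | (4, d, i, j, m) => addZ m d i (addZ (-m) d j l)
  | _ => l

/-- Sum of the multipliers. -/
def multSum : List Atom → ℕ
  | [] => 0
  | a :: l => a.2.2.2.2 + multSum l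

/-- All atoms justified. -/
def atomsOK (S T : List ℕ) (H : List (List ℤ)) (ctx : List Fact) : List Atom → Bool
  | [] => true
  | a :: l => atomOK S T H ctx a && atomsOK S T H ctx l

/-- The sum of the forms of the atoms. -/
def sumAtoms (H : List (List ℤ)) : List Atom → List ℤ → List ℤ
  | [], l => l
  | a :: as, l => sumAtoms H as (addAtom H a l)

theorem atom_le {S T : List ℕ} {c : ℝ} {W : ℕ} {y : ℕ → ℝ} (hw : Window S T c W y) (hc : 0 ≤ c)
    {H : List (List ℤ)} (hH : ∀ h ∈ H, ev y 0 h ≤ c) {ctx : List Fact}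
    (hctx : ∀ f ∈ ctx, FactOK S T W y f) {a : Atom} (ha : atomOK S T H ctx a = true)
    (l : List ℤ) :
    ev y 0 (addAtom H a l) ≤ a.2.2.2.2 * c + ev y 0 l := by
  obtain ⟨ty, d, i, j, m⟩ := a
  have hm : (0 : ℝ) ≤ m := Nat.cast_nonneg m
  match ty with
  | 0 =>
    simp only [atomOK, Nat.blt_eq] at ha
    have h1 : H.getD d [] ∈ H := by
      rw [List.getD_eq_getElem _ _ ha]
      exact List.getElem_mem ha
    have h2 := hH _ h1
    simp only [addAtom, ev_addForm]
    have := mul_le_mul_of_nonneg_left h2 hm
    push_cast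
    linarith
  | 1 =>
    simp only [atomOK, Bool.and_eq_true] at ha
    obtain ⟨h0, h1, h2⟩ := hctx _ (memF_iff ha.1)
    have h3 := (hw d h0).1 i h1 h2 j (memN_iff ha.2)
    simp only [addAtom, ev_addAt, ev_addZ]
    have := mul_le_mul_of_nonneg_left h3 hm
    push_cast
    rw [zero_add]
    linarith
  | 2 =>
    simp only [atomOK, Bool.and_eq_true] at ha
    obtain ⟨h0, h1, h2⟩ := hctx _ (memF_iff ha.1)
    have h3 := (hw d h0).2 j h1 h2 i (memN_iff ha.2)
    simp only [addAtom, ev_addAt, ev_addZ]
    have := mul_le_mul_of_nonneg_left h3 hm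
    push_cast
    rw [zero_add]
    linarith
  | 3 =>
    simp only [atomOK, Bool.and_eq_true] at ha
    obtain ⟨h0, h1, h2⟩ := hctx _ (memF_iff ha.1)
    have h3 : zv y d i - zv y d j ≤ c := by
      have := h2 i (memN_iff ha.2)
      linarith
    simp only [addAtom, ev_addZ]
    have := mul_le_mul_of_nonneg_left h3 hm
    push_cast
    linarith
  | 4 =>
    simp only [atomOK, Bool.and_eq_true] at ha
    obtain ⟨h0, h1, h2⟩ := hctx _ (memF_iff ha.1)
    have h3 : zv y d i - zv y d j ≤ c := by
      have := h2 i (memN_iff ha.2)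
      linarith
    simp only [addAtom, ev_addZ]
    have := mul_le_mul_of_nonneg_left h3 hm
    push_cast
    linarith
  | (n + 5) => simp [atomOK] at ha

theorem atoms_le {S T : List ℕ} {c : ℝ} {W : ℕ} {y : ℕ → ℝ} (hw : Window S T c W y) (hc : 0 ≤ c)
    {H : List (List ℤ)} (hH : ∀ h ∈ H, ev y 0 h ≤ c) {ctx : List Fact}
    (hctx : ∀ f ∈ ctx, FactOK S T W y f) {as : List Atom}
    (ha : atomsOK S T H ctx as = true) (l : List ℤ) :
    ev y 0 (sumAtoms H as l) ≤ multSum as * c + ev y 0 l := by
  induction as generalizing l with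
  | nil => simp [sumAtoms, multSum]
  | cons a as ih =>
    simp only [atomsOK, Bool.and_eq_true] at ha
    have h1 := ih ha.2 (addAtom H a l)
    have h2 := atom_le hw hc hH hctx ha.1 l
    simp only [sumAtoms, multSum]
    push_cast
    linarith

/-- Check of a leaf: the sum of the atoms is `m` times the goal. -/
def leafOK (S T : List ℕ) (M : ℕ) (H : List (List ℤ)) (goal : List ℤ) (ctx : List Fact)
    (g : Bool) (m : ℕ) (cert : List Atom) : Bool :=
  atomsOK S T H ctx cert && Nat.ble 1 m && Nat.ble (multSum cert) M &&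
    allZero (addForm (-m) (if g then goal else [1]) (sumAtoms H cert []))

/-- The checker. -/
def chk (S T : List ℕ) (W M : ℕ) (H : List (List ℤ)) (goal : List ℤ) :
    Tree → List Fact → Option (Bool × ℕ × List ℕ) → Bool
  | .leaf g m cert, ctx, none => leafOK S T M H goal ctx g m cert
  | .split k d ch, ctx, none =>
      Nat.blt (d + 4) W && chk S T W M H goal ch ctx (some (k, d, if k then T else S))
  | .cons a b, ctx, some (k, d, i :: r) =>
      chk S T W M H goal a ((k, d, i) :: ctx) none && chk S T W M H goal b ctx (some (k, d, r))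
  | .nil, _, some (_, _, []) => true
  | _, _, _ => false

theorem exists_max (y : ℕ → ℝ) (d : ℕ) {S : List ℕ} (hS : S ≠ []) :
    ∃ i ∈ S, ∀ k ∈ S, zv y d k ≤ zv y d i := by
  have hne : S.toFinset.Nonempty := by
    obtain ⟨a, l, rfl⟩ := List.exists_cons_of_ne_nil hS
    exact ⟨a, by simp⟩
  obtain ⟨i, hi, hm⟩ := Finset.exists_max_image S.toFinset (fun k => zv y d k) hne
  exact ⟨i, by simpa using hi, fun k hk => hm k (by simpa using hk)⟩

theorem chk_sound {S T : List ℕ} (hS : S ≠ []) (hT : T ≠ []) {c : ℝ} {W M : ℕ} {y : ℕ → ℝ}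
    (hw : Window S T c W y) (hc : 0 ≤ c) {H : List (List ℤ)} (hH : ∀ h ∈ H, ev y 0 h ≤ c)
    {goal : List ℤ} (t : Tree) :
    ∀ ctx pend, chk S T W M H goal t ctx pend = true → (∀ f ∈ ctx, FactOK S T W y f) →
      ((pend = none → y 0 ≤ M * c ∨ ev y 0 goal ≤ M * c) ∧
        ∀ k d l, pend = some (k, d, l) → (∃ i ∈ l, FactOK S T W y (k, d, i)) →
          y 0 ≤ M * c ∨ ev y 0 goal ≤ M * c) := by
  induction t with
  | leaf g m cert =>
    intro ctx pend h hctx
    cases pend with
    | some p => obtain ⟨k, d, l⟩ := p; simp [chk] at h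
    | none =>
      refine ⟨fun _ => ?_, fun k d l h => by simp at h⟩
      simp only [chk, leafOK, Bool.and_eq_true] at h
      obtain ⟨⟨⟨h1, h2⟩, h3⟩, h4⟩ := h
      have e1 := atoms_le hw hc hH hctx h1 []
      have e2 := ev_allZero y _ 0 h4
      rw [ev_addForm] at e2
      have hm1 : (1 : ℝ) ≤ m := by exact_mod_cast Nat.ble_eq.mp h2
      have hM : (multSum cert : ℝ) ≤ M := by exact_mod_cast Nat.ble_eq.mp h3
      have hMc : (multSum cert : ℝ) * c ≤ M * c := mul_le_mul_of_nonneg_right hM hc
      have hMc0 : 0 ≤ (M : ℝ) * c := mul_nonneg (Nat.cast_nonneg M) hc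
      have e3 : ∀ v : ℝ, (m : ℝ) * v ≤ M * c → v ≤ M * c := by
        intro v hv
        by_cases h0 : v ≤ 0
        · exact h0.trans hMc0
        · push Not at h0
          calc v = 1 * v := by ring
            _ ≤ m * v := mul_le_mul_of_nonneg_right hm1 h0.le
            _ ≤ _ := hv
      simp only [ev] at e1
      push_cast at e2
      cases g with
      | false =>
        left
        simp only [Bool.false_eq_true, if_false, ev, Int.cast_one] at e2
        apply e3
        linarith
      | true =>
        right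
        simp only [if_true] at e2
        apply e3
        linarith
  | split k d ch ih =>
    intro ctx pend h hctx
    cases pend with
    | some p => obtain ⟨k, d, l⟩ := p; simp [chk] at h
    | none =>
      refine ⟨fun _ => ?_, fun k d l h => by simp at h⟩
      simp only [chk, Bool.and_eq_true, Nat.blt_eq] at h
      obtain ⟨h1, h2⟩ := h
      refine (ih ctx _ h2 hctx).2 k d _ rfl ?_
      cases k with
      | false =>
        obtain ⟨i, hi, hm⟩ := exists_max y d hS
        exact ⟨i, by simpa using hi, h1, hi, hm⟩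
      | true =>
        obtain ⟨i, hi, hm⟩ := exists_max y d hT
        exact ⟨i, by simpa using hi, h1, hi, hm⟩
  | cons a b iha ihb =>
    intro ctx pend h hctx
    cases pend with
    | none => simp [chk] at h
    | some p =>
      obtain ⟨k, d, l⟩ := p
      refine ⟨fun h => by simp at h, ?_⟩
      intro k' d' l' hp hex
      simp only [Option.some.injEq, Prod.mk.injEq] at hp
      obtain ⟨rfl, rfl, rfl⟩ := hp
      cases l with
      | nil => simp at hex
      | cons i r =>
        simp only [chk, Bool.and_eq_true] at h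
        obtain ⟨h1, h2⟩ := h
        obtain ⟨i', hi', hf⟩ := hex
        rcases List.mem_cons.mp hi' with rfl | hi'
        · refine (iha _ _ h1 ?_).1 rfl
          intro f hfm
          rcases List.mem_cons.mp hfm with rfl | hfm
          · exact hf
          · exact hctx f hfm
        · exact (ihb _ _ h2 hctx).2 k d r rfl ⟨i', hi', hf⟩
  | nil =>
    intro ctx pend h hctx
    cases pend with
    | none => simp [chk] at h
    | some p =>
      obtain ⟨k, d, l⟩ := p
      refine ⟨fun h => by simp at h, ?_⟩
      intro k' d' l' hp hex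
      simp only [Option.some.injEq, Prod.mk.injEq] at hp
      obtain ⟨rfl, rfl, rfl⟩ := hp
      cases l with
      | nil => simp at hex
      | cons i r => simp [chk] at h

end Pool.Agent.RatRec
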