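import Pool.Agent.Lib_helper61.Rat.Window

/-!
Certificates coded by natural numbers.
-/

set_option autoImplicit false

namespace Pool.Agent.RatRec

/-- The first `n` digits in base 32. -/
def toks : ℕ → ℕ → List ℕ
  | 0, _ => []
  | n + 1, c => (c % 32) :: toks n (c / 32)

/-- Read `n` atoms. -/
def readAtoms : ℕ → List ℕ → List Atom × List ℕ
  | n + 1, a :: b :: c :: d :: e :: l =>
    match readAtoms n l with
    | (as, l') => ((a, b, c, d, e) :: as, l')
  | _, l => ([], l)

/-- Read a tree (`none`) or a chain of children (`some n`). -/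
def readTree : ℕ → Option ℕ → List ℕ → Tree × List ℕ
  | 0, _, l => (.nil, l)
  | _ + 1, some 0, l => (.nil, l)
  | f + 1, some (n + 1), l =>
    match readTree f none l with
    | (a, l1) =>
      match readTree f (some n) l1 with
      | (b, l2) => (.cons a b, l2)
  | _ + 1, none, 0 :: m :: n :: l =>
    match readAtoms n l with
    | (as, l1) => (.leaf false m as, l1)
  | _ + 1, none, 1 :: m :: n :: l =>
    match readAtoms n l with
    | (as, l1) => (.leaf true m as, l1)
  | f + 1, none, 2 :: d :: n :: l =>
    match readTree f (some n) l with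
    | (ch, l1) => (.split false d ch, l1)
  | f + 1, none, 3 :: d :: n :: l =>
    match readTree f (some n) l with
    | (ch, l1) => (.split true d ch, l1)
  | _ + 1, none, l => (.nil, l)

/-- Decode a tree. -/
def decodeTree (n c : ℕ) : Tree := (readTree n none (toks n c)).1

/-- Check the case with numerator mask, denominator mask, window, number of digits, code. -/
def checkCase (e : ℕ × ℕ × ℕ × ℕ × ℕ) : Bool :=
  match e with
  | (mS, mT, W, n, c) =>
    Nat.ble 1 W && !(bits mS).isEmpty && !(bits mT).isEmpty &&
      chk (bits mS) (bits mT) W 1000000 (recH (W - 1)) [1] (decodeTree n c) [] none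

theorem boundedOnly_of_checkCase {e : ℕ × ℕ × ℕ × ℕ × ℕ} (h : checkCase e = true) :
    BoundedOnly (fs e.1) (fs e.2.1) := by
  obtain ⟨mS, mT, W, n, c⟩ := e
  simp only [checkCase, Bool.and_eq_true, Bool.not_eq_true', List.isEmpty_eq_false_iff] at h
  obtain ⟨⟨⟨h1, h2⟩, h3⟩, h4⟩ := h
  exact boundedOnly_of_cert (Nat.ble_eq.mp h1) h2 h3 h4

/-- Check all cases. -/
def checkAll : List (ℕ × ℕ × ℕ × ℕ × ℕ) → Bool
  | [] => true
  | e :: l => checkCase e && checkAll l

theorem of_checkAll {l : List (ℕ × ℕ × ℕ × ℕ × ℕ)} (h : checkAll l = true) :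
    ∀ e ∈ l, BoundedOnly (fs e.1) (fs e.2.1) := by
  induction l with
  | nil => simp
  | cons a l ih =>
    simp only [checkAll, Bool.and_eq_true] at h
    intro e he
    rcases List.mem_cons.mp he with rfl | he
    · exact boundedOnly_of_checkCase h.1
    · exact ih h.2 e he

end Pool.Agent.RatRec
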