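import Pool.Agent.Lib_helper61.Rat.Window

/-!
The cases with constant numerator and homogeneous denominator: invariant intervals.
-/

set_option autoImplicit false

namespace Pool.Agent.RatRec

theorem lin_bounds {c : Fin 5 → ℝ} (hc : ∀ i, 0 ≤ c i) (h0 : c 0 = 0) {x : ℕ → ℝ} {n : ℕ}
    {lo hi : ℝ} (h : ∀ k, k < 4 → lo ≤ x (n + k) ∧ x (n + k) ≤ hi) :
    (c 1 + c 2 + c 3 + c 4) * lo ≤ lin c x n ∧ lin c x n ≤ (c 1 + c 2 + c 3 + c 4) * hi := by
  have e0 := h 0 (by norm_num)
  have e1 := h 1 (by norm_num)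
  have e2 := h 2 (by norm_num)
  have e3 := h 3 (by norm_num)
  rw [add_zero] at e0
  unfold lin
  constructor
  · have := mul_le_mul_of_nonneg_left e3.1 (hc 1)
    have := mul_le_mul_of_nonneg_left e2.1 (hc 2)
    have := mul_le_mul_of_nonneg_left e1.1 (hc 3)
    have := mul_le_mul_of_nonneg_left e0.1 (hc 4)
    linarith
  · have := mul_le_mul_of_nonneg_left e3.2 (hc 1)
    have := mul_le_mul_of_nonneg_left e2.2 (hc 2)
    have := mul_le_mul_of_nonneg_left e1.2 (hc 3)
    have := mul_le_mul_of_nonneg_left e0.2 (hc 4)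
    linarith

/-- `x_n = α / (B_1 x_{n-1} + … + B_4 x_{n-4})` has bounded solutions only. -/
theorem boundedOnly_interval {S T : Finset (Fin 5)} (hS : S = {0}) (hT : T.Nonempty)
    (h0 : (0 : Fin 5) ∉ T) : BoundedOnly S T := by
  intro b B hb hB x hx
  subst hS
  have hb0 : 0 < b 0 := hb.1 0 (by simp)
  have hb1 : b 1 = 0 := hb.2 1 (by simp)
  have hb2 : b 2 = 0 := hb.2 2 (by simp)
  have hb3 : b 3 = 0 := hb.2 3 (by simp)
  have hb4 : b 4 = 0 := hb.2 4 (by simp)
  have hB0 : B 0 = 0 := hB.2 0 h0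
  have hlin : ∀ n, lin b x n = b 0 := by
    intro n; simp [lin, hb1, hb2, hb3, hb4]
  have hstep : ∀ n, x (n + 4) = b 0 / lin B x n := by
    intro n; rw [hx.step, hlin]
  have hpos : ∀ n, 0 < x (n + 4) := by
    intro n; rw [hstep]; exact div_pos hb0 (hx.den_pos n)
  set P := B 1 + B 2 + B 3 + B 4 with hP
  have hP0 : 0 < P := by
    obtain ⟨i, hi⟩ := hT
    have hp := hB.1 i hi
    have n1 := hB.nonneg 1
    have n2 := hB.nonneg 2
    have n3 := hB.nonneg 3
    have n4 := hB.nonneg 4
    fin_cases i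
    · exact absurd hi h0
    · have : 0 < B 1 := hp
      rw [hP]; linarith
    · have : 0 < B 2 := hp
      rw [hP]; linarith
    · have : 0 < B 3 := hp
      rw [hP]; linarith
    · have : 0 < B 4 := hp
      rw [hP]; linarith
  -- the bounds
  set mn := min (min (x 4) (x 5)) (min (x 6) (x 7)) with hmn
  have hmn0 : 0 < mn := lt_min (lt_min (hpos 0) (hpos 1)) (lt_min (hpos 2) (hpos 3))
  set M := x 4 + x 5 + x 6 + x 7 + b 0 / (P * mn) with hM
  have hq : 0 < b 0 / (P * mn) := div_pos hb0 (mul_pos hP0 hmn0)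
  have p4 := hpos 0
  have p5 := hpos 1
  have p6 := hpos 2
  have p7 := hpos 3
  simp only [zero_add] at p4
  have q5 : 0 < x 5 := p5
  have q6 : 0 < x 6 := p6
  have q7 : 0 < x 7 := p7
  have hM0 : 0 < M := by rw [hM]; linarith
  set lo := b 0 / (P * M) with hlo
  have hlo0 : 0 < lo := div_pos hb0 (mul_pos hP0 hM0)
  have hlomn : lo ≤ mn := by
    rw [hlo, div_le_iff₀ (mul_pos hP0 hM0)]
    have h1 : b 0 / (P * mn) ≤ M := by rw [hM]; linarith
    rw [div_le_iff₀ (mul_pos hP0 hmn0)] at h1
    linarith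
  have key : ∀ n, lo ≤ x (n + 4) ∧ x (n + 4) ≤ M := by
    intro n
    induction n using Nat.strong_induction_on with
    | _ n ih =>
      by_cases hn : n < 4
      · have m4 : mn ≤ x 4 := (min_le_left _ _).trans (min_le_left _ _)
        have m5 : mn ≤ x 5 := (min_le_left _ _).trans (min_le_right _ _)
        have m6 : mn ≤ x 6 := (min_le_right _ _).trans (min_le_left _ _)
        have m7 : mn ≤ x 7 := (min_le_right _ _).trans (min_le_right _ _)
        interval_cases n
        · exact ⟨hlomn.trans m4, by simp only [zero_add]; rw [hM]; linarith⟩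
        · exact ⟨hlomn.trans m5, by rw [hM]; change x 5 ≤ _; linarith⟩
        · exact ⟨hlomn.trans m6, by rw [hM]; change x 6 ≤ _; linarith⟩
        · exact ⟨hlomn.trans m7, by rw [hM]; change x 7 ≤ _; linarith⟩
      · obtain ⟨m, rfl⟩ : ∃ m, n = m + 4 := ⟨n - 4, by omega⟩
        have hb' := lin_bounds (n := m + 4) (x := x) (lo := lo) (hi := M) hB.nonneg hB0 (by
          intro k hk
          have := ih (m + k) (by omega)
          have e : m + 4 + k = m + k + 4 := by ring
          rw [e]; exact this)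
        rw [← hP] at hb'
        rw [hstep]
        have d0 := hx.den_pos (m + 4)
        constructor
        · rw [hlo]
          exact div_le_div_of_nonneg_left hb0.le d0 hb'.2
        · have h1 : b 0 / lin B x (m + 4) ≤ b 0 / (P * lo) :=
            div_le_div_of_nonneg_left hb0.le (mul_pos hP0 hlo0) hb'.1
          have h2 : b 0 / (P * lo) = M := by
            rw [hlo]
            field_simp
          rw [← h2]; exact h1
  refine ⟨M + x 0 + x 1 + x 2 + x 3, ?_⟩
  intro n
  have i0 := hx.init 0 (by norm_num)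
  have i1 := hx.init 1 (by norm_num)
  have i2 := hx.init 2 (by norm_num)
  have i3 := hx.init 3 (by norm_num)
  by_cases hn : n < 4
  · interval_cases n <;> linarith
  · obtain ⟨m, rfl⟩ : ∃ m, n = m + 4 := ⟨n - 4, by omega⟩
    have := (key m).2
    linarith

end Pool.Agent.RatRec
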