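import Pool.Agent.Lib_helper61.Rat.FamA

/-!
Families of cases with pinned patterns of periods three and four.
-/

set_option autoImplicit false

namespace Pool.Agent.RatRec

theorem vf_eq (D : PinData) (j r : ℕ) : D.vf (D.per * j + r) = D.v.getD (r % D.per) 0 := by
  simp [PinData.vf, Nat.add_mod]

/-- The inequality behind the families with a constant argument. -/
theorem quad_pos {x y : ℝ} (hy : 0 < y) : 0 < x ^ 2 + y * x + y ^ 2 := by
  nlinarith [sq_nonneg (x + y / 2), sq_nonneg y, mul_pos hy hy]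

/-- Pattern (1,0,0), `2, 3 ∈ S ⊆ {0,2,3}`, `2 ∈ T ⊆ {0,2}`. -/
theorem fam_100_2 {b B : Fin 5 → ℝ} {S T : Finset (Fin 5)} (hb : SupportedOn b S)
    (hB : SupportedOn B T) (hS : ∀ k ∈ S, k ≠ 1 ∧ k ≠ 4) (hT : ∀ k ∈ T, k ≠ 1 ∧ k ≠ 3 ∧ k ≠ 4)
    (hS2 : 2 ∈ S) (hS3 : 3 ∈ S) (hT2 : 2 ∈ T)
    {v : ℕ → ℤ} (hv0 : ∀ j, v (3 * j) = 1) (hv1 : ∀ j, v (3 * j + 1) = 0)
    (hv2 : ∀ j, v (3 * j + 2) = 0) {u : ℕ → ℝ} (h : LimSol 1 v b B S T u) : False := by
  have hv3 : ∀ j, v (3 * j + 3) = 1 := fun j => hv0 (j + 1)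
  have hv4 : ∀ j, v (3 * j + 4) = 0 := fun j => hv1 (j + 1)
  have hv5 : ∀ j, v (3 * j + 5) = 0 := fun j => hv2 (j + 1)
  have b1 : b 1 = 0 := hb.2 1 (fun hk => (hS 1 hk).1 rfl)
  have b4 : b 4 = 0 := hb.2 4 (fun hk => (hS 4 hk).2 rfl)
  have B1 : B 1 = 0 := hB.2 1 (fun hk => (hT 1 hk).1 rfl)
  have B3 : B 3 = 0 := hB.2 3 (fun hk => (hT 3 hk).2.1 rfl)
  have B4 : B 4 = 0 := hB.2 4 (fun hk => (hT 4 hk).2.2 rfl)
  have b2 := hb.1 2 hS2
  have b3 := hb.1 3 hS3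
  have B2 := hB.1 2 hT2
  have b0 := hb.nonneg 0
  have B0 := hB.nonneg 0
  have e0 : ∀ j, _ := fun j => h.eq (3 * j) 1
    (by intro k hk; have := hT k hk; fin_cases k <;> simp_all [vv])
    (by intro k hk; have := hS k hk; fin_cases k <;> simp_all [vv])
  have e1 : ∀ j, _ := fun j => h.eq (3 * j + 1) 1
    (by intro k hk; have := hT k hk; fin_cases k <;> simp_all [vv, Nat.add_assoc])
    (by intro k hk; have := hS k hk; fin_cases k <;> simp_all [vv, Nat.add_assoc])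
  have e2 : ∀ j, _ := fun j => h.eq (3 * j + 2) 0
    (by intro k hk; have := hT k hk; fin_cases k <;> simp_all [vv, Nat.add_assoc])
    (by intro k hk; have := hS k hk; fin_cases k <;> simp_all [vv, Nat.add_assoc])
  simp [Fin.sum_univ_succ, vv, uu, Nat.add_assoc, hv0, hv1, hv2, hv3, hv4, hv5, b1, b4,
    B1, B3, B4] at e0 e1 e2
  have hu := h.pos
  -- the constant argument
  have hy : ∀ j, B 2 * u (3 * j + 1) = b 2 := by
    intro j
    have e := e1 j
    have hp := hu (3 * j + 3)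
    have : (B 2 * u (3 * j + 1) - b 2) * u (3 * j + 3) = 0 := by linarith
    rcases mul_eq_zero.mp this with h1 | h1
    · linarith
    · exact absurd h1 hp.ne'
  have hκ : 0 < b 0 + b 2 * (b 2 / B 2) := by positivity
  refine no_seq_G (A := B 0) (B := B 2) (B' := 0) (p := b 3) (a := B 0 + b 2)
    (κ := b 0 + b 2 * (b 2 / B 2)) B2.le le_rfl b3 (by linarith) hκ ?_
    (z := fun j => u (3 * j)) (s := fun j => u (3 * j + 2)) (fun j => hu _)
    (fun j => h.le_one _ (hv0 j)) (fun j => hu _) ?_ ?_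
  · intro _
    have e : (B 2 + 0) * (b 0 + b 2 * (b 2 / B 2)) = B 2 * b 0 + b 2 ^ 2 := by
      field_simp
      ring
    rw [e]
    have := quad_pos (x := B 0 - b 3) b2
    have : 0 ≤ B 2 * b 0 := mul_nonneg B2.le b0
    nlinarith
  · intro j
    have e := e0 j
    have h3 : 3 * (j + 1) = 3 * j + 3 := by ring
    simp only [h3]
    linarith
  · intro j
    have e := e2 j
    have h3 : 3 * (j + 1) + 2 = 3 * j + 5 := by ring
    have h4 := hy (j + 1)
    have h5 : 3 * (j + 1) + 1 = 3 * j + 4 := by ring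
    rw [h5] at h4
    have h6 : u (3 * j + 4) = b 2 / B 2 := by
      field_simp
      linarith
    simp only [h3]
    rw [h6] at e
    have h7 : B 2 * (u (3 * j + 2) * (b 2 / B 2)) = b 2 * u (3 * j + 2) := by
      field_simp
    rw [h7] at e
    linarith

/-- Pattern (1,-1,0), `S = {0,3}`, `T = {0,2}`. -/
theorem fam_9_5 {b B : Fin 5 → ℝ} {S T : Finset (Fin 5)} (hb : SupportedOn b S)
    (hB : SupportedOn B T) (hS : ∀ k ∈ S, k = 0 ∨ k = 3) (hT : ∀ k ∈ T, k = 0 ∨ k = 2)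
    (hS0 : 0 ∈ S) (hS3 : 3 ∈ S) (hT0 : 0 ∈ T)
    {v : ℕ → ℤ} (hv0 : ∀ j, v (3 * j) = 1) (hv1 : ∀ j, v (3 * j + 1) = -1)
    (hv2 : ∀ j, v (3 * j + 2) = 0) {u : ℕ → ℝ} (h : LimSol 1 v b B S T u) : False := by
  have hv3 : ∀ j, v (3 * j + 3) = 1 := fun j => hv0 (j + 1)
  have hv4 : ∀ j, v (3 * j + 4) = -1 := fun j => hv1 (j + 1)
  have hv5 : ∀ j, v (3 * j + 5) = 0 := fun j => hv2 (j + 1)
  have hv6 : ∀ j, v (3 * j + 6) = 1 := fun j => hv0 (j + 2)
  have b1 : b 1 = 0 := hb.2 1 (fun hk => by have := hS 1 hk; simp at this)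
  have b2 : b 2 = 0 := hb.2 2 (fun hk => by have := hS 2 hk; simp at this)
  have b4 : b 4 = 0 := hb.2 4 (fun hk => by have := hS 4 hk; simp at this)
  have B1 : B 1 = 0 := hB.2 1 (fun hk => by have := hT 1 hk; simp at this)
  have B3 : B 3 = 0 := hB.2 3 (fun hk => by have := hT 3 hk; simp at this)
  have B4 : B 4 = 0 := hB.2 4 (fun hk => by have := hT 4 hk; simp at this)
  have b0 := hb.1 0 hS0
  have b3 := hb.1 3 hS3
  have B0 := hB.1 0 hT0
  have B2 := hB.nonneg 2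
  have e0 : ∀ j, _ := fun j => h.eq (3 * j) 1
    (by intro k hk; have := hT k hk; fin_cases k <;> simp_all [vv])
    (by intro k hk; have := hS k hk; fin_cases k <;> simp_all [vv])
  have e2 : ∀ j, _ := fun j => h.eq (3 * j + 2) 0
    (by intro k hk; have := hT k hk; fin_cases k <;> simp_all [vv, Nat.add_assoc])
    (by intro k hk; have := hS k hk; fin_cases k <;> simp_all [vv, Nat.add_assoc])
  simp [Fin.sum_univ_succ, vv, uu, Nat.add_assoc, hv0, hv1, hv2, hv3, hv4, hv5, b1, b2, b4,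
    B1, B3, B4] at e0 e2
  have hu := h.pos
  refine no_seq_G (A := B 0) (B := B 2) (B' := 0) (p := b 3) (a := B 0)
    (κ := b 0) B2 le_rfl b3 B0 b0 ?_
    (z := fun j => u (3 * j)) (s := fun j => u (3 * j + 2)) (fun j => hu _)
    (fun j => h.le_one _ (hv0 j)) (fun j => hu _) ?_ ?_
  · intro hp
    have : 0 ≤ (B 2 + 0) * b 0 := by positivity
    nlinarith
  · intro j
    have e := e0 j
    have h3 : 3 * (j + 1) = 3 * j + 3 := by ring
    simp only [h3]
    linarith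
  · intro j
    have e := e2 j
    have h3 : 3 * (j + 1) + 2 = 3 * j + 5 := by ring
    simp only [h3]
    linarith

/-- Pattern (1,0,-1,-1), `S = {0,4}`, `T = {0,1,2}`. -/
theorem fam_17_7 {b B : Fin 5 → ℝ} {S T : Finset (Fin 5)} (hb : SupportedOn b S)
    (hB : SupportedOn B T) (hS : ∀ k ∈ S, k = 0 ∨ k = 4) (hT : ∀ k ∈ T, k = 0 ∨ k = 1 ∨ k = 2)
    (hS0 : 0 ∈ S) (hS4 : 4 ∈ S) (hT0 : 0 ∈ T)
    {v : ℕ → ℤ} (hv0 : ∀ j, v (4 * j) = 1) (hv1 : ∀ j, v (4 * j + 1) = 0)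
    (hv2 : ∀ j, v (4 * j + 2) = -1) (hv3 : ∀ j, v (4 * j + 3) = -1) {u : ℕ → ℝ}
    (h : LimSol 1 v b B S T u) : False := by
  have hv4 : ∀ j, v (4 * j + 4) = 1 := fun j => hv0 (j + 1)
  have hv5 : ∀ j, v (4 * j + 5) = 0 := fun j => hv1 (j + 1)
  have b1 : b 1 = 0 := hb.2 1 (fun hk => by have := hS 1 hk; simp at this)
  have b2 : b 2 = 0 := hb.2 2 (fun hk => by have := hS 2 hk; simp at this)
  have b3 : b 3 = 0 := hb.2 3 (fun hk => by have := hS 3 hk; simp at this)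
  have B3 : B 3 = 0 := hB.2 3 (fun hk => by have := hT 3 hk; simp at this)
  have B4 : B 4 = 0 := hB.2 4 (fun hk => by have := hT 4 hk; simp at this)
  have b0 := hb.1 0 hS0
  have b4 := hb.1 4 hS4
  have B0 := hB.1 0 hT0
  have B1 := hB.nonneg 1
  have e0 : ∀ j, _ := fun j => h.eq (4 * j) 1
    (by intro k hk; have := hT k hk; fin_cases k <;> simp_all [vv])
    (by intro k hk; have := hS k hk; fin_cases k <;> simp_all [vv])
  have e1 : ∀ j, _ := fun j => h.eq (4 * j + 1) 0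
    (by intro k hk; have := hT k hk; fin_cases k <;> simp_all [vv, Nat.add_assoc])
    (by intro k hk; have := hS k hk; fin_cases k <;> simp_all [vv, Nat.add_assoc])
  simp [Fin.sum_univ_succ, vv, uu, Nat.add_assoc, hv0, hv1, hv2, hv3, hv4, hv5, b1, b2, b3,
    B3, B4] at e0 e1
  have hu := h.pos
  refine no_seq_G (A := B 0) (B := B 1) (B' := 0) (p := b 4) (a := B 0)
    (κ := b 0) B1 le_rfl b4 B0 b0 ?_
    (z := fun j => u (4 * j)) (s := fun j => u (4 * j + 1)) (fun j => hu _)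
    (fun j => h.le_one _ (hv0 j)) (fun j => hu _) ?_ ?_
  · intro hp
    have : 0 ≤ (B 1 + 0) * b 0 := by positivity
    nlinarith
  · intro j
    have e := e0 j
    have h3 : 4 * (j + 1) = 4 * j + 4 := by ring
    simp only [h3]
    linarith
  · intro j
    have e := e1 j
    have h3 : 4 * (j + 1) + 1 = 4 * j + 5 := by ring
    simp only [h3]
    linarith

/-- Pattern (1,-1,-1,0), `S = {0,4}`, `T = {0,2,3}`. -/
theorem fam_17_13 {b B : Fin 5 → ℝ} {S T : Finset (Fin 5)} (hb : SupportedOn b S)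
    (hB : SupportedOn B T) (hS : ∀ k ∈ S, k = 0 ∨ k = 4) (hT : ∀ k ∈ T, k = 0 ∨ k = 2 ∨ k = 3)
    (hS0 : 0 ∈ S) (hS4 : 4 ∈ S) (hT0 : 0 ∈ T)
    {v : ℕ → ℤ} (hv0 : ∀ j, v (4 * j) = 1) (hv1 : ∀ j, v (4 * j + 1) = -1)
    (hv2 : ∀ j, v (4 * j + 2) = -1) (hv3 : ∀ j, v (4 * j + 3) = 0) {u : ℕ → ℝ}
    (h : LimSol 1 v b B S T u) : False := by
  have hv4 : ∀ j, v (4 * j + 4) = 1 := fun j => hv0 (j + 1)
  have hv5 : ∀ j, v (4 * j + 5) = -1 := fun j => hv1 (j + 1)
  have hv6 : ∀ j, v (4 * j + 6) = -1 := fun j => hv2 (j + 1)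
  have hv7 : ∀ j, v (4 * j + 7) = 0 := fun j => hv3 (j + 1)
  have b1 : b 1 = 0 := hb.2 1 (fun hk => by have := hS 1 hk; simp at this)
  have b2 : b 2 = 0 := hb.2 2 (fun hk => by have := hS 2 hk; simp at this)
  have b3 : b 3 = 0 := hb.2 3 (fun hk => by have := hS 3 hk; simp at this)
  have B1 : B 1 = 0 := hB.2 1 (fun hk => by have := hT 1 hk; simp at this)
  have B4 : B 4 = 0 := hB.2 4 (fun hk => by have := hT 4 hk; simp at this)
  have b0 := hb.1 0 hS0
  have b4 := hb.1 4 hS4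
  have B0 := hB.1 0 hT0
  have B3 := hB.nonneg 3
  have e0 : ∀ j, _ := fun j => h.eq (4 * j) 1
    (by intro k hk; have := hT k hk; fin_cases k <;> simp_all [vv])
    (by intro k hk; have := hS k hk; fin_cases k <;> simp_all [vv])
  have e3 : ∀ j, _ := fun j => h.eq (4 * j + 3) 0
    (by intro k hk; have := hT k hk; fin_cases k <;> simp_all [vv, Nat.add_assoc])
    (by intro k hk; have := hS k hk; fin_cases k <;> simp_all [vv, Nat.add_assoc])
  simp [Fin.sum_univ_succ, vv, uu, Nat.add_assoc, hv0, hv1, hv2, hv3, hv4, hv5, hv6, hv7, b1,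
    b2, b3, B1, B4] at e0 e3
  have hu := h.pos
  refine no_seq_G (A := B 0) (B := B 3) (B' := 0) (p := b 4) (a := B 0)
    (κ := b 0) B3 le_rfl b4 B0 b0 ?_
    (z := fun j => u (4 * j)) (s := fun j => u (4 * j + 3)) (fun j => hu _)
    (fun j => h.le_one _ (hv0 j)) (fun j => hu _) ?_ ?_
  · intro hp
    have : 0 ≤ (B 3 + 0) * b 0 := by positivity
    nlinarith
  · intro j
    have e := e0 j
    have h3 : 4 * (j + 1) = 4 * j + 4 := by ring
    simp only [h3]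
    linarith
  · intro j
    have e := e3 j
    have h3 : 4 * (j + 1) + 3 = 4 * j + 7 := by ring
    simp only [h3]
    linarith

/-- Pattern (1,0,-1), `S = {0,3}`, `T ⊆ {0,1,4}`, `0 ∈ T`. -/
theorem fam_9 {b B : Fin 5 → ℝ} {S T : Finset (Fin 5)} (hb : SupportedOn b S)
    (hB : SupportedOn B T) (hS : ∀ k ∈ S, k = 0 ∨ k = 3) (hT : ∀ k ∈ T, k = 0 ∨ k = 1 ∨ k = 4)
    (hS0 : 0 ∈ S) (hS3 : 3 ∈ S) (hT0 : 0 ∈ T)
    {v : ℕ → ℤ} (hv0 : ∀ j, v (3 * j) = 1) (hv1 : ∀ j, v (3 * j + 1) = 0)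
    (hv2 : ∀ j, v (3 * j + 2) = -1) {u : ℕ → ℝ} (h : LimSol 1 v b B S T u) : False := by
  have hv3 : ∀ j, v (3 * j + 3) = 1 := fun j => hv0 (j + 1)
  have hv4 : ∀ j, v (3 * j + 4) = 0 := fun j => hv1 (j + 1)
  have hv5 : ∀ j, v (3 * j + 5) = -1 := fun j => hv2 (j + 1)
  have b1 : b 1 = 0 := hb.2 1 (fun hk => by have := hS 1 hk; simp at this)
  have b2 : b 2 = 0 := hb.2 2 (fun hk => by have := hS 2 hk; simp at this)
  have b4 : b 4 = 0 := hb.2 4 (fun hk => by have := hS 4 hk; simp at this)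
  have B2 : B 2 = 0 := hB.2 2 (fun hk => by have := hT 2 hk; simp at this)
  have B3 : B 3 = 0 := hB.2 3 (fun hk => by have := hT 3 hk; simp at this)
  have b0 := hb.1 0 hS0
  have b3 := hb.1 3 hS3
  have B0 := hB.1 0 hT0
  have B1 := hB.nonneg 1
  have B4 := hB.nonneg 4
  have e0 : ∀ j, _ := fun j => h.eq (3 * j) 1
    (by intro k hk; have := hT k hk; fin_cases k <;> simp_all [vv])
    (by intro k hk; have := hS k hk; fin_cases k <;> simp_all [vv])
  have e1 : ∀ j, _ := fun j => h.eq (3 * j + 1) 0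
    (by intro k hk; have := hT k hk; fin_cases k <;> simp_all [vv, Nat.add_assoc])
    (by intro k hk; have := hS k hk; fin_cases k <;> simp_all [vv, Nat.add_assoc])
  simp [Fin.sum_univ_succ, vv, uu, Nat.add_assoc, hv0, hv1, hv2, hv3, hv4, hv5, b1, b2, b4,
    B2, B3] at e0 e1
  have hu := h.pos
  refine no_seq_G (A := B 0) (B := B 1) (B' := B 4) (p := b 3) (a := B 0)
    (κ := b 0) B1 B4 b3 B0 b0 ?_
    (z := fun j => u (3 * j)) (s := fun j => u (3 * j + 1)) (fun j => hu _)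
    (fun j => h.le_one _ (hv0 j)) (fun j => hu _) ?_ ?_
  · intro hp
    have : 0 ≤ (B 1 + B 4) * b 0 := by positivity
    nlinarith
  · intro j
    have e := e0 j
    have h3 : 3 * (j + 1) = 3 * j + 3 := by ring
    have h4 : 3 * (j + 1) + 1 = 3 * j + 4 := by ring
    simp only [h3]
    linarith
  · intro j
    have e := e1 j
    have h3 : 3 * (j + 1) + 1 = 3 * j + 4 := by ring
    simp only [h3]
    linarith

/-- Pattern (1,0,0), `1, 3 ∈ S ⊆ {0,1,3}`, `1 ∈ T ⊆ {0,1}`. -/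
theorem fam_10 {b B : Fin 5 → ℝ} {S T : Finset (Fin 5)} (hb : SupportedOn b S)
    (hB : SupportedOn B T) (hS : ∀ k ∈ S, k = 0 ∨ k = 1 ∨ k = 3) (hT : ∀ k ∈ T, k = 0 ∨ k = 1)
    (hS1 : 1 ∈ S) (hS3 : 3 ∈ S) (hT1 : 1 ∈ T)
    {v : ℕ → ℤ} (hv0 : ∀ j, v (3 * j) = 1) (hv1 : ∀ j, v (3 * j + 1) = 0)
    (hv2 : ∀ j, v (3 * j + 2) = 0) {u : ℕ → ℝ} (h : LimSol 1 v b B S T u) : False := by
  have hv3 : ∀ j, v (3 * j + 3) = 1 := fun j => hv0 (j + 1)
  have hv4 : ∀ j, v (3 * j + 4) = 0 := fun j => hv1 (j + 1)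
  have hv5 : ∀ j, v (3 * j + 5) = 0 := fun j => hv2 (j + 1)
  have b2 : b 2 = 0 := hb.2 2 (fun hk => by have := hS 2 hk; simp at this)
  have b4 : b 4 = 0 := hb.2 4 (fun hk => by have := hS 4 hk; simp at this)
  have B2 : B 2 = 0 := hB.2 2 (fun hk => by have := hT 2 hk; simp at this)
  have B3 : B 3 = 0 := hB.2 3 (fun hk => by have := hT 3 hk; simp at this)
  have B4 : B 4 = 0 := hB.2 4 (fun hk => by have := hT 4 hk; simp at this)
  have b1 := hb.1 1 hS1
  have b3 := hb.1 3 hS3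
  have B1 := hB.1 1 hT1
  have b0 := hb.nonneg 0
  have B0 := hB.nonneg 0
  have e0 : ∀ j, _ := fun j => h.eq (3 * j) 1
    (by intro k hk; have := hT k hk; fin_cases k <;> simp_all [vv])
    (by intro k hk; have := hS k hk; fin_cases k <;> simp_all [vv])
  have e1 : ∀ j, _ := fun j => h.eq (3 * j + 1) 0
    (by intro k hk; have := hT k hk; fin_cases k <;> simp_all [vv, Nat.add_assoc])
    (by intro k hk; have := hS k hk; fin_cases k <;> simp_all [vv, Nat.add_assoc])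
  have e2 : ∀ j, _ := fun j => h.eq (3 * j + 2) 1
    (by intro k hk; have := hT k hk; fin_cases k <;> simp_all [vv, Nat.add_assoc])
    (by intro k hk; have := hS k hk; fin_cases k <;> simp_all [vv, Nat.add_assoc])
  simp [Fin.sum_univ_succ, vv, uu, Nat.add_assoc, hv0, hv1, hv2, hv3, hv4, hv5, b2, b4,
    B2, B3, B4] at e0 e1 e2
  have hu := h.pos
  have hy : ∀ j, u (3 * j + 2) = b 1 / B 1 := by
    intro j
    have e := e2 j
    have hp := hu (3 * j + 3)
    have : (B 1 * u (3 * j + 2) - b 1) * u (3 * j + 3) = 0 := by linarith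
    rcases mul_eq_zero.mp this with h1 | h1
    · field_simp
      linarith
    · exact absurd h1 hp.ne'
  have hκ : 0 < b 0 + b 1 * (b 1 / B 1) := by positivity
  refine no_seq_G (A := B 0) (B := B 1) (B' := 0) (p := b 3) (a := B 0 + b 1)
    (κ := b 0 + b 1 * (b 1 / B 1)) B1.le le_rfl b3 (by linarith) hκ ?_
    (z := fun j => u (3 * j)) (s := fun j => u (3 * j + 1)) (fun j => hu _)
    (fun j => h.le_one _ (hv0 j)) (fun j => hu _) ?_ ?_
  · intro _
    have e : (B 1 + 0) * (b 0 + b 1 * (b 1 / B 1)) = B 1 * b 0 + b 1 ^ 2 := by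
      field_simp
      ring
    rw [e]
    have := quad_pos (x := B 0 - b 3) b1
    have : 0 ≤ B 1 * b 0 := mul_nonneg B1.le b0
    nlinarith
  · intro j
    have e := e0 j
    have h3 : 3 * (j + 1) = 3 * j + 3 := by ring
    simp only [h3]
    linarith
  · intro j
    have e := e1 j
    have h3 : 3 * (j + 1) + 1 = 3 * j + 4 := by ring
    simp only [h3]
    rw [hy j] at e
    have h7 : B 1 * (u (3 * j + 1) * (b 1 / B 1)) = b 1 * u (3 * j + 1) := by
      field_simp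
    rw [h7] at e
    linarith

/-- Pattern (1,0,0), `3, 4 ∈ S ⊆ {0,3,4}`, `4 ∈ T ⊆ {0,4}`. -/
theorem fam_24 {b B : Fin 5 → ℝ} {S T : Finset (Fin 5)} (hb : SupportedOn b S)
    (hB : SupportedOn B T) (hS : ∀ k ∈ S, k = 0 ∨ k = 3 ∨ k = 4) (hT : ∀ k ∈ T, k = 0 ∨ k = 4)
    (hS3 : 3 ∈ S) (hS4 : 4 ∈ S) (hT4 : 4 ∈ T)
    {v : ℕ → ℤ} (hv0 : ∀ j, v (3 * j) = 1) (hv1 : ∀ j, v (3 * j + 1) = 0)
    (hv2 : ∀ j, v (3 * j + 2) = 0) {u : ℕ → ℝ} (h : LimSol 1 v b B S T u) : False := by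
  have hv3 : ∀ j, v (3 * j + 3) = 1 := fun j => hv0 (j + 1)
  have hv4 : ∀ j, v (3 * j + 4) = 0 := fun j => hv1 (j + 1)
  have hv5 : ∀ j, v (3 * j + 5) = 0 := fun j => hv2 (j + 1)
  have hv6 : ∀ j, v (3 * j + 6) = 1 := fun j => hv0 (j + 2)
  have b1 : b 1 = 0 := hb.2 1 (fun hk => by have := hS 1 hk; simp at this)
  have b2 : b 2 = 0 := hb.2 2 (fun hk => by have := hS 2 hk; simp at this)
  have B1 : B 1 = 0 := hB.2 1 (fun hk => by have := hT 1 hk; simp at this)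
  have B2 : B 2 = 0 := hB.2 2 (fun hk => by have := hT 2 hk; simp at this)
  have B3 : B 3 = 0 := hB.2 3 (fun hk => by have := hT 3 hk; simp at this)
  have b3 := hb.1 3 hS3
  have b4 := hb.1 4 hS4
  have B4 := hB.1 4 hT4
  have b0 := hb.nonneg 0
  have B0 := hB.nonneg 0
  have e0 : ∀ j, _ := fun j => h.eq (3 * j) 1
    (by intro k hk; have := hT k hk; fin_cases k <;> simp_all [vv])
    (by intro k hk; have := hS k hk; fin_cases k <;> simp_all [vv])
  have e1 : ∀ j, _ := fun j => h.eq (3 * j + 1) 0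
    (by intro k hk; have := hT k hk; fin_cases k <;> simp_all [vv, Nat.add_assoc])
    (by intro k hk; have := hS k hk; fin_cases k <;> simp_all [vv, Nat.add_assoc])
  have e2 : ∀ j, _ := fun j => h.eq (3 * j + 2) 1
    (by intro k hk; have := hT k hk; fin_cases k <;> simp_all [vv, Nat.add_assoc])
    (by intro k hk; have := hS k hk; fin_cases k <;> simp_all [vv, Nat.add_assoc])
  simp [Fin.sum_univ_succ, vv, uu, Nat.add_assoc, hv0, hv1, hv2, hv3, hv4, hv5, hv6, b1, b2,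
    B1, B2, B3] at e0 e1 e2
  have hu := h.pos
  have hy : ∀ j, u (3 * j + 2) = b 4 / B 4 := by
    intro j
    have e := e2 j
    have hp := hu (3 * j + 6)
    have : (B 4 * u (3 * j + 2) - b 4) * u (3 * j + 6) = 0 := by linarith
    rcases mul_eq_zero.mp this with h1 | h1
    · field_simp
      linarith
    · exact absurd h1 hp.ne'
  have hκ : 0 < b 0 + b 4 * (b 4 / B 4) := by positivity
  refine no_seq_G (A := B 0) (B := 0) (B' := B 4) (p := b 3) (a := B 0 + b 4)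
    (κ := b 0 + b 4 * (b 4 / B 4)) le_rfl B4.le b3 (by linarith) hκ ?_
    (z := fun j => u (3 * j)) (s := fun j => u (3 * j + 1)) (fun j => hu _)
    (fun j => h.le_one _ (hv0 j)) (fun j => hu _) ?_ ?_
  · intro _
    have e : (0 + B 4) * (b 0 + b 4 * (b 4 / B 4)) = B 4 * b 0 + b 4 ^ 2 := by
      field_simp
      ring
    rw [e]
    have := quad_pos (x := B 0 - b 3) b4
    have : 0 ≤ B 4 * b 0 := mul_nonneg B4.le b0
    nlinarith
  · intro j
    have e := e0 j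
    have h3 : 3 * (j + 1) = 3 * j + 3 := by ring
    have h4 : 3 * (j + 1) + 1 = 3 * j + 4 := by ring
    simp only [h3]
    linarith
  · intro j
    have e := e1 j
    have h3 : 3 * (j + 1) + 1 = 3 * j + 4 := by ring
    have h8 := hy (j + 1)
    have h9 : 3 * (j + 1) + 2 = 3 * j + 5 := by ring
    rw [h9] at h8
    simp only [h3]
    rw [h8] at e
    have h7 : B 4 * (u (3 * j + 1) * (b 4 / B 4)) = b 4 * u (3 * j + 1) := by
      field_simp
    rw [h7] at e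
    linarith

/-- Pattern (1,1,0,0), `1, 3 ∈ S ⊆ {0,1,2,3}`, `2 ∈ T ⊆ {0,2}`, `2 ∈ S` or `0 ∈ T`. -/
theorem fam_1100 {b B : Fin 5 → ℝ} {S T : Finset (Fin 5)} (hb : SupportedOn b S)
    (hB : SupportedOn B T) (hS : ∀ k ∈ S, k ≠ 4) (hT : ∀ k ∈ T, k = 0 ∨ k = 2)
    (hS1 : 1 ∈ S) (hS3 : 3 ∈ S) (hT2 : 2 ∈ T) (hor : 2 ∈ S ∨ 0 ∈ T)
    {v : ℕ → ℤ} (hv0 : ∀ j, v (4 * j) = 1) (hv1 : ∀ j, v (4 * j + 1) = 1)
    (hv2 : ∀ j, v (4 * j + 2) = 0) (hv3 : ∀ j, v (4 * j + 3) = 0) {u : ℕ → ℝ}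
    (h : LimSol 1 v b B S T u) : False := by
  have hv4 : ∀ j, v (4 * j + 4) = 1 := fun j => hv0 (j + 1)
  have hv5 : ∀ j, v (4 * j + 5) = 1 := fun j => hv1 (j + 1)
  have hv6 : ∀ j, v (4 * j + 6) = 0 := fun j => hv2 (j + 1)
  have b4 : b 4 = 0 := hb.2 4 (fun hk => by have := hS 4 hk; simp at this)
  have B1 : B 1 = 0 := hB.2 1 (fun hk => by have := hT 1 hk; simp at this)
  have B3 : B 3 = 0 := hB.2 3 (fun hk => by have := hT 3 hk; simp at this)
  have B4 : B 4 = 0 := hB.2 4 (fun hk => by have := hT 4 hk; simp at this)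
  have b1 := hb.1 1 hS1
  have b3 := hb.1 3 hS3
  have B2 := hB.1 2 hT2
  have b2 := hb.nonneg 2
  have B0 := hB.nonneg 0
  have ha : 0 < B 0 + b 2 := by
    rcases hor with h1 | h1
    · have := hb.1 2 h1; linarith
    · have := hB.1 0 h1; linarith
  have e0 : ∀ j, _ := fun j => h.eq (4 * j) 1
    (by intro k hk; have := hT k hk; fin_cases k <;> simp_all [vv])
    (by intro k hk; have := hS k hk; fin_cases k <;> simp_all [vv])
  have e1 : ∀ j, _ := fun j => h.eq (4 * j + 1) 1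
    (by intro k hk; have := hT k hk; fin_cases k <;> simp_all [vv, Nat.add_assoc])
    (by intro k hk; have := hS k hk; fin_cases k <;> simp_all [vv, Nat.add_assoc])
  have e2 : ∀ j, _ := fun j => h.eq (4 * j + 2) 1
    (by intro k hk; have := hT k hk; fin_cases k <;> simp_all [vv, Nat.add_assoc])
    (by intro k hk; have := hS k hk; fin_cases k <;> simp_all [vv, Nat.add_assoc])
  have e3 : ∀ j, _ := fun j => h.eq (4 * j + 3) 1
    (by intro k hk; have := hT k hk; fin_cases k <;> simp_all [vv, Nat.add_assoc])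
    (by intro k hk; have := hS k hk; fin_cases k <;> simp_all [vv, Nat.add_assoc])
  simp [Fin.sum_univ_succ, vv, uu, Nat.add_assoc, hv0, hv1, hv2, hv3, hv4, hv5, hv6, b4,
    B1, B3, B4] at e0 e1 e2 e3
  have hu := h.pos
  have hb13 : 0 < b 1 * b 3 := mul_pos b1 b3
  refine no_growth (t := 1 + (B 0 + b 2) ^ 2 / (b 1 * b 3)) (z := fun j => u (4 * j))
    (by have : 0 < (B 0 + b 2) ^ 2 / (b 1 * b 3) := by positivity
        linarith) (fun j => hu _)
    (fun j => h.le_one _ (hv0 j)) ?_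
  intro j
  have h4 : 4 * (j + 1) = 4 * j + 4 := by ring
  simp only [h4]
  have f0 := e0 j
  have f1 := e1 j
  have f2 := e2 j
  have f3 := e3 j
  set z := u (4 * j)
  set w := u (4 * j + 1)
  set r := u (4 * j + 2)
  set t := u (4 * j + 3)
  set z' := u (4 * j + 4)
  set w' := u (4 * j + 5)
  have pz : 0 < z := hu _
  have pw : 0 < w := hu _
  have pr : 0 < r := hu _
  have pt : 0 < t := hu _
  have pz' : 0 < z' := hu _
  have pw' : 0 < w' := hu _
  -- z (B0 + B2 r) = b1 w, w (B0 + B2 t) = b3 z'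
  have g1 : z * ((B 0 + B 2 * r) * (B 0 + B 2 * t)) = b 1 * b 3 * z' := by
    have : z * ((B 0 + B 2 * r) * (B 0 + B 2 * t)) =
        (B 0 * z + B 2 * (z * r)) * (B 0 + B 2 * t) := by ring
    rw [this, f0]
    have : b 1 * w * (B 0 + B 2 * t) = b 1 * (B 0 * w + B 2 * (w * t)) := by ring
    rw [this, f1]
    ring
  have g2 : B 2 * r * z' = b 2 * z' + b 3 * w' := by linarith
  have g3 : B 2 * t * w' = b 1 * z' + b 2 * w' := by linarith
  -- the product
  have g4 : (B 0 + b 2) ^ 2 + b 1 * b 3 ≤ (B 0 + B 2 * r) * (B 0 + B 2 * t) := by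
    have h1 : (B 0 + B 2 * r) * z' = (B 0 + b 2) * z' + b 3 * w' := by linarith
    have h2 : (B 0 + B 2 * t) * w' = (B 0 + b 2) * w' + b 1 * z' := by linarith
    have h3 : ((B 0 + B 2 * r) * (B 0 + B 2 * t)) * (z' * w') =
        ((B 0 + b 2) * z' + b 3 * w') * ((B 0 + b 2) * w' + b 1 * z') := by
      rw [← h1, ← h2]; ring
    have h4 : ((B 0 + b 2) ^ 2 + b 1 * b 3) * (z' * w') ≤
        ((B 0 + B 2 * r) * (B 0 + B 2 * t)) * (z' * w') := by
      rw [h3]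
      have : 0 ≤ (B 0 + b 2) * b 1 * z' ^ 2 := by positivity
      have : 0 ≤ (B 0 + b 2) * b 3 * w' ^ 2 := by positivity
      nlinarith
    exact le_of_mul_le_mul_right h4 (mul_pos pz' pw')
  have g5 : z * ((B 0 + b 2) ^ 2 + b 1 * b 3) ≤ b 1 * b 3 * z' := by
    rw [← g1]
    exact mul_le_mul_of_nonneg_left g4 pz.le
  have g6 : (1 + (B 0 + b 2) ^ 2 / (b 1 * b 3)) * z =
      z * ((B 0 + b 2) ^ 2 + b 1 * b 3) / (b 1 * b 3) := by
    field_simp
    ring
  rw [g6, div_le_iff₀ hb13]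
  linarith

end Pool.Agent.RatRec
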