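import Pool.Agent.Lib_helper61.Rat.PinData
import Pool.Agent.Lib_helper61.Rat.FamB
import Pool.Agent.Lib_helper61.Rat.FamC
import Pool.Agent.Lib_helper61.Rat.FamD

/-!
The cases with a pinned pattern.
-/

set_option autoImplicit false

namespace Pool.Agent.RatRec

theorem S_5_26 : pin_5_26.S = 5 := rfl

theorem T_5_26 : pin_5_26.T = 26 := rfl

theorem k_5_26 : pin_5_26.kap = 2 := rfl

theorem v_5_26_0 (j : ℕ) : pin_5_26.vf (9 * j) = 2 := vf_eq pin_5_26 j 0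

theorem v_5_26_1 (j : ℕ) : pin_5_26.vf (9 * j + 1) = -1 := vf_eq pin_5_26 j 1

theorem v_5_26_2 (j : ℕ) : pin_5_26.vf (9 * j + 2) = 1 := vf_eq pin_5_26 j 2

theorem v_5_26_3 (j : ℕ) : pin_5_26.vf (9 * j + 3) = -1 := vf_eq pin_5_26 j 3

theorem v_5_26_4 (j : ℕ) : pin_5_26.vf (9 * j + 4) = -1 := vf_eq pin_5_26 j 4

theorem v_5_26_5 (j : ℕ) : pin_5_26.vf (9 * j + 5) = -1 := vf_eq pin_5_26 j 5

theorem v_5_26_6 (j : ℕ) : pin_5_26.vf (9 * j + 6) = -2 := vf_eq pin_5_26 j 6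

theorem v_5_26_7 (j : ℕ) : pin_5_26.vf (9 * j + 7) = 1 := vf_eq pin_5_26 j 7

theorem v_5_26_8 (j : ℕ) : pin_5_26.vf (9 * j + 8) = -2 := vf_eq pin_5_26 j 8

theorem no_5_26 (b B : Fin 5 → ℝ) (hb : SupportedOn b (fs pin_5_26.S))
    (hB : SupportedOn B (fs pin_5_26.T)) (u : ℕ → ℝ) :
    ¬ LimSol pin_5_26.kap pin_5_26.vf b B (fs pin_5_26.S) (fs pin_5_26.T) u := by
  intro h
  rw [S_5_26] at *
  rw [T_5_26] at *
  rw [k_5_26] at *
  exact fam_F10 hb hB (by decide) (by decide) (by decide) (by decide) (by decide) (by decide) (by decide)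
    v_5_26_0 v_5_26_1 v_5_26_2 v_5_26_3 v_5_26_4 v_5_26_5 v_5_26_6 v_5_26_7 v_5_26_8 h

theorem cse_5_26 : BoundedOnly (fs pin_5_26.S) (fs pin_5_26.T) :=
  boundedOnly_of_pin pin_5_26_ok (no_5_26)

theorem bdd_5_26 : BoundedOnly (fs 5) (fs 26) :=
  cse_5_26

theorem S_9_3 : pin_9_3.S = 9 := rfl

theorem T_9_3 : pin_9_3.T = 3 := rfl

theorem k_9_3 : pin_9_3.kap = 1 := rfl

theorem v_9_3_0 (j : ℕ) : pin_9_3.vf (3 * j) = 1 := vf_eq pin_9_3 j 0

theorem v_9_3_1 (j : ℕ) : pin_9_3.vf (3 * j + 1) = 0 := vf_eq pin_9_3 j 1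

theorem v_9_3_2 (j : ℕ) : pin_9_3.vf (3 * j + 2) = -1 := vf_eq pin_9_3 j 2

theorem no_9_3 (b B : Fin 5 → ℝ) (hb : SupportedOn b (fs pin_9_3.S))
    (hB : SupportedOn B (fs pin_9_3.T)) (u : ℕ → ℝ) :
    ¬ LimSol pin_9_3.kap pin_9_3.vf b B (fs pin_9_3.S) (fs pin_9_3.T) u := by
  intro h
  rw [S_9_3] at *
  rw [T_9_3] at *
  rw [k_9_3] at *
  exact fam_9 hb hB (by decide) (by decide) (by decide) (by decide) (by decide)
    v_9_3_0 v_9_3_1 v_9_3_2 h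

theorem cse_9_3 : BoundedOnly (fs pin_9_3.S) (fs pin_9_3.T) :=
  boundedOnly_of_pin pin_9_3_ok (no_9_3)

theorem bdd_9_3 : BoundedOnly (fs 9) (fs 3) :=
  cse_9_3

theorem S_9_5 : pin_9_5.S = 9 := rfl

theorem T_9_5 : pin_9_5.T = 5 := rfl

theorem k_9_5 : pin_9_5.kap = 1 := rfl

theorem v_9_5_0 (j : ℕ) : pin_9_5.vf (3 * j) = 1 := vf_eq pin_9_5 j 0

theorem v_9_5_1 (j : ℕ) : pin_9_5.vf (3 * j + 1) = -1 := vf_eq pin_9_5 j 1

theorem v_9_5_2 (j : ℕ) : pin_9_5.vf (3 * j + 2) = 0 := vf_eq pin_9_5 j 2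

theorem no_9_5 (b B : Fin 5 → ℝ) (hb : SupportedOn b (fs pin_9_5.S))
    (hB : SupportedOn B (fs pin_9_5.T)) (u : ℕ → ℝ) :
    ¬ LimSol pin_9_5.kap pin_9_5.vf b B (fs pin_9_5.S) (fs pin_9_5.T) u := by
  intro h
  rw [S_9_5] at *
  rw [T_9_5] at *
  rw [k_9_5] at *
  exact fam_9_5 hb hB (by decide) (by decide) (by decide) (by decide) (by decide)
    v_9_5_0 v_9_5_1 v_9_5_2 h

theorem cse_9_5 : BoundedOnly (fs pin_9_5.S) (fs pin_9_5.T) :=
  boundedOnly_of_pin pin_9_5_ok (no_9_5)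

theorem bdd_9_5 : BoundedOnly (fs 9) (fs 5) :=
  cse_9_5

theorem S_9_17 : pin_9_17.S = 9 := rfl

theorem T_9_17 : pin_9_17.T = 17 := rfl

theorem k_9_17 : pin_9_17.kap = 1 := rfl

theorem v_9_17_0 (j : ℕ) : pin_9_17.vf (3 * j) = 1 := vf_eq pin_9_17 j 0

theorem v_9_17_1 (j : ℕ) : pin_9_17.vf (3 * j + 1) = 0 := vf_eq pin_9_17 j 1

theorem v_9_17_2 (j : ℕ) : pin_9_17.vf (3 * j + 2) = -1 := vf_eq pin_9_17 j 2

theorem no_9_17 (b B : Fin 5 → ℝ) (hb : SupportedOn b (fs pin_9_17.S))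
    (hB : SupportedOn B (fs pin_9_17.T)) (u : ℕ → ℝ) :
    ¬ LimSol pin_9_17.kap pin_9_17.vf b B (fs pin_9_17.S) (fs pin_9_17.T) u := by
  intro h
  rw [S_9_17] at *
  rw [T_9_17] at *
  rw [k_9_17] at *
  exact fam_9 hb hB (by decide) (by decide) (by decide) (by decide) (by decide)
    v_9_17_0 v_9_17_1 v_9_17_2 h

theorem cse_9_17 : BoundedOnly (fs pin_9_17.S) (fs pin_9_17.T) :=
  boundedOnly_of_pin pin_9_17_ok (no_9_17)

theorem bdd_9_17 : BoundedOnly (fs 9) (fs 17) :=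
  cse_9_17

theorem S_9_19 : pin_9_19.S = 9 := rfl

theorem T_9_19 : pin_9_19.T = 19 := rfl

theorem k_9_19 : pin_9_19.kap = 1 := rfl

theorem v_9_19_0 (j : ℕ) : pin_9_19.vf (3 * j) = 1 := vf_eq pin_9_19 j 0

theorem v_9_19_1 (j : ℕ) : pin_9_19.vf (3 * j + 1) = 0 := vf_eq pin_9_19 j 1

theorem v_9_19_2 (j : ℕ) : pin_9_19.vf (3 * j + 2) = -1 := vf_eq pin_9_19 j 2

theorem no_9_19 (b B : Fin 5 → ℝ) (hb : SupportedOn b (fs pin_9_19.S))
    (hB : SupportedOn B (fs pin_9_19.T)) (u : ℕ → ℝ) :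
    ¬ LimSol pin_9_19.kap pin_9_19.vf b B (fs pin_9_19.S) (fs pin_9_19.T) u := by
  intro h
  rw [S_9_19] at *
  rw [T_9_19] at *
  rw [k_9_19] at *
  exact fam_9 hb hB (by decide) (by decide) (by decide) (by decide) (by decide)
    v_9_19_0 v_9_19_1 v_9_19_2 h

theorem cse_9_19 : BoundedOnly (fs pin_9_19.S) (fs pin_9_19.T) :=
  boundedOnly_of_pin pin_9_19_ok (no_9_19)

theorem bdd_9_19 : BoundedOnly (fs 9) (fs 19) :=
  cse_9_19

theorem S_10_2 : pin_10_2.S = 10 := rfl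

theorem T_10_2 : pin_10_2.T = 2 := rfl

theorem k_10_2 : pin_10_2.kap = 1 := rfl

theorem v_10_2_0 (j : ℕ) : pin_10_2.vf (3 * j) = 1 := vf_eq pin_10_2 j 0

theorem v_10_2_1 (j : ℕ) : pin_10_2.vf (3 * j + 1) = 0 := vf_eq pin_10_2 j 1

theorem v_10_2_2 (j : ℕ) : pin_10_2.vf (3 * j + 2) = 0 := vf_eq pin_10_2 j 2

theorem no_10_2 (b B : Fin 5 → ℝ) (hb : SupportedOn b (fs pin_10_2.S))
    (hB : SupportedOn B (fs pin_10_2.T)) (u : ℕ → ℝ) :
    ¬ LimSol pin_10_2.kap pin_10_2.vf b B (fs pin_10_2.S) (fs pin_10_2.T) u := by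
  intro h
  rw [S_10_2] at *
  rw [T_10_2] at *
  rw [k_10_2] at *
  exact fam_10 hb hB (by decide) (by decide) (by decide) (by decide) (by decide)
    v_10_2_0 v_10_2_1 v_10_2_2 h

theorem cse_10_2 : BoundedOnly (fs pin_10_2.S) (fs pin_10_2.T) :=
  boundedOnly_of_pin pin_10_2_ok (no_10_2)

theorem bdd_10_2 : BoundedOnly (fs 10) (fs 2) :=
  cse_10_2

theorem S_10_3 : pin_10_3.S = 10 := rfl

theorem T_10_3 : pin_10_3.T = 3 := rfl

theorem k_10_3 : pin_10_3.kap = 1 := rfl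

theorem v_10_3_0 (j : ℕ) : pin_10_3.vf (3 * j) = 1 := vf_eq pin_10_3 j 0

theorem v_10_3_1 (j : ℕ) : pin_10_3.vf (3 * j + 1) = 0 := vf_eq pin_10_3 j 1

theorem v_10_3_2 (j : ℕ) : pin_10_3.vf (3 * j + 2) = 0 := vf_eq pin_10_3 j 2

theorem no_10_3 (b B : Fin 5 → ℝ) (hb : SupportedOn b (fs pin_10_3.S))
    (hB : SupportedOn B (fs pin_10_3.T)) (u : ℕ → ℝ) :
    ¬ LimSol pin_10_3.kap pin_10_3.vf b B (fs pin_10_3.S) (fs pin_10_3.T) u := by
  intro h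
  rw [S_10_3] at *
  rw [T_10_3] at *
  rw [k_10_3] at *
  exact fam_10 hb hB (by decide) (by decide) (by decide) (by decide) (by decide)
    v_10_3_0 v_10_3_1 v_10_3_2 h

theorem cse_10_3 : BoundedOnly (fs pin_10_3.S) (fs pin_10_3.T) :=
  boundedOnly_of_pin pin_10_3_ok (no_10_3)

theorem bdd_10_3 : BoundedOnly (fs 10) (fs 3) :=
  cse_10_3

theorem S_10_5 : pin_10_5.S = 10 := rfl

theorem T_10_5 : pin_10_5.T = 5 := rfl

theorem k_10_5 : pin_10_5.kap = 1 := rfl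

theorem v_10_5_0 (j : ℕ) : pin_10_5.vf (4 * j) = 1 := vf_eq pin_10_5 j 0

theorem v_10_5_1 (j : ℕ) : pin_10_5.vf (4 * j + 1) = 1 := vf_eq pin_10_5 j 1

theorem v_10_5_2 (j : ℕ) : pin_10_5.vf (4 * j + 2) = 0 := vf_eq pin_10_5 j 2

theorem v_10_5_3 (j : ℕ) : pin_10_5.vf (4 * j + 3) = 0 := vf_eq pin_10_5 j 3

theorem no_10_5 (b B : Fin 5 → ℝ) (hb : SupportedOn b (fs pin_10_5.S))
    (hB : SupportedOn B (fs pin_10_5.T)) (u : ℕ → ℝ) :
    ¬ LimSol pin_10_5.kap pin_10_5.vf b B (fs pin_10_5.S) (fs pin_10_5.T) u := by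
  intro h
  rw [S_10_5] at *
  rw [T_10_5] at *
  rw [k_10_5] at *
  exact fam_1100 hb hB (by decide) (by decide) (by decide) (by decide) (by decide) (by decide)
    v_10_5_0 v_10_5_1 v_10_5_2 v_10_5_3 h

theorem cse_10_5 : BoundedOnly (fs pin_10_5.S) (fs pin_10_5.T) :=
  boundedOnly_of_pin pin_10_5_ok (no_10_5)

theorem bdd_10_5 : BoundedOnly (fs 10) (fs 5) :=
  cse_10_5

theorem S_10_17 : pin_10_17.S = 10 := rfl

theorem T_10_17 : pin_10_17.T = 17 := rfl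

theorem k_10_17 : pin_10_17.kap = 1 := rfl

theorem v_10_17_0 (j : ℕ) : pin_10_17.vf (3 * j) = 1 := vf_eq pin_10_17 j 0

theorem v_10_17_1 (j : ℕ) : pin_10_17.vf (3 * j + 1) = 0 := vf_eq pin_10_17 j 1

theorem v_10_17_2 (j : ℕ) : pin_10_17.vf (3 * j + 2) = 0 := vf_eq pin_10_17 j 2

theorem no_10_17 (hG : G3Stmt) (b B : Fin 5 → ℝ) (hb : SupportedOn b (fs pin_10_17.S))
    (hB : SupportedOn B (fs pin_10_17.T)) (u : ℕ → ℝ) :
    ¬ LimSol pin_10_17.kap pin_10_17.vf b B (fs pin_10_17.S) (fs pin_10_17.T) u := by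
  intro h
  rw [S_10_17] at *
  rw [T_10_17] at *
  rw [k_10_17] at *
  exact fam_G3 hG hb hB (by decide) (by decide) (by decide) (by decide) (by decide)
    v_10_17_0 v_10_17_1 v_10_17_2 h

theorem cse_10_17 (hG : G3Stmt) : BoundedOnly (fs pin_10_17.S) (fs pin_10_17.T) :=
  boundedOnly_of_pin pin_10_17_ok (no_10_17 hG)

theorem bdd_10_17 (hG : G3Stmt) : BoundedOnly (fs 10) (fs 17) :=
  cse_10_17 hG

theorem S_10_18 : pin_10_18.S = 10 := rfl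

theorem T_10_18 : pin_10_18.T = 18 := rfl

theorem k_10_18 : pin_10_18.kap = 1 := rfl

theorem v_10_18_0 (j : ℕ) : pin_10_18.vf (3 * j) = 1 := vf_eq pin_10_18 j 0

theorem v_10_18_1 (j : ℕ) : pin_10_18.vf (3 * j + 1) = 0 := vf_eq pin_10_18 j 1

theorem v_10_18_2 (j : ℕ) : pin_10_18.vf (3 * j + 2) = 0 := vf_eq pin_10_18 j 2

theorem no_10_18 (hG : G3Stmt) (b B : Fin 5 → ℝ) (hb : SupportedOn b (fs pin_10_18.S))
    (hB : SupportedOn B (fs pin_10_18.T)) (u : ℕ → ℝ) :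
    ¬ LimSol pin_10_18.kap pin_10_18.vf b B (fs pin_10_18.S) (fs pin_10_18.T) u := by
  intro h
  rw [S_10_18] at *
  rw [T_10_18] at *
  rw [k_10_18] at *
  exact fam_G3 hG hb hB (by decide) (by decide) (by decide) (by decide) (by decide)
    v_10_18_0 v_10_18_1 v_10_18_2 h

theorem cse_10_18 (hG : G3Stmt) : BoundedOnly (fs pin_10_18.S) (fs pin_10_18.T) :=
  boundedOnly_of_pin pin_10_18_ok (no_10_18 hG)

theorem bdd_10_18 (hG : G3Stmt) : BoundedOnly (fs 10) (fs 18) :=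
  cse_10_18 hG

theorem S_10_19 : pin_10_19.S = 10 := rfl

theorem T_10_19 : pin_10_19.T = 19 := rfl

theorem k_10_19 : pin_10_19.kap = 1 := rfl

theorem v_10_19_0 (j : ℕ) : pin_10_19.vf (3 * j) = 1 := vf_eq pin_10_19 j 0

theorem v_10_19_1 (j : ℕ) : pin_10_19.vf (3 * j + 1) = 0 := vf_eq pin_10_19 j 1

theorem v_10_19_2 (j : ℕ) : pin_10_19.vf (3 * j + 2) = 0 := vf_eq pin_10_19 j 2

theorem no_10_19 (hG : G3Stmt) (b B : Fin 5 → ℝ) (hb : SupportedOn b (fs pin_10_19.S))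
    (hB : SupportedOn B (fs pin_10_19.T)) (u : ℕ → ℝ) :
    ¬ LimSol pin_10_19.kap pin_10_19.vf b B (fs pin_10_19.S) (fs pin_10_19.T) u := by
  intro h
  rw [S_10_19] at *
  rw [T_10_19] at *
  rw [k_10_19] at *
  exact fam_G3 hG hb hB (by decide) (by decide) (by decide) (by decide) (by decide)
    v_10_19_0 v_10_19_1 v_10_19_2 h

theorem cse_10_19 (hG : G3Stmt) : BoundedOnly (fs pin_10_19.S) (fs pin_10_19.T) :=
  boundedOnly_of_pin pin_10_19_ok (no_10_19 hG)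

theorem bdd_10_19 (hG : G3Stmt) : BoundedOnly (fs 10) (fs 19) :=
  cse_10_19 hG

theorem S_11_2 : pin_11_2.S = 11 := rfl

theorem T_11_2 : pin_11_2.T = 2 := rfl

theorem k_11_2 : pin_11_2.kap = 1 := rfl

theorem v_11_2_0 (j : ℕ) : pin_11_2.vf (3 * j) = 1 := vf_eq pin_11_2 j 0

theorem v_11_2_1 (j : ℕ) : pin_11_2.vf (3 * j + 1) = 0 := vf_eq pin_11_2 j 1

theorem v_11_2_2 (j : ℕ) : pin_11_2.vf (3 * j + 2) = 0 := vf_eq pin_11_2 j 2

theorem no_11_2 (b B : Fin 5 → ℝ) (hb : SupportedOn b (fs pin_11_2.S))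
    (hB : SupportedOn B (fs pin_11_2.T)) (u : ℕ → ℝ) :
    ¬ LimSol pin_11_2.kap pin_11_2.vf b B (fs pin_11_2.S) (fs pin_11_2.T) u := by
  intro h
  rw [S_11_2] at *
  rw [T_11_2] at *
  rw [k_11_2] at *
  exact fam_10 hb hB (by decide) (by decide) (by decide) (by decide) (by decide)
    v_11_2_0 v_11_2_1 v_11_2_2 h

theorem cse_11_2 : BoundedOnly (fs pin_11_2.S) (fs pin_11_2.T) :=
  boundedOnly_of_pin pin_11_2_ok (no_11_2)

theorem bdd_11_2 : BoundedOnly (fs 11) (fs 2) :=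
  cse_11_2

theorem S_11_3 : pin_11_3.S = 11 := rfl

theorem T_11_3 : pin_11_3.T = 3 := rfl

theorem k_11_3 : pin_11_3.kap = 1 := rfl

theorem v_11_3_0 (j : ℕ) : pin_11_3.vf (3 * j) = 1 := vf_eq pin_11_3 j 0

theorem v_11_3_1 (j : ℕ) : pin_11_3.vf (3 * j + 1) = 0 := vf_eq pin_11_3 j 1

theorem v_11_3_2 (j : ℕ) : pin_11_3.vf (3 * j + 2) = 0 := vf_eq pin_11_3 j 2

theorem no_11_3 (b B : Fin 5 → ℝ) (hb : SupportedOn b (fs pin_11_3.S))
    (hB : SupportedOn B (fs pin_11_3.T)) (u : ℕ → ℝ) :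
    ¬ LimSol pin_11_3.kap pin_11_3.vf b B (fs pin_11_3.S) (fs pin_11_3.T) u := by
  intro h
  rw [S_11_3] at *
  rw [T_11_3] at *
  rw [k_11_3] at *
  exact fam_10 hb hB (by decide) (by decide) (by decide) (by decide) (by decide)
    v_11_3_0 v_11_3_1 v_11_3_2 h

theorem cse_11_3 : BoundedOnly (fs pin_11_3.S) (fs pin_11_3.T) :=
  boundedOnly_of_pin pin_11_3_ok (no_11_3)

theorem bdd_11_3 : BoundedOnly (fs 11) (fs 3) :=
  cse_11_3

theorem S_11_5 : pin_11_5.S = 11 := rfl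

theorem T_11_5 : pin_11_5.T = 5 := rfl

theorem k_11_5 : pin_11_5.kap = 1 := rfl

theorem v_11_5_0 (j : ℕ) : pin_11_5.vf (4 * j) = 1 := vf_eq pin_11_5 j 0

theorem v_11_5_1 (j : ℕ) : pin_11_5.vf (4 * j + 1) = 1 := vf_eq pin_11_5 j 1

theorem v_11_5_2 (j : ℕ) : pin_11_5.vf (4 * j + 2) = 0 := vf_eq pin_11_5 j 2

theorem v_11_5_3 (j : ℕ) : pin_11_5.vf (4 * j + 3) = 0 := vf_eq pin_11_5 j 3

theorem no_11_5 (b B : Fin 5 → ℝ) (hb : SupportedOn b (fs pin_11_5.S))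
    (hB : SupportedOn B (fs pin_11_5.T)) (u : ℕ → ℝ) :
    ¬ LimSol pin_11_5.kap pin_11_5.vf b B (fs pin_11_5.S) (fs pin_11_5.T) u := by
  intro h
  rw [S_11_5] at *
  rw [T_11_5] at *
  rw [k_11_5] at *
  exact fam_1100 hb hB (by decide) (by decide) (by decide) (by decide) (by decide) (by decide)
    v_11_5_0 v_11_5_1 v_11_5_2 v_11_5_3 h

theorem cse_11_5 : BoundedOnly (fs pin_11_5.S) (fs pin_11_5.T) :=
  boundedOnly_of_pin pin_11_5_ok (no_11_5)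

theorem bdd_11_5 : BoundedOnly (fs 11) (fs 5) :=
  cse_11_5

theorem S_11_17 : pin_11_17.S = 11 := rfl

theorem T_11_17 : pin_11_17.T = 17 := rfl

theorem k_11_17 : pin_11_17.kap = 1 := rfl

theorem v_11_17_0 (j : ℕ) : pin_11_17.vf (3 * j) = 1 := vf_eq pin_11_17 j 0

theorem v_11_17_1 (j : ℕ) : pin_11_17.vf (3 * j + 1) = 0 := vf_eq pin_11_17 j 1

theorem v_11_17_2 (j : ℕ) : pin_11_17.vf (3 * j + 2) = 0 := vf_eq pin_11_17 j 2

theorem no_11_17 (hG : G3Stmt) (b B : Fin 5 → ℝ) (hb : SupportedOn b (fs pin_11_17.S))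
    (hB : SupportedOn B (fs pin_11_17.T)) (u : ℕ → ℝ) :
    ¬ LimSol pin_11_17.kap pin_11_17.vf b B (fs pin_11_17.S) (fs pin_11_17.T) u := by
  intro h
  rw [S_11_17] at *
  rw [T_11_17] at *
  rw [k_11_17] at *
  exact fam_G3 hG hb hB (by decide) (by decide) (by decide) (by decide) (by decide)
    v_11_17_0 v_11_17_1 v_11_17_2 h

theorem cse_11_17 (hG : G3Stmt) : BoundedOnly (fs pin_11_17.S) (fs pin_11_17.T) :=
  boundedOnly_of_pin pin_11_17_ok (no_11_17 hG)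

theorem bdd_11_17 (hG : G3Stmt) : BoundedOnly (fs 11) (fs 17) :=
  cse_11_17 hG

theorem S_11_18 : pin_11_18.S = 11 := rfl

theorem T_11_18 : pin_11_18.T = 18 := rfl

theorem k_11_18 : pin_11_18.kap = 1 := rfl

theorem v_11_18_0 (j : ℕ) : pin_11_18.vf (3 * j) = 1 := vf_eq pin_11_18 j 0

theorem v_11_18_1 (j : ℕ) : pin_11_18.vf (3 * j + 1) = 0 := vf_eq pin_11_18 j 1

theorem v_11_18_2 (j : ℕ) : pin_11_18.vf (3 * j + 2) = 0 := vf_eq pin_11_18 j 2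

theorem no_11_18 (hG : G3Stmt) (b B : Fin 5 → ℝ) (hb : SupportedOn b (fs pin_11_18.S))
    (hB : SupportedOn B (fs pin_11_18.T)) (u : ℕ → ℝ) :
    ¬ LimSol pin_11_18.kap pin_11_18.vf b B (fs pin_11_18.S) (fs pin_11_18.T) u := by
  intro h
  rw [S_11_18] at *
  rw [T_11_18] at *
  rw [k_11_18] at *
  exact fam_G3 hG hb hB (by decide) (by decide) (by decide) (by decide) (by decide)
    v_11_18_0 v_11_18_1 v_11_18_2 h

theorem cse_11_18 (hG : G3Stmt) : BoundedOnly (fs pin_11_18.S) (fs pin_11_18.T) :=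
  boundedOnly_of_pin pin_11_18_ok (no_11_18 hG)

theorem bdd_11_18 (hG : G3Stmt) : BoundedOnly (fs 11) (fs 18) :=
  cse_11_18 hG

theorem S_11_19 : pin_11_19.S = 11 := rfl

theorem T_11_19 : pin_11_19.T = 19 := rfl

theorem k_11_19 : pin_11_19.kap = 1 := rfl

theorem v_11_19_0 (j : ℕ) : pin_11_19.vf (3 * j) = 1 := vf_eq pin_11_19 j 0

theorem v_11_19_1 (j : ℕ) : pin_11_19.vf (3 * j + 1) = 0 := vf_eq pin_11_19 j 1

theorem v_11_19_2 (j : ℕ) : pin_11_19.vf (3 * j + 2) = 0 := vf_eq pin_11_19 j 2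

theorem no_11_19 (hG : G3Stmt) (b B : Fin 5 → ℝ) (hb : SupportedOn b (fs pin_11_19.S))
    (hB : SupportedOn B (fs pin_11_19.T)) (u : ℕ → ℝ) :
    ¬ LimSol pin_11_19.kap pin_11_19.vf b B (fs pin_11_19.S) (fs pin_11_19.T) u := by
  intro h
  rw [S_11_19] at *
  rw [T_11_19] at *
  rw [k_11_19] at *
  exact fam_G3 hG hb hB (by decide) (by decide) (by decide) (by decide) (by decide)
    v_11_19_0 v_11_19_1 v_11_19_2 h

theorem cse_11_19 (hG : G3Stmt) : BoundedOnly (fs pin_11_19.S) (fs pin_11_19.T) :=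
  boundedOnly_of_pin pin_11_19_ok (no_11_19 hG)

theorem bdd_11_19 (hG : G3Stmt) : BoundedOnly (fs 11) (fs 19) :=
  cse_11_19 hG

theorem S_12_4 : pin_12_4.S = 12 := rfl

theorem T_12_4 : pin_12_4.T = 4 := rfl

theorem k_12_4 : pin_12_4.kap = 1 := rfl

theorem v_12_4_0 (j : ℕ) : pin_12_4.vf (3 * j) = 1 := vf_eq pin_12_4 j 0

theorem v_12_4_1 (j : ℕ) : pin_12_4.vf (3 * j + 1) = 0 := vf_eq pin_12_4 j 1

theorem v_12_4_2 (j : ℕ) : pin_12_4.vf (3 * j + 2) = 0 := vf_eq pin_12_4 j 2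

theorem no_12_4 (b B : Fin 5 → ℝ) (hb : SupportedOn b (fs pin_12_4.S))
    (hB : SupportedOn B (fs pin_12_4.T)) (u : ℕ → ℝ) :
    ¬ LimSol pin_12_4.kap pin_12_4.vf b B (fs pin_12_4.S) (fs pin_12_4.T) u := by
  intro h
  rw [S_12_4] at *
  rw [T_12_4] at *
  rw [k_12_4] at *
  exact fam_100_2 hb hB (by decide) (by decide) (by decide) (by decide) (by decide)
    v_12_4_0 v_12_4_1 v_12_4_2 h

theorem cse_12_4 : BoundedOnly (fs pin_12_4.S) (fs pin_12_4.T) :=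
  boundedOnly_of_pin pin_12_4_ok (no_12_4)

theorem bdd_12_4 : BoundedOnly (fs 12) (fs 4) :=
  cse_12_4

theorem S_12_5 : pin_12_5.S = 12 := rfl

theorem T_12_5 : pin_12_5.T = 5 := rfl

theorem k_12_5 : pin_12_5.kap = 1 := rfl

theorem v_12_5_0 (j : ℕ) : pin_12_5.vf (3 * j) = 1 := vf_eq pin_12_5 j 0

theorem v_12_5_1 (j : ℕ) : pin_12_5.vf (3 * j + 1) = 0 := vf_eq pin_12_5 j 1

theorem v_12_5_2 (j : ℕ) : pin_12_5.vf (3 * j + 2) = 0 := vf_eq pin_12_5 j 2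

theorem no_12_5 (b B : Fin 5 → ℝ) (hb : SupportedOn b (fs pin_12_5.S))
    (hB : SupportedOn B (fs pin_12_5.T)) (u : ℕ → ℝ) :
    ¬ LimSol pin_12_5.kap pin_12_5.vf b B (fs pin_12_5.S) (fs pin_12_5.T) u := by
  intro h
  rw [S_12_5] at *
  rw [T_12_5] at *
  rw [k_12_5] at *
  exact fam_100_2 hb hB (by decide) (by decide) (by decide) (by decide) (by decide)
    v_12_5_0 v_12_5_1 v_12_5_2 h

theorem cse_12_5 : BoundedOnly (fs pin_12_5.S) (fs pin_12_5.T) :=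
  boundedOnly_of_pin pin_12_5_ok (no_12_5)

theorem bdd_12_5 : BoundedOnly (fs 12) (fs 5) :=
  cse_12_5

theorem S_12_19 : pin_12_19.S = 12 := rfl

theorem T_12_19 : pin_12_19.T = 19 := rfl

theorem k_12_19 : pin_12_19.kap = 1 := rfl

theorem v_12_19_0 (j : ℕ) : pin_12_19.vf (5 * j) = 1 := vf_eq pin_12_19 j 0

theorem v_12_19_1 (j : ℕ) : pin_12_19.vf (5 * j + 1) = -1 := vf_eq pin_12_19 j 1

theorem v_12_19_2 (j : ℕ) : pin_12_19.vf (5 * j + 2) = 1 := vf_eq pin_12_19 j 2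

theorem v_12_19_3 (j : ℕ) : pin_12_19.vf (5 * j + 3) = 0 := vf_eq pin_12_19 j 3

theorem v_12_19_4 (j : ℕ) : pin_12_19.vf (5 * j + 4) = 0 := vf_eq pin_12_19 j 4

theorem no_12_19 (b B : Fin 5 → ℝ) (hb : SupportedOn b (fs pin_12_19.S))
    (hB : SupportedOn B (fs pin_12_19.T)) (u : ℕ → ℝ) :
    ¬ LimSol pin_12_19.kap pin_12_19.vf b B (fs pin_12_19.S) (fs pin_12_19.T) u := by
  intro h
  rw [S_12_19] at *
  rw [T_12_19] at *
  rw [k_12_19] at *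
  exact fam_F8 hb hB (by decide) (by decide) (by decide) (by decide) (by decide) (by decide) (by decide)
    v_12_19_0 v_12_19_1 v_12_19_2 v_12_19_3 v_12_19_4 h

theorem cse_12_19 : BoundedOnly (fs pin_12_19.S) (fs pin_12_19.T) :=
  boundedOnly_of_pin pin_12_19_ok (no_12_19)

theorem bdd_12_19 : BoundedOnly (fs 12) (fs 19) :=
  cse_12_19

theorem S_13_4 : pin_13_4.S = 13 := rfl

theorem T_13_4 : pin_13_4.T = 4 := rfl

theorem k_13_4 : pin_13_4.kap = 1 := rfl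

theorem v_13_4_0 (j : ℕ) : pin_13_4.vf (3 * j) = 1 := vf_eq pin_13_4 j 0

theorem v_13_4_1 (j : ℕ) : pin_13_4.vf (3 * j + 1) = 0 := vf_eq pin_13_4 j 1

theorem v_13_4_2 (j : ℕ) : pin_13_4.vf (3 * j + 2) = 0 := vf_eq pin_13_4 j 2

theorem no_13_4 (b B : Fin 5 → ℝ) (hb : SupportedOn b (fs pin_13_4.S))
    (hB : SupportedOn B (fs pin_13_4.T)) (u : ℕ → ℝ) :
    ¬ LimSol pin_13_4.kap pin_13_4.vf b B (fs pin_13_4.S) (fs pin_13_4.T) u := by
  intro h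
  rw [S_13_4] at *
  rw [T_13_4] at *
  rw [k_13_4] at *
  exact fam_100_2 hb hB (by decide) (by decide) (by decide) (by decide) (by decide)
    v_13_4_0 v_13_4_1 v_13_4_2 h

theorem cse_13_4 : BoundedOnly (fs pin_13_4.S) (fs pin_13_4.T) :=
  boundedOnly_of_pin pin_13_4_ok (no_13_4)

theorem bdd_13_4 : BoundedOnly (fs 13) (fs 4) :=
  cse_13_4

theorem S_13_5 : pin_13_5.S = 13 := rfl

theorem T_13_5 : pin_13_5.T = 5 := rfl

theorem k_13_5 : pin_13_5.kap = 1 := rfl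

theorem v_13_5_0 (j : ℕ) : pin_13_5.vf (3 * j) = 1 := vf_eq pin_13_5 j 0

theorem v_13_5_1 (j : ℕ) : pin_13_5.vf (3 * j + 1) = 0 := vf_eq pin_13_5 j 1

theorem v_13_5_2 (j : ℕ) : pin_13_5.vf (3 * j + 2) = 0 := vf_eq pin_13_5 j 2

theorem no_13_5 (b B : Fin 5 → ℝ) (hb : SupportedOn b (fs pin_13_5.S))
    (hB : SupportedOn B (fs pin_13_5.T)) (u : ℕ → ℝ) :
    ¬ LimSol pin_13_5.kap pin_13_5.vf b B (fs pin_13_5.S) (fs pin_13_5.T) u := by
  intro h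
  rw [S_13_5] at *
  rw [T_13_5] at *
  rw [k_13_5] at *
  exact fam_100_2 hb hB (by decide) (by decide) (by decide) (by decide) (by decide)
    v_13_5_0 v_13_5_1 v_13_5_2 h

theorem cse_13_5 : BoundedOnly (fs pin_13_5.S) (fs pin_13_5.T) :=
  boundedOnly_of_pin pin_13_5_ok (no_13_5)

theorem bdd_13_5 : BoundedOnly (fs 13) (fs 5) :=
  cse_13_5

theorem S_13_19 : pin_13_19.S = 13 := rfl

theorem T_13_19 : pin_13_19.T = 19 := rfl

theorem k_13_19 : pin_13_19.kap = 1 := rfl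

theorem v_13_19_0 (j : ℕ) : pin_13_19.vf (5 * j) = 1 := vf_eq pin_13_19 j 0

theorem v_13_19_1 (j : ℕ) : pin_13_19.vf (5 * j + 1) = -1 := vf_eq pin_13_19 j 1

theorem v_13_19_2 (j : ℕ) : pin_13_19.vf (5 * j + 2) = 1 := vf_eq pin_13_19 j 2

theorem v_13_19_3 (j : ℕ) : pin_13_19.vf (5 * j + 3) = 0 := vf_eq pin_13_19 j 3

theorem v_13_19_4 (j : ℕ) : pin_13_19.vf (5 * j + 4) = 0 := vf_eq pin_13_19 j 4

theorem no_13_19 (b B : Fin 5 → ℝ) (hb : SupportedOn b (fs pin_13_19.S))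
    (hB : SupportedOn B (fs pin_13_19.T)) (u : ℕ → ℝ) :
    ¬ LimSol pin_13_19.kap pin_13_19.vf b B (fs pin_13_19.S) (fs pin_13_19.T) u := by
  intro h
  rw [S_13_19] at *
  rw [T_13_19] at *
  rw [k_13_19] at *
  exact fam_F8 hb hB (by decide) (by decide) (by decide) (by decide) (by decide) (by decide) (by decide)
    v_13_19_0 v_13_19_1 v_13_19_2 v_13_19_3 v_13_19_4 h

theorem cse_13_19 : BoundedOnly (fs pin_13_19.S) (fs pin_13_19.T) :=
  boundedOnly_of_pin pin_13_19_ok (no_13_19)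

theorem bdd_13_19 : BoundedOnly (fs 13) (fs 19) :=
  cse_13_19

theorem S_14_4 : pin_14_4.S = 14 := rfl

theorem T_14_4 : pin_14_4.T = 4 := rfl

theorem k_14_4 : pin_14_4.kap = 1 := rfl

theorem v_14_4_0 (j : ℕ) : pin_14_4.vf (4 * j) = 1 := vf_eq pin_14_4 j 0

theorem v_14_4_1 (j : ℕ) : pin_14_4.vf (4 * j + 1) = 1 := vf_eq pin_14_4 j 1

theorem v_14_4_2 (j : ℕ) : pin_14_4.vf (4 * j + 2) = 0 := vf_eq pin_14_4 j 2

theorem v_14_4_3 (j : ℕ) : pin_14_4.vf (4 * j + 3) = 0 := vf_eq pin_14_4 j 3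

theorem no_14_4 (b B : Fin 5 → ℝ) (hb : SupportedOn b (fs pin_14_4.S))
    (hB : SupportedOn B (fs pin_14_4.T)) (u : ℕ → ℝ) :
    ¬ LimSol pin_14_4.kap pin_14_4.vf b B (fs pin_14_4.S) (fs pin_14_4.T) u := by
  intro h
  rw [S_14_4] at *
  rw [T_14_4] at *
  rw [k_14_4] at *
  exact fam_1100 hb hB (by decide) (by decide) (by decide) (by decide) (by decide) (by decide)
    v_14_4_0 v_14_4_1 v_14_4_2 v_14_4_3 h

theorem cse_14_4 : BoundedOnly (fs pin_14_4.S) (fs pin_14_4.T) :=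
  boundedOnly_of_pin pin_14_4_ok (no_14_4)

theorem bdd_14_4 : BoundedOnly (fs 14) (fs 4) :=
  cse_14_4

theorem S_14_5 : pin_14_5.S = 14 := rfl

theorem T_14_5 : pin_14_5.T = 5 := rfl

theorem k_14_5 : pin_14_5.kap = 1 := rfl

theorem v_14_5_0 (j : ℕ) : pin_14_5.vf (4 * j) = 1 := vf_eq pin_14_5 j 0

theorem v_14_5_1 (j : ℕ) : pin_14_5.vf (4 * j + 1) = 1 := vf_eq pin_14_5 j 1

theorem v_14_5_2 (j : ℕ) : pin_14_5.vf (4 * j + 2) = 0 := vf_eq pin_14_5 j 2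

theorem v_14_5_3 (j : ℕ) : pin_14_5.vf (4 * j + 3) = 0 := vf_eq pin_14_5 j 3

theorem no_14_5 (b B : Fin 5 → ℝ) (hb : SupportedOn b (fs pin_14_5.S))
    (hB : SupportedOn B (fs pin_14_5.T)) (u : ℕ → ℝ) :
    ¬ LimSol pin_14_5.kap pin_14_5.vf b B (fs pin_14_5.S) (fs pin_14_5.T) u := by
  intro h
  rw [S_14_5] at *
  rw [T_14_5] at *
  rw [k_14_5] at *
  exact fam_1100 hb hB (by decide) (by decide) (by decide) (by decide) (by decide) (by decide)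
    v_14_5_0 v_14_5_1 v_14_5_2 v_14_5_3 h

theorem cse_14_5 : BoundedOnly (fs pin_14_5.S) (fs pin_14_5.T) :=
  boundedOnly_of_pin pin_14_5_ok (no_14_5)

theorem bdd_14_5 : BoundedOnly (fs 14) (fs 5) :=
  cse_14_5

theorem S_14_18 : pin_14_18.S = 14 := rfl

theorem T_14_18 : pin_14_18.T = 18 := rfl

theorem k_14_18 : pin_14_18.kap = 1 := rfl

theorem v_14_18_0 (j : ℕ) : pin_14_18.vf (5 * j) = 1 := vf_eq pin_14_18 j 0

theorem v_14_18_1 (j : ℕ) : pin_14_18.vf (5 * j + 1) = 0 := vf_eq pin_14_18 j 1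

theorem v_14_18_2 (j : ℕ) : pin_14_18.vf (5 * j + 2) = 1 := vf_eq pin_14_18 j 2

theorem v_14_18_3 (j : ℕ) : pin_14_18.vf (5 * j + 3) = 0 := vf_eq pin_14_18 j 3

theorem v_14_18_4 (j : ℕ) : pin_14_18.vf (5 * j + 4) = 0 := vf_eq pin_14_18 j 4

theorem no_14_18 (b B : Fin 5 → ℝ) (hb : SupportedOn b (fs pin_14_18.S))
    (hB : SupportedOn B (fs pin_14_18.T)) (u : ℕ → ℝ) :
    ¬ LimSol pin_14_18.kap pin_14_18.vf b B (fs pin_14_18.S) (fs pin_14_18.T) u := by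
  intro h
  rw [S_14_18] at *
  rw [T_14_18] at *
  rw [k_14_18] at *
  exact fam_F7 hb hB (by decide) (by decide) (by decide) (by decide) (by decide) (by decide)
    v_14_18_0 v_14_18_1 v_14_18_2 v_14_18_3 v_14_18_4 h

theorem cse_14_18 : BoundedOnly (fs pin_14_18.S) (fs pin_14_18.T) :=
  boundedOnly_of_pin pin_14_18_ok (no_14_18)

theorem bdd_14_18 : BoundedOnly (fs 14) (fs 18) :=
  cse_14_18

theorem S_14_19 : pin_14_19.S = 14 := rfl

theorem T_14_19 : pin_14_19.T = 19 := rfl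

theorem k_14_19 : pin_14_19.kap = 1 := rfl

theorem v_14_19_0 (j : ℕ) : pin_14_19.vf (5 * j) = 1 := vf_eq pin_14_19 j 0

theorem v_14_19_1 (j : ℕ) : pin_14_19.vf (5 * j + 1) = 0 := vf_eq pin_14_19 j 1

theorem v_14_19_2 (j : ℕ) : pin_14_19.vf (5 * j + 2) = 1 := vf_eq pin_14_19 j 2

theorem v_14_19_3 (j : ℕ) : pin_14_19.vf (5 * j + 3) = 0 := vf_eq pin_14_19 j 3

theorem v_14_19_4 (j : ℕ) : pin_14_19.vf (5 * j + 4) = 0 := vf_eq pin_14_19 j 4

theorem no_14_19 (b B : Fin 5 → ℝ) (hb : SupportedOn b (fs pin_14_19.S))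
    (hB : SupportedOn B (fs pin_14_19.T)) (u : ℕ → ℝ) :
    ¬ LimSol pin_14_19.kap pin_14_19.vf b B (fs pin_14_19.S) (fs pin_14_19.T) u := by
  intro h
  rw [S_14_19] at *
  rw [T_14_19] at *
  rw [k_14_19] at *
  exact fam_F7 hb hB (by decide) (by decide) (by decide) (by decide) (by decide) (by decide)
    v_14_19_0 v_14_19_1 v_14_19_2 v_14_19_3 v_14_19_4 h

theorem cse_14_19 : BoundedOnly (fs pin_14_19.S) (fs pin_14_19.T) :=
  boundedOnly_of_pin pin_14_19_ok (no_14_19)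

theorem bdd_14_19 : BoundedOnly (fs 14) (fs 19) :=
  cse_14_19

theorem S_15_4 : pin_15_4.S = 15 := rfl

theorem T_15_4 : pin_15_4.T = 4 := rfl

theorem k_15_4 : pin_15_4.kap = 1 := rfl

theorem v_15_4_0 (j : ℕ) : pin_15_4.vf (4 * j) = 1 := vf_eq pin_15_4 j 0

theorem v_15_4_1 (j : ℕ) : pin_15_4.vf (4 * j + 1) = 1 := vf_eq pin_15_4 j 1

theorem v_15_4_2 (j : ℕ) : pin_15_4.vf (4 * j + 2) = 0 := vf_eq pin_15_4 j 2

theorem v_15_4_3 (j : ℕ) : pin_15_4.vf (4 * j + 3) = 0 := vf_eq pin_15_4 j 3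

theorem no_15_4 (b B : Fin 5 → ℝ) (hb : SupportedOn b (fs pin_15_4.S))
    (hB : SupportedOn B (fs pin_15_4.T)) (u : ℕ → ℝ) :
    ¬ LimSol pin_15_4.kap pin_15_4.vf b B (fs pin_15_4.S) (fs pin_15_4.T) u := by
  intro h
  rw [S_15_4] at *
  rw [T_15_4] at *
  rw [k_15_4] at *
  exact fam_1100 hb hB (by decide) (by decide) (by decide) (by decide) (by decide) (by decide)
    v_15_4_0 v_15_4_1 v_15_4_2 v_15_4_3 h

theorem cse_15_4 : BoundedOnly (fs pin_15_4.S) (fs pin_15_4.T) :=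
  boundedOnly_of_pin pin_15_4_ok (no_15_4)

theorem bdd_15_4 : BoundedOnly (fs 15) (fs 4) :=
  cse_15_4

theorem S_15_5 : pin_15_5.S = 15 := rfl

theorem T_15_5 : pin_15_5.T = 5 := rfl

theorem k_15_5 : pin_15_5.kap = 1 := rfl

theorem v_15_5_0 (j : ℕ) : pin_15_5.vf (4 * j) = 1 := vf_eq pin_15_5 j 0

theorem v_15_5_1 (j : ℕ) : pin_15_5.vf (4 * j + 1) = 1 := vf_eq pin_15_5 j 1

theorem v_15_5_2 (j : ℕ) : pin_15_5.vf (4 * j + 2) = 0 := vf_eq pin_15_5 j 2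

theorem v_15_5_3 (j : ℕ) : pin_15_5.vf (4 * j + 3) = 0 := vf_eq pin_15_5 j 3

theorem no_15_5 (b B : Fin 5 → ℝ) (hb : SupportedOn b (fs pin_15_5.S))
    (hB : SupportedOn B (fs pin_15_5.T)) (u : ℕ → ℝ) :
    ¬ LimSol pin_15_5.kap pin_15_5.vf b B (fs pin_15_5.S) (fs pin_15_5.T) u := by
  intro h
  rw [S_15_5] at *
  rw [T_15_5] at *
  rw [k_15_5] at *
  exact fam_1100 hb hB (by decide) (by decide) (by decide) (by decide) (by decide) (by decide)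
    v_15_5_0 v_15_5_1 v_15_5_2 v_15_5_3 h

theorem cse_15_5 : BoundedOnly (fs pin_15_5.S) (fs pin_15_5.T) :=
  boundedOnly_of_pin pin_15_5_ok (no_15_5)

theorem bdd_15_5 : BoundedOnly (fs 15) (fs 5) :=
  cse_15_5

theorem S_15_18 : pin_15_18.S = 15 := rfl

theorem T_15_18 : pin_15_18.T = 18 := rfl

theorem k_15_18 : pin_15_18.kap = 1 := rfl

theorem v_15_18_0 (j : ℕ) : pin_15_18.vf (5 * j) = 1 := vf_eq pin_15_18 j 0

theorem v_15_18_1 (j : ℕ) : pin_15_18.vf (5 * j + 1) = 0 := vf_eq pin_15_18 j 1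

theorem v_15_18_2 (j : ℕ) : pin_15_18.vf (5 * j + 2) = 1 := vf_eq pin_15_18 j 2

theorem v_15_18_3 (j : ℕ) : pin_15_18.vf (5 * j + 3) = 0 := vf_eq pin_15_18 j 3

theorem v_15_18_4 (j : ℕ) : pin_15_18.vf (5 * j + 4) = 0 := vf_eq pin_15_18 j 4

theorem no_15_18 (b B : Fin 5 → ℝ) (hb : SupportedOn b (fs pin_15_18.S))
    (hB : SupportedOn B (fs pin_15_18.T)) (u : ℕ → ℝ) :
    ¬ LimSol pin_15_18.kap pin_15_18.vf b B (fs pin_15_18.S) (fs pin_15_18.T) u := by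
  intro h
  rw [S_15_18] at *
  rw [T_15_18] at *
  rw [k_15_18] at *
  exact fam_F7 hb hB (by decide) (by decide) (by decide) (by decide) (by decide) (by decide)
    v_15_18_0 v_15_18_1 v_15_18_2 v_15_18_3 v_15_18_4 h

theorem cse_15_18 : BoundedOnly (fs pin_15_18.S) (fs pin_15_18.T) :=
  boundedOnly_of_pin pin_15_18_ok (no_15_18)

theorem bdd_15_18 : BoundedOnly (fs 15) (fs 18) :=
  cse_15_18

theorem S_15_19 : pin_15_19.S = 15 := rfl

theorem T_15_19 : pin_15_19.T = 19 := rfl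

theorem k_15_19 : pin_15_19.kap = 1 := rfl

theorem v_15_19_0 (j : ℕ) : pin_15_19.vf (5 * j) = 1 := vf_eq pin_15_19 j 0

theorem v_15_19_1 (j : ℕ) : pin_15_19.vf (5 * j + 1) = 0 := vf_eq pin_15_19 j 1

theorem v_15_19_2 (j : ℕ) : pin_15_19.vf (5 * j + 2) = 1 := vf_eq pin_15_19 j 2

theorem v_15_19_3 (j : ℕ) : pin_15_19.vf (5 * j + 3) = 0 := vf_eq pin_15_19 j 3

theorem v_15_19_4 (j : ℕ) : pin_15_19.vf (5 * j + 4) = 0 := vf_eq pin_15_19 j 4

theorem no_15_19 (b B : Fin 5 → ℝ) (hb : SupportedOn b (fs pin_15_19.S))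
    (hB : SupportedOn B (fs pin_15_19.T)) (u : ℕ → ℝ) :
    ¬ LimSol pin_15_19.kap pin_15_19.vf b B (fs pin_15_19.S) (fs pin_15_19.T) u := by
  intro h
  rw [S_15_19] at *
  rw [T_15_19] at *
  rw [k_15_19] at *
  exact fam_F7 hb hB (by decide) (by decide) (by decide) (by decide) (by decide) (by decide)
    v_15_19_0 v_15_19_1 v_15_19_2 v_15_19_3 v_15_19_4 h

theorem cse_15_19 : BoundedOnly (fs pin_15_19.S) (fs pin_15_19.T) :=
  boundedOnly_of_pin pin_15_19_ok (no_15_19)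

theorem bdd_15_19 : BoundedOnly (fs 15) (fs 19) :=
  cse_15_19

theorem S_17_7 : pin_17_7.S = 17 := rfl

theorem T_17_7 : pin_17_7.T = 7 := rfl

theorem k_17_7 : pin_17_7.kap = 1 := rfl

theorem v_17_7_0 (j : ℕ) : pin_17_7.vf (4 * j) = 1 := vf_eq pin_17_7 j 0

theorem v_17_7_1 (j : ℕ) : pin_17_7.vf (4 * j + 1) = 0 := vf_eq pin_17_7 j 1

theorem v_17_7_2 (j : ℕ) : pin_17_7.vf (4 * j + 2) = -1 := vf_eq pin_17_7 j 2

theorem v_17_7_3 (j : ℕ) : pin_17_7.vf (4 * j + 3) = -1 := vf_eq pin_17_7 j 3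

theorem no_17_7 (b B : Fin 5 → ℝ) (hb : SupportedOn b (fs pin_17_7.S))
    (hB : SupportedOn B (fs pin_17_7.T)) (u : ℕ → ℝ) :
    ¬ LimSol pin_17_7.kap pin_17_7.vf b B (fs pin_17_7.S) (fs pin_17_7.T) u := by
  intro h
  rw [S_17_7] at *
  rw [T_17_7] at *
  rw [k_17_7] at *
  exact fam_17_7 hb hB (by decide) (by decide) (by decide) (by decide) (by decide)
    v_17_7_0 v_17_7_1 v_17_7_2 v_17_7_3 h

theorem cse_17_7 : BoundedOnly (fs pin_17_7.S) (fs pin_17_7.T) :=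
  boundedOnly_of_pin pin_17_7_ok (no_17_7)

theorem bdd_17_7 : BoundedOnly (fs 17) (fs 7) :=
  cse_17_7

theorem S_17_13 : pin_17_13.S = 17 := rfl

theorem T_17_13 : pin_17_13.T = 13 := rfl

theorem k_17_13 : pin_17_13.kap = 1 := rfl

theorem v_17_13_0 (j : ℕ) : pin_17_13.vf (4 * j) = 1 := vf_eq pin_17_13 j 0

theorem v_17_13_1 (j : ℕ) : pin_17_13.vf (4 * j + 1) = -1 := vf_eq pin_17_13 j 1

theorem v_17_13_2 (j : ℕ) : pin_17_13.vf (4 * j + 2) = -1 := vf_eq pin_17_13 j 2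

theorem v_17_13_3 (j : ℕ) : pin_17_13.vf (4 * j + 3) = 0 := vf_eq pin_17_13 j 3

theorem no_17_13 (b B : Fin 5 → ℝ) (hb : SupportedOn b (fs pin_17_13.S))
    (hB : SupportedOn B (fs pin_17_13.T)) (u : ℕ → ℝ) :
    ¬ LimSol pin_17_13.kap pin_17_13.vf b B (fs pin_17_13.S) (fs pin_17_13.T) u := by
  intro h
  rw [S_17_13] at *
  rw [T_17_13] at *
  rw [k_17_13] at *
  exact fam_17_13 hb hB (by decide) (by decide) (by decide) (by decide) (by decide)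
    v_17_13_0 v_17_13_1 v_17_13_2 v_17_13_3 h

theorem cse_17_13 : BoundedOnly (fs pin_17_13.S) (fs pin_17_13.T) :=
  boundedOnly_of_pin pin_17_13_ok (no_17_13)

theorem bdd_17_13 : BoundedOnly (fs 17) (fs 13) :=
  cse_17_13

theorem S_18_13 : pin_18_13.S = 18 := rfl

theorem T_18_13 : pin_18_13.T = 13 := rfl

theorem k_18_13 : pin_18_13.kap = 1 := rfl

theorem v_18_13_0 (j : ℕ) : pin_18_13.vf (5 * j) = 1 := vf_eq pin_18_13 j 0

theorem v_18_13_1 (j : ℕ) : pin_18_13.vf (5 * j + 1) = 1 := vf_eq pin_18_13 j 1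

theorem v_18_13_2 (j : ℕ) : pin_18_13.vf (5 * j + 2) = 0 := vf_eq pin_18_13 j 2

theorem v_18_13_3 (j : ℕ) : pin_18_13.vf (5 * j + 3) = -1 := vf_eq pin_18_13 j 3

theorem v_18_13_4 (j : ℕ) : pin_18_13.vf (5 * j + 4) = 0 := vf_eq pin_18_13 j 4

theorem no_18_13 (b B : Fin 5 → ℝ) (hb : SupportedOn b (fs pin_18_13.S))
    (hB : SupportedOn B (fs pin_18_13.T)) (u : ℕ → ℝ) :
    ¬ LimSol pin_18_13.kap pin_18_13.vf b B (fs pin_18_13.S) (fs pin_18_13.T) u := by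
  intro h
  rw [S_18_13] at *
  rw [T_18_13] at *
  rw [k_18_13] at *
  exact fam_F9 hb hB (by decide) (by decide) (by decide) (by decide) (by decide) (by decide) (by decide)
    v_18_13_0 v_18_13_1 v_18_13_2 v_18_13_3 v_18_13_4 h

theorem cse_18_13 : BoundedOnly (fs pin_18_13.S) (fs pin_18_13.T) :=
  boundedOnly_of_pin pin_18_13_ok (no_18_13)

theorem bdd_18_13 : BoundedOnly (fs 18) (fs 13) :=
  cse_18_13

theorem S_19_13 : pin_19_13.S = 19 := rfl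

theorem T_19_13 : pin_19_13.T = 13 := rfl

theorem k_19_13 : pin_19_13.kap = 1 := rfl

theorem v_19_13_0 (j : ℕ) : pin_19_13.vf (5 * j) = 1 := vf_eq pin_19_13 j 0

theorem v_19_13_1 (j : ℕ) : pin_19_13.vf (5 * j + 1) = 1 := vf_eq pin_19_13 j 1

theorem v_19_13_2 (j : ℕ) : pin_19_13.vf (5 * j + 2) = 0 := vf_eq pin_19_13 j 2

theorem v_19_13_3 (j : ℕ) : pin_19_13.vf (5 * j + 3) = -1 := vf_eq pin_19_13 j 3

theorem v_19_13_4 (j : ℕ) : pin_19_13.vf (5 * j + 4) = 0 := vf_eq pin_19_13 j 4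

theorem no_19_13 (b B : Fin 5 → ℝ) (hb : SupportedOn b (fs pin_19_13.S))
    (hB : SupportedOn B (fs pin_19_13.T)) (u : ℕ → ℝ) :
    ¬ LimSol pin_19_13.kap pin_19_13.vf b B (fs pin_19_13.S) (fs pin_19_13.T) u := by
  intro h
  rw [S_19_13] at *
  rw [T_19_13] at *
  rw [k_19_13] at *
  exact fam_F9 hb hB (by decide) (by decide) (by decide) (by decide) (by decide) (by decide) (by decide)
    v_19_13_0 v_19_13_1 v_19_13_2 v_19_13_3 v_19_13_4 h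

theorem cse_19_13 : BoundedOnly (fs pin_19_13.S) (fs pin_19_13.T) :=
  boundedOnly_of_pin pin_19_13_ok (no_19_13)

theorem bdd_19_13 : BoundedOnly (fs 19) (fs 13) :=
  cse_19_13

theorem S_22_12 : pin_22_12.S = 22 := rfl

theorem T_22_12 : pin_22_12.T = 12 := rfl

theorem k_22_12 : pin_22_12.kap = 1 := rfl

theorem v_22_12_0 (j : ℕ) : pin_22_12.vf (5 * j) = 1 := vf_eq pin_22_12 j 0

theorem v_22_12_1 (j : ℕ) : pin_22_12.vf (5 * j + 1) = 1 := vf_eq pin_22_12 j 1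

theorem v_22_12_2 (j : ℕ) : pin_22_12.vf (5 * j + 2) = 0 := vf_eq pin_22_12 j 2

theorem v_22_12_3 (j : ℕ) : pin_22_12.vf (5 * j + 3) = 0 := vf_eq pin_22_12 j 3

theorem v_22_12_4 (j : ℕ) : pin_22_12.vf (5 * j + 4) = 0 := vf_eq pin_22_12 j 4

theorem no_22_12 (b B : Fin 5 → ℝ) (hb : SupportedOn b (fs pin_22_12.S))
    (hB : SupportedOn B (fs pin_22_12.T)) (u : ℕ → ℝ) :
    ¬ LimSol pin_22_12.kap pin_22_12.vf b B (fs pin_22_12.S) (fs pin_22_12.T) u := by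
  intro h
  rw [S_22_12] at *
  rw [T_22_12] at *
  rw [k_22_12] at *
  exact fam_F6 hb hB (by decide) (by decide) (by decide) (by decide) (by decide) (by decide)
    v_22_12_0 v_22_12_1 v_22_12_2 v_22_12_3 v_22_12_4 h

theorem cse_22_12 : BoundedOnly (fs pin_22_12.S) (fs pin_22_12.T) :=
  boundedOnly_of_pin pin_22_12_ok (no_22_12)

theorem bdd_22_12 : BoundedOnly (fs 22) (fs 12) :=
  cse_22_12

theorem S_22_13 : pin_22_13.S = 22 := rfl

theorem T_22_13 : pin_22_13.T = 13 := rfl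

theorem k_22_13 : pin_22_13.kap = 1 := rfl

theorem v_22_13_0 (j : ℕ) : pin_22_13.vf (5 * j) = 1 := vf_eq pin_22_13 j 0

theorem v_22_13_1 (j : ℕ) : pin_22_13.vf (5 * j + 1) = 1 := vf_eq pin_22_13 j 1

theorem v_22_13_2 (j : ℕ) : pin_22_13.vf (5 * j + 2) = 0 := vf_eq pin_22_13 j 2

theorem v_22_13_3 (j : ℕ) : pin_22_13.vf (5 * j + 3) = 0 := vf_eq pin_22_13 j 3

theorem v_22_13_4 (j : ℕ) : pin_22_13.vf (5 * j + 4) = 0 := vf_eq pin_22_13 j 4

theorem no_22_13 (b B : Fin 5 → ℝ) (hb : SupportedOn b (fs pin_22_13.S))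
    (hB : SupportedOn B (fs pin_22_13.T)) (u : ℕ → ℝ) :
    ¬ LimSol pin_22_13.kap pin_22_13.vf b B (fs pin_22_13.S) (fs pin_22_13.T) u := by
  intro h
  rw [S_22_13] at *
  rw [T_22_13] at *
  rw [k_22_13] at *
  exact fam_F6 hb hB (by decide) (by decide) (by decide) (by decide) (by decide) (by decide)
    v_22_13_0 v_22_13_1 v_22_13_2 v_22_13_3 v_22_13_4 h

theorem cse_22_13 : BoundedOnly (fs pin_22_13.S) (fs pin_22_13.T) :=
  boundedOnly_of_pin pin_22_13_ok (no_22_13)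

theorem bdd_22_13 : BoundedOnly (fs 22) (fs 13) :=
  cse_22_13

theorem S_23_12 : pin_23_12.S = 23 := rfl

theorem T_23_12 : pin_23_12.T = 12 := rfl

theorem k_23_12 : pin_23_12.kap = 1 := rfl

theorem v_23_12_0 (j : ℕ) : pin_23_12.vf (5 * j) = 1 := vf_eq pin_23_12 j 0

theorem v_23_12_1 (j : ℕ) : pin_23_12.vf (5 * j + 1) = 1 := vf_eq pin_23_12 j 1

theorem v_23_12_2 (j : ℕ) : pin_23_12.vf (5 * j + 2) = 0 := vf_eq pin_23_12 j 2

theorem v_23_12_3 (j : ℕ) : pin_23_12.vf (5 * j + 3) = 0 := vf_eq pin_23_12 j 3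

theorem v_23_12_4 (j : ℕ) : pin_23_12.vf (5 * j + 4) = 0 := vf_eq pin_23_12 j 4

theorem no_23_12 (b B : Fin 5 → ℝ) (hb : SupportedOn b (fs pin_23_12.S))
    (hB : SupportedOn B (fs pin_23_12.T)) (u : ℕ → ℝ) :
    ¬ LimSol pin_23_12.kap pin_23_12.vf b B (fs pin_23_12.S) (fs pin_23_12.T) u := by
  intro h
  rw [S_23_12] at *
  rw [T_23_12] at *
  rw [k_23_12] at *
  exact fam_F6 hb hB (by decide) (by decide) (by decide) (by decide) (by decide) (by decide)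
    v_23_12_0 v_23_12_1 v_23_12_2 v_23_12_3 v_23_12_4 h

theorem cse_23_12 : BoundedOnly (fs pin_23_12.S) (fs pin_23_12.T) :=
  boundedOnly_of_pin pin_23_12_ok (no_23_12)

theorem bdd_23_12 : BoundedOnly (fs 23) (fs 12) :=
  cse_23_12

theorem S_23_13 : pin_23_13.S = 23 := rfl

theorem T_23_13 : pin_23_13.T = 13 := rfl

theorem k_23_13 : pin_23_13.kap = 1 := rfl

theorem v_23_13_0 (j : ℕ) : pin_23_13.vf (5 * j) = 1 := vf_eq pin_23_13 j 0

theorem v_23_13_1 (j : ℕ) : pin_23_13.vf (5 * j + 1) = 1 := vf_eq pin_23_13 j 1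

theorem v_23_13_2 (j : ℕ) : pin_23_13.vf (5 * j + 2) = 0 := vf_eq pin_23_13 j 2

theorem v_23_13_3 (j : ℕ) : pin_23_13.vf (5 * j + 3) = 0 := vf_eq pin_23_13 j 3

theorem v_23_13_4 (j : ℕ) : pin_23_13.vf (5 * j + 4) = 0 := vf_eq pin_23_13 j 4

theorem no_23_13 (b B : Fin 5 → ℝ) (hb : SupportedOn b (fs pin_23_13.S))
    (hB : SupportedOn B (fs pin_23_13.T)) (u : ℕ → ℝ) :
    ¬ LimSol pin_23_13.kap pin_23_13.vf b B (fs pin_23_13.S) (fs pin_23_13.T) u := by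
  intro h
  rw [S_23_13] at *
  rw [T_23_13] at *
  rw [k_23_13] at *
  exact fam_F6 hb hB (by decide) (by decide) (by decide) (by decide) (by decide) (by decide)
    v_23_13_0 v_23_13_1 v_23_13_2 v_23_13_3 v_23_13_4 h

theorem cse_23_13 : BoundedOnly (fs pin_23_13.S) (fs pin_23_13.T) :=
  boundedOnly_of_pin pin_23_13_ok (no_23_13)

theorem bdd_23_13 : BoundedOnly (fs 23) (fs 13) :=
  cse_23_13

theorem S_24_16 : pin_24_16.S = 24 := rfl

theorem T_24_16 : pin_24_16.T = 16 := rfl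

theorem k_24_16 : pin_24_16.kap = 1 := rfl

theorem v_24_16_0 (j : ℕ) : pin_24_16.vf (3 * j) = 1 := vf_eq pin_24_16 j 0

theorem v_24_16_1 (j : ℕ) : pin_24_16.vf (3 * j + 1) = 0 := vf_eq pin_24_16 j 1

theorem v_24_16_2 (j : ℕ) : pin_24_16.vf (3 * j + 2) = 0 := vf_eq pin_24_16 j 2

theorem no_24_16 (b B : Fin 5 → ℝ) (hb : SupportedOn b (fs pin_24_16.S))
    (hB : SupportedOn B (fs pin_24_16.T)) (u : ℕ → ℝ) :
    ¬ LimSol pin_24_16.kap pin_24_16.vf b B (fs pin_24_16.S) (fs pin_24_16.T) u := by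
  intro h
  rw [S_24_16] at *
  rw [T_24_16] at *
  rw [k_24_16] at *
  exact fam_24 hb hB (by decide) (by decide) (by decide) (by decide) (by decide)
    v_24_16_0 v_24_16_1 v_24_16_2 h

theorem cse_24_16 : BoundedOnly (fs pin_24_16.S) (fs pin_24_16.T) :=
  boundedOnly_of_pin pin_24_16_ok (no_24_16)

theorem bdd_24_16 : BoundedOnly (fs 24) (fs 16) :=
  cse_24_16

theorem S_24_17 : pin_24_17.S = 24 := rfl

theorem T_24_17 : pin_24_17.T = 17 := rfl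

theorem k_24_17 : pin_24_17.kap = 1 := rfl

theorem v_24_17_0 (j : ℕ) : pin_24_17.vf (3 * j) = 1 := vf_eq pin_24_17 j 0

theorem v_24_17_1 (j : ℕ) : pin_24_17.vf (3 * j + 1) = 0 := vf_eq pin_24_17 j 1

theorem v_24_17_2 (j : ℕ) : pin_24_17.vf (3 * j + 2) = 0 := vf_eq pin_24_17 j 2

theorem no_24_17 (b B : Fin 5 → ℝ) (hb : SupportedOn b (fs pin_24_17.S))
    (hB : SupportedOn B (fs pin_24_17.T)) (u : ℕ → ℝ) :
    ¬ LimSol pin_24_17.kap pin_24_17.vf b B (fs pin_24_17.S) (fs pin_24_17.T) u := by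
  intro h
  rw [S_24_17] at *
  rw [T_24_17] at *
  rw [k_24_17] at *
  exact fam_24 hb hB (by decide) (by decide) (by decide) (by decide) (by decide)
    v_24_17_0 v_24_17_1 v_24_17_2 h

theorem cse_24_17 : BoundedOnly (fs pin_24_17.S) (fs pin_24_17.T) :=
  boundedOnly_of_pin pin_24_17_ok (no_24_17)

theorem bdd_24_17 : BoundedOnly (fs 24) (fs 17) :=
  cse_24_17

theorem S_24_18 : pin_24_18.S = 24 := rfl

theorem T_24_18 : pin_24_18.T = 18 := rfl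

theorem k_24_18 : pin_24_18.kap = 1 := rfl

theorem v_24_18_0 (j : ℕ) : pin_24_18.vf (3 * j) = 1 := vf_eq pin_24_18 j 0

theorem v_24_18_1 (j : ℕ) : pin_24_18.vf (3 * j + 1) = 0 := vf_eq pin_24_18 j 1

theorem v_24_18_2 (j : ℕ) : pin_24_18.vf (3 * j + 2) = 0 := vf_eq pin_24_18 j 2

theorem no_24_18 (hG : G3Stmt) (b B : Fin 5 → ℝ) (hb : SupportedOn b (fs pin_24_18.S))
    (hB : SupportedOn B (fs pin_24_18.T)) (u : ℕ → ℝ) :
    ¬ LimSol pin_24_18.kap pin_24_18.vf b B (fs pin_24_18.S) (fs pin_24_18.T) u := by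
  intro h
  rw [S_24_18] at *
  rw [T_24_18] at *
  rw [k_24_18] at *
  exact fam_G3 hG hb hB (by decide) (by decide) (by decide) (by decide) (by decide)
    v_24_18_0 v_24_18_1 v_24_18_2 h

theorem cse_24_18 (hG : G3Stmt) : BoundedOnly (fs pin_24_18.S) (fs pin_24_18.T) :=
  boundedOnly_of_pin pin_24_18_ok (no_24_18 hG)

theorem bdd_24_18 (hG : G3Stmt) : BoundedOnly (fs 24) (fs 18) :=
  cse_24_18 hG

theorem S_24_19 : pin_24_19.S = 24 := rfl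

theorem T_24_19 : pin_24_19.T = 19 := rfl

theorem k_24_19 : pin_24_19.kap = 1 := rfl

theorem v_24_19_0 (j : ℕ) : pin_24_19.vf (3 * j) = 1 := vf_eq pin_24_19 j 0

theorem v_24_19_1 (j : ℕ) : pin_24_19.vf (3 * j + 1) = 0 := vf_eq pin_24_19 j 1

theorem v_24_19_2 (j : ℕ) : pin_24_19.vf (3 * j + 2) = 0 := vf_eq pin_24_19 j 2

theorem no_24_19 (hG : G3Stmt) (b B : Fin 5 → ℝ) (hb : SupportedOn b (fs pin_24_19.S))
    (hB : SupportedOn B (fs pin_24_19.T)) (u : ℕ → ℝ) :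
    ¬ LimSol pin_24_19.kap pin_24_19.vf b B (fs pin_24_19.S) (fs pin_24_19.T) u := by
  intro h
  rw [S_24_19] at *
  rw [T_24_19] at *
  rw [k_24_19] at *
  exact fam_G3 hG hb hB (by decide) (by decide) (by decide) (by decide) (by decide)
    v_24_19_0 v_24_19_1 v_24_19_2 h

theorem cse_24_19 (hG : G3Stmt) : BoundedOnly (fs pin_24_19.S) (fs pin_24_19.T) :=
  boundedOnly_of_pin pin_24_19_ok (no_24_19 hG)

theorem bdd_24_19 (hG : G3Stmt) : BoundedOnly (fs 24) (fs 19) :=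
  cse_24_19 hG

theorem S_25_16 : pin_25_16.S = 25 := rfl

theorem T_25_16 : pin_25_16.T = 16 := rfl

theorem k_25_16 : pin_25_16.kap = 1 := rfl

theorem v_25_16_0 (j : ℕ) : pin_25_16.vf (3 * j) = 1 := vf_eq pin_25_16 j 0

theorem v_25_16_1 (j : ℕ) : pin_25_16.vf (3 * j + 1) = 0 := vf_eq pin_25_16 j 1

theorem v_25_16_2 (j : ℕ) : pin_25_16.vf (3 * j + 2) = 0 := vf_eq pin_25_16 j 2

theorem no_25_16 (b B : Fin 5 → ℝ) (hb : SupportedOn b (fs pin_25_16.S))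
    (hB : SupportedOn B (fs pin_25_16.T)) (u : ℕ → ℝ) :
    ¬ LimSol pin_25_16.kap pin_25_16.vf b B (fs pin_25_16.S) (fs pin_25_16.T) u := by
  intro h
  rw [S_25_16] at *
  rw [T_25_16] at *
  rw [k_25_16] at *
  exact fam_24 hb hB (by decide) (by decide) (by decide) (by decide) (by decide)
    v_25_16_0 v_25_16_1 v_25_16_2 h

theorem cse_25_16 : BoundedOnly (fs pin_25_16.S) (fs pin_25_16.T) :=
  boundedOnly_of_pin pin_25_16_ok (no_25_16)

theorem bdd_25_16 : BoundedOnly (fs 25) (fs 16) :=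
  cse_25_16

theorem S_25_17 : pin_25_17.S = 25 := rfl

theorem T_25_17 : pin_25_17.T = 17 := rfl

theorem k_25_17 : pin_25_17.kap = 1 := rfl

theorem v_25_17_0 (j : ℕ) : pin_25_17.vf (3 * j) = 1 := vf_eq pin_25_17 j 0

theorem v_25_17_1 (j : ℕ) : pin_25_17.vf (3 * j + 1) = 0 := vf_eq pin_25_17 j 1

theorem v_25_17_2 (j : ℕ) : pin_25_17.vf (3 * j + 2) = 0 := vf_eq pin_25_17 j 2

theorem no_25_17 (b B : Fin 5 → ℝ) (hb : SupportedOn b (fs pin_25_17.S))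
    (hB : SupportedOn B (fs pin_25_17.T)) (u : ℕ → ℝ) :
    ¬ LimSol pin_25_17.kap pin_25_17.vf b B (fs pin_25_17.S) (fs pin_25_17.T) u := by
  intro h
  rw [S_25_17] at *
  rw [T_25_17] at *
  rw [k_25_17] at *
  exact fam_24 hb hB (by decide) (by decide) (by decide) (by decide) (by decide)
    v_25_17_0 v_25_17_1 v_25_17_2 h

theorem cse_25_17 : BoundedOnly (fs pin_25_17.S) (fs pin_25_17.T) :=
  boundedOnly_of_pin pin_25_17_ok (no_25_17)

theorem bdd_25_17 : BoundedOnly (fs 25) (fs 17) :=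
  cse_25_17

theorem S_25_18 : pin_25_18.S = 25 := rfl

theorem T_25_18 : pin_25_18.T = 18 := rfl

theorem k_25_18 : pin_25_18.kap = 1 := rfl

theorem v_25_18_0 (j : ℕ) : pin_25_18.vf (3 * j) = 1 := vf_eq pin_25_18 j 0

theorem v_25_18_1 (j : ℕ) : pin_25_18.vf (3 * j + 1) = 0 := vf_eq pin_25_18 j 1

theorem v_25_18_2 (j : ℕ) : pin_25_18.vf (3 * j + 2) = 0 := vf_eq pin_25_18 j 2

theorem no_25_18 (hG : G3Stmt) (b B : Fin 5 → ℝ) (hb : SupportedOn b (fs pin_25_18.S))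
    (hB : SupportedOn B (fs pin_25_18.T)) (u : ℕ → ℝ) :
    ¬ LimSol pin_25_18.kap pin_25_18.vf b B (fs pin_25_18.S) (fs pin_25_18.T) u := by
  intro h
  rw [S_25_18] at *
  rw [T_25_18] at *
  rw [k_25_18] at *
  exact fam_G3 hG hb hB (by decide) (by decide) (by decide) (by decide) (by decide)
    v_25_18_0 v_25_18_1 v_25_18_2 h

theorem cse_25_18 (hG : G3Stmt) : BoundedOnly (fs pin_25_18.S) (fs pin_25_18.T) :=
  boundedOnly_of_pin pin_25_18_ok (no_25_18 hG)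

theorem bdd_25_18 (hG : G3Stmt) : BoundedOnly (fs 25) (fs 18) :=
  cse_25_18 hG

theorem S_25_19 : pin_25_19.S = 25 := rfl

theorem T_25_19 : pin_25_19.T = 19 := rfl

theorem k_25_19 : pin_25_19.kap = 1 := rfl

theorem v_25_19_0 (j : ℕ) : pin_25_19.vf (3 * j) = 1 := vf_eq pin_25_19 j 0

theorem v_25_19_1 (j : ℕ) : pin_25_19.vf (3 * j + 1) = 0 := vf_eq pin_25_19 j 1

theorem v_25_19_2 (j : ℕ) : pin_25_19.vf (3 * j + 2) = 0 := vf_eq pin_25_19 j 2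

theorem no_25_19 (hG : G3Stmt) (b B : Fin 5 → ℝ) (hb : SupportedOn b (fs pin_25_19.S))
    (hB : SupportedOn B (fs pin_25_19.T)) (u : ℕ → ℝ) :
    ¬ LimSol pin_25_19.kap pin_25_19.vf b B (fs pin_25_19.S) (fs pin_25_19.T) u := by
  intro h
  rw [S_25_19] at *
  rw [T_25_19] at *
  rw [k_25_19] at *
  exact fam_G3 hG hb hB (by decide) (by decide) (by decide) (by decide) (by decide)
    v_25_19_0 v_25_19_1 v_25_19_2 h

theorem cse_25_19 (hG : G3Stmt) : BoundedOnly (fs pin_25_19.S) (fs pin_25_19.T) :=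
  boundedOnly_of_pin pin_25_19_ok (no_25_19 hG)

theorem bdd_25_19 (hG : G3Stmt) : BoundedOnly (fs 25) (fs 19) :=
  cse_25_19 hG

theorem S_26_12 : pin_26_12.S = 26 := rfl

theorem T_26_12 : pin_26_12.T = 12 := rfl

theorem k_26_12 : pin_26_12.kap = 1 := rfl

theorem v_26_12_0 (j : ℕ) : pin_26_12.vf (5 * j) = 1 := vf_eq pin_26_12 j 0

theorem v_26_12_1 (j : ℕ) : pin_26_12.vf (5 * j + 1) = 1 := vf_eq pin_26_12 j 1

theorem v_26_12_2 (j : ℕ) : pin_26_12.vf (5 * j + 2) = 0 := vf_eq pin_26_12 j 2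

theorem v_26_12_3 (j : ℕ) : pin_26_12.vf (5 * j + 3) = 0 := vf_eq pin_26_12 j 3

theorem v_26_12_4 (j : ℕ) : pin_26_12.vf (5 * j + 4) = 0 := vf_eq pin_26_12 j 4

theorem no_26_12 (b B : Fin 5 → ℝ) (hb : SupportedOn b (fs pin_26_12.S))
    (hB : SupportedOn B (fs pin_26_12.T)) (u : ℕ → ℝ) :
    ¬ LimSol pin_26_12.kap pin_26_12.vf b B (fs pin_26_12.S) (fs pin_26_12.T) u := by
  intro h
  rw [S_26_12] at *
  rw [T_26_12] at *
  rw [k_26_12] at *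
  exact fam_F6 hb hB (by decide) (by decide) (by decide) (by decide) (by decide) (by decide)
    v_26_12_0 v_26_12_1 v_26_12_2 v_26_12_3 v_26_12_4 h

theorem cse_26_12 : BoundedOnly (fs pin_26_12.S) (fs pin_26_12.T) :=
  boundedOnly_of_pin pin_26_12_ok (no_26_12)

theorem bdd_26_12 : BoundedOnly (fs 26) (fs 12) :=
  cse_26_12

theorem S_26_13 : pin_26_13.S = 26 := rfl

theorem T_26_13 : pin_26_13.T = 13 := rfl

theorem k_26_13 : pin_26_13.kap = 1 := rfl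

theorem v_26_13_0 (j : ℕ) : pin_26_13.vf (5 * j) = 1 := vf_eq pin_26_13 j 0

theorem v_26_13_1 (j : ℕ) : pin_26_13.vf (5 * j + 1) = 1 := vf_eq pin_26_13 j 1

theorem v_26_13_2 (j : ℕ) : pin_26_13.vf (5 * j + 2) = 0 := vf_eq pin_26_13 j 2

theorem v_26_13_3 (j : ℕ) : pin_26_13.vf (5 * j + 3) = 0 := vf_eq pin_26_13 j 3

theorem v_26_13_4 (j : ℕ) : pin_26_13.vf (5 * j + 4) = 0 := vf_eq pin_26_13 j 4

theorem no_26_13 (b B : Fin 5 → ℝ) (hb : SupportedOn b (fs pin_26_13.S))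
    (hB : SupportedOn B (fs pin_26_13.T)) (u : ℕ → ℝ) :
    ¬ LimSol pin_26_13.kap pin_26_13.vf b B (fs pin_26_13.S) (fs pin_26_13.T) u := by
  intro h
  rw [S_26_13] at *
  rw [T_26_13] at *
  rw [k_26_13] at *
  exact fam_F6 hb hB (by decide) (by decide) (by decide) (by decide) (by decide) (by decide)
    v_26_13_0 v_26_13_1 v_26_13_2 v_26_13_3 v_26_13_4 h

theorem cse_26_13 : BoundedOnly (fs pin_26_13.S) (fs pin_26_13.T) :=
  boundedOnly_of_pin pin_26_13_ok (no_26_13)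

theorem bdd_26_13 : BoundedOnly (fs 26) (fs 13) :=
  cse_26_13

theorem S_26_16 : pin_26_16.S = 26 := rfl

theorem T_26_16 : pin_26_16.T = 16 := rfl

theorem k_26_16 : pin_26_16.kap = 1 := rfl

theorem v_26_16_0 (j : ℕ) : pin_26_16.vf (3 * j) = 1 := vf_eq pin_26_16 j 0

theorem v_26_16_1 (j : ℕ) : pin_26_16.vf (3 * j + 1) = 0 := vf_eq pin_26_16 j 1

theorem v_26_16_2 (j : ℕ) : pin_26_16.vf (3 * j + 2) = 0 := vf_eq pin_26_16 j 2

theorem no_26_16 (hG : G3Stmt) (b B : Fin 5 → ℝ) (hb : SupportedOn b (fs pin_26_16.S))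
    (hB : SupportedOn B (fs pin_26_16.T)) (u : ℕ → ℝ) :
    ¬ LimSol pin_26_16.kap pin_26_16.vf b B (fs pin_26_16.S) (fs pin_26_16.T) u := by
  intro h
  rw [S_26_16] at *
  rw [T_26_16] at *
  rw [k_26_16] at *
  exact fam_G3 hG hb hB (by decide) (by decide) (by decide) (by decide) (by decide)
    v_26_16_0 v_26_16_1 v_26_16_2 h

theorem cse_26_16 (hG : G3Stmt) : BoundedOnly (fs pin_26_16.S) (fs pin_26_16.T) :=
  boundedOnly_of_pin pin_26_16_ok (no_26_16 hG)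

theorem bdd_26_16 (hG : G3Stmt) : BoundedOnly (fs 26) (fs 16) :=
  cse_26_16 hG

theorem S_26_17 : pin_26_17.S = 26 := rfl

theorem T_26_17 : pin_26_17.T = 17 := rfl

theorem k_26_17 : pin_26_17.kap = 1 := rfl

theorem v_26_17_0 (j : ℕ) : pin_26_17.vf (3 * j) = 1 := vf_eq pin_26_17 j 0

theorem v_26_17_1 (j : ℕ) : pin_26_17.vf (3 * j + 1) = 0 := vf_eq pin_26_17 j 1

theorem v_26_17_2 (j : ℕ) : pin_26_17.vf (3 * j + 2) = 0 := vf_eq pin_26_17 j 2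

theorem no_26_17 (hG : G3Stmt) (b B : Fin 5 → ℝ) (hb : SupportedOn b (fs pin_26_17.S))
    (hB : SupportedOn B (fs pin_26_17.T)) (u : ℕ → ℝ) :
    ¬ LimSol pin_26_17.kap pin_26_17.vf b B (fs pin_26_17.S) (fs pin_26_17.T) u := by
  intro h
  rw [S_26_17] at *
  rw [T_26_17] at *
  rw [k_26_17] at *
  exact fam_G3 hG hb hB (by decide) (by decide) (by decide) (by decide) (by decide)
    v_26_17_0 v_26_17_1 v_26_17_2 h

theorem cse_26_17 (hG : G3Stmt) : BoundedOnly (fs pin_26_17.S) (fs pin_26_17.T) :=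
  boundedOnly_of_pin pin_26_17_ok (no_26_17 hG)

theorem bdd_26_17 (hG : G3Stmt) : BoundedOnly (fs 26) (fs 17) :=
  cse_26_17 hG

theorem S_26_18 : pin_26_18.S = 26 := rfl

theorem T_26_18 : pin_26_18.T = 18 := rfl

theorem k_26_18 : pin_26_18.kap = 1 := rfl

theorem v_26_18_0 (j : ℕ) : pin_26_18.vf (3 * j) = 1 := vf_eq pin_26_18 j 0

theorem v_26_18_1 (j : ℕ) : pin_26_18.vf (3 * j + 1) = 0 := vf_eq pin_26_18 j 1

theorem v_26_18_2 (j : ℕ) : pin_26_18.vf (3 * j + 2) = 0 := vf_eq pin_26_18 j 2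

theorem no_26_18 (hG : G3Stmt) (b B : Fin 5 → ℝ) (hb : SupportedOn b (fs pin_26_18.S))
    (hB : SupportedOn B (fs pin_26_18.T)) (u : ℕ → ℝ) :
    ¬ LimSol pin_26_18.kap pin_26_18.vf b B (fs pin_26_18.S) (fs pin_26_18.T) u := by
  intro h
  rw [S_26_18] at *
  rw [T_26_18] at *
  rw [k_26_18] at *
  exact fam_G3 hG hb hB (by decide) (by decide) (by decide) (by decide) (by decide)
    v_26_18_0 v_26_18_1 v_26_18_2 h

theorem cse_26_18 (hG : G3Stmt) : BoundedOnly (fs pin_26_18.S) (fs pin_26_18.T) :=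
  boundedOnly_of_pin pin_26_18_ok (no_26_18 hG)

theorem bdd_26_18 (hG : G3Stmt) : BoundedOnly (fs 26) (fs 18) :=
  cse_26_18 hG

theorem S_26_19 : pin_26_19.S = 26 := rfl

theorem T_26_19 : pin_26_19.T = 19 := rfl

theorem k_26_19 : pin_26_19.kap = 1 := rfl

theorem v_26_19_0 (j : ℕ) : pin_26_19.vf (3 * j) = 1 := vf_eq pin_26_19 j 0

theorem v_26_19_1 (j : ℕ) : pin_26_19.vf (3 * j + 1) = 0 := vf_eq pin_26_19 j 1

theorem v_26_19_2 (j : ℕ) : pin_26_19.vf (3 * j + 2) = 0 := vf_eq pin_26_19 j 2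

theorem no_26_19 (hG : G3Stmt) (b B : Fin 5 → ℝ) (hb : SupportedOn b (fs pin_26_19.S))
    (hB : SupportedOn B (fs pin_26_19.T)) (u : ℕ → ℝ) :
    ¬ LimSol pin_26_19.kap pin_26_19.vf b B (fs pin_26_19.S) (fs pin_26_19.T) u := by
  intro h
  rw [S_26_19] at *
  rw [T_26_19] at *
  rw [k_26_19] at *
  exact fam_G3 hG hb hB (by decide) (by decide) (by decide) (by decide) (by decide)
    v_26_19_0 v_26_19_1 v_26_19_2 h

theorem cse_26_19 (hG : G3Stmt) : BoundedOnly (fs pin_26_19.S) (fs pin_26_19.T) :=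
  boundedOnly_of_pin pin_26_19_ok (no_26_19 hG)

theorem bdd_26_19 (hG : G3Stmt) : BoundedOnly (fs 26) (fs 19) :=
  cse_26_19 hG

theorem S_27_12 : pin_27_12.S = 27 := rfl

theorem T_27_12 : pin_27_12.T = 12 := rfl

theorem k_27_12 : pin_27_12.kap = 1 := rfl

theorem v_27_12_0 (j : ℕ) : pin_27_12.vf (5 * j) = 1 := vf_eq pin_27_12 j 0

theorem v_27_12_1 (j : ℕ) : pin_27_12.vf (5 * j + 1) = 1 := vf_eq pin_27_12 j 1

theorem v_27_12_2 (j : ℕ) : pin_27_12.vf (5 * j + 2) = 0 := vf_eq pin_27_12 j 2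

theorem v_27_12_3 (j : ℕ) : pin_27_12.vf (5 * j + 3) = 0 := vf_eq pin_27_12 j 3

theorem v_27_12_4 (j : ℕ) : pin_27_12.vf (5 * j + 4) = 0 := vf_eq pin_27_12 j 4

theorem no_27_12 (b B : Fin 5 → ℝ) (hb : SupportedOn b (fs pin_27_12.S))
    (hB : SupportedOn B (fs pin_27_12.T)) (u : ℕ → ℝ) :
    ¬ LimSol pin_27_12.kap pin_27_12.vf b B (fs pin_27_12.S) (fs pin_27_12.T) u := by
  intro h
  rw [S_27_12] at *
  rw [T_27_12] at *
  rw [k_27_12] at *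
  exact fam_F6 hb hB (by decide) (by decide) (by decide) (by decide) (by decide) (by decide)
    v_27_12_0 v_27_12_1 v_27_12_2 v_27_12_3 v_27_12_4 h

theorem cse_27_12 : BoundedOnly (fs pin_27_12.S) (fs pin_27_12.T) :=
  boundedOnly_of_pin pin_27_12_ok (no_27_12)

theorem bdd_27_12 : BoundedOnly (fs 27) (fs 12) :=
  cse_27_12

theorem S_27_13 : pin_27_13.S = 27 := rfl

theorem T_27_13 : pin_27_13.T = 13 := rfl

theorem k_27_13 : pin_27_13.kap = 1 := rfl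

theorem v_27_13_0 (j : ℕ) : pin_27_13.vf (5 * j) = 1 := vf_eq pin_27_13 j 0

theorem v_27_13_1 (j : ℕ) : pin_27_13.vf (5 * j + 1) = 1 := vf_eq pin_27_13 j 1

theorem v_27_13_2 (j : ℕ) : pin_27_13.vf (5 * j + 2) = 0 := vf_eq pin_27_13 j 2

theorem v_27_13_3 (j : ℕ) : pin_27_13.vf (5 * j + 3) = 0 := vf_eq pin_27_13 j 3

theorem v_27_13_4 (j : ℕ) : pin_27_13.vf (5 * j + 4) = 0 := vf_eq pin_27_13 j 4

theorem no_27_13 (b B : Fin 5 → ℝ) (hb : SupportedOn b (fs pin_27_13.S))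
    (hB : SupportedOn B (fs pin_27_13.T)) (u : ℕ → ℝ) :
    ¬ LimSol pin_27_13.kap pin_27_13.vf b B (fs pin_27_13.S) (fs pin_27_13.T) u := by
  intro h
  rw [S_27_13] at *
  rw [T_27_13] at *
  rw [k_27_13] at *
  exact fam_F6 hb hB (by decide) (by decide) (by decide) (by decide) (by decide) (by decide)
    v_27_13_0 v_27_13_1 v_27_13_2 v_27_13_3 v_27_13_4 h

theorem cse_27_13 : BoundedOnly (fs pin_27_13.S) (fs pin_27_13.T) :=
  boundedOnly_of_pin pin_27_13_ok (no_27_13)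

theorem bdd_27_13 : BoundedOnly (fs 27) (fs 13) :=
  cse_27_13

theorem S_27_16 : pin_27_16.S = 27 := rfl

theorem T_27_16 : pin_27_16.T = 16 := rfl

theorem k_27_16 : pin_27_16.kap = 1 := rfl

theorem v_27_16_0 (j : ℕ) : pin_27_16.vf (3 * j) = 1 := vf_eq pin_27_16 j 0

theorem v_27_16_1 (j : ℕ) : pin_27_16.vf (3 * j + 1) = 0 := vf_eq pin_27_16 j 1

theorem v_27_16_2 (j : ℕ) : pin_27_16.vf (3 * j + 2) = 0 := vf_eq pin_27_16 j 2

theorem no_27_16 (hG : G3Stmt) (b B : Fin 5 → ℝ) (hb : SupportedOn b (fs pin_27_16.S))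
    (hB : SupportedOn B (fs pin_27_16.T)) (u : ℕ → ℝ) :
    ¬ LimSol pin_27_16.kap pin_27_16.vf b B (fs pin_27_16.S) (fs pin_27_16.T) u := by
  intro h
  rw [S_27_16] at *
  rw [T_27_16] at *
  rw [k_27_16] at *
  exact fam_G3 hG hb hB (by decide) (by decide) (by decide) (by decide) (by decide)
    v_27_16_0 v_27_16_1 v_27_16_2 h

theorem cse_27_16 (hG : G3Stmt) : BoundedOnly (fs pin_27_16.S) (fs pin_27_16.T) :=
  boundedOnly_of_pin pin_27_16_ok (no_27_16 hG)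

theorem bdd_27_16 (hG : G3Stmt) : BoundedOnly (fs 27) (fs 16) :=
  cse_27_16 hG

theorem S_27_17 : pin_27_17.S = 27 := rfl

theorem T_27_17 : pin_27_17.T = 17 := rfl

theorem k_27_17 : pin_27_17.kap = 1 := rfl

theorem v_27_17_0 (j : ℕ) : pin_27_17.vf (3 * j) = 1 := vf_eq pin_27_17 j 0

theorem v_27_17_1 (j : ℕ) : pin_27_17.vf (3 * j + 1) = 0 := vf_eq pin_27_17 j 1

theorem v_27_17_2 (j : ℕ) : pin_27_17.vf (3 * j + 2) = 0 := vf_eq pin_27_17 j 2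

theorem no_27_17 (hG : G3Stmt) (b B : Fin 5 → ℝ) (hb : SupportedOn b (fs pin_27_17.S))
    (hB : SupportedOn B (fs pin_27_17.T)) (u : ℕ → ℝ) :
    ¬ LimSol pin_27_17.kap pin_27_17.vf b B (fs pin_27_17.S) (fs pin_27_17.T) u := by
  intro h
  rw [S_27_17] at *
  rw [T_27_17] at *
  rw [k_27_17] at *
  exact fam_G3 hG hb hB (by decide) (by decide) (by decide) (by decide) (by decide)
    v_27_17_0 v_27_17_1 v_27_17_2 h

theorem cse_27_17 (hG : G3Stmt) : BoundedOnly (fs pin_27_17.S) (fs pin_27_17.T) :=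
  boundedOnly_of_pin pin_27_17_ok (no_27_17 hG)

theorem bdd_27_17 (hG : G3Stmt) : BoundedOnly (fs 27) (fs 17) :=
  cse_27_17 hG

theorem S_27_18 : pin_27_18.S = 27 := rfl

theorem T_27_18 : pin_27_18.T = 18 := rfl

theorem k_27_18 : pin_27_18.kap = 1 := rfl

theorem v_27_18_0 (j : ℕ) : pin_27_18.vf (3 * j) = 1 := vf_eq pin_27_18 j 0

theorem v_27_18_1 (j : ℕ) : pin_27_18.vf (3 * j + 1) = 0 := vf_eq pin_27_18 j 1

theorem v_27_18_2 (j : ℕ) : pin_27_18.vf (3 * j + 2) = 0 := vf_eq pin_27_18 j 2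

theorem no_27_18 (hG : G3Stmt) (b B : Fin 5 → ℝ) (hb : SupportedOn b (fs pin_27_18.S))
    (hB : SupportedOn B (fs pin_27_18.T)) (u : ℕ → ℝ) :
    ¬ LimSol pin_27_18.kap pin_27_18.vf b B (fs pin_27_18.S) (fs pin_27_18.T) u := by
  intro h
  rw [S_27_18] at *
  rw [T_27_18] at *
  rw [k_27_18] at *
  exact fam_G3 hG hb hB (by decide) (by decide) (by decide) (by decide) (by decide)
    v_27_18_0 v_27_18_1 v_27_18_2 h

theorem cse_27_18 (hG : G3Stmt) : BoundedOnly (fs pin_27_18.S) (fs pin_27_18.T) :=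
  boundedOnly_of_pin pin_27_18_ok (no_27_18 hG)

theorem bdd_27_18 (hG : G3Stmt) : BoundedOnly (fs 27) (fs 18) :=
  cse_27_18 hG

theorem S_27_19 : pin_27_19.S = 27 := rfl

theorem T_27_19 : pin_27_19.T = 19 := rfl

theorem k_27_19 : pin_27_19.kap = 1 := rfl

theorem v_27_19_0 (j : ℕ) : pin_27_19.vf (3 * j) = 1 := vf_eq pin_27_19 j 0

theorem v_27_19_1 (j : ℕ) : pin_27_19.vf (3 * j + 1) = 0 := vf_eq pin_27_19 j 1

theorem v_27_19_2 (j : ℕ) : pin_27_19.vf (3 * j + 2) = 0 := vf_eq pin_27_19 j 2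

theorem no_27_19 (hG : G3Stmt) (b B : Fin 5 → ℝ) (hb : SupportedOn b (fs pin_27_19.S))
    (hB : SupportedOn B (fs pin_27_19.T)) (u : ℕ → ℝ) :
    ¬ LimSol pin_27_19.kap pin_27_19.vf b B (fs pin_27_19.S) (fs pin_27_19.T) u := by
  intro h
  rw [S_27_19] at *
  rw [T_27_19] at *
  rw [k_27_19] at *
  exact fam_G3 hG hb hB (by decide) (by decide) (by decide) (by decide) (by decide)
    v_27_19_0 v_27_19_1 v_27_19_2 h

theorem cse_27_19 (hG : G3Stmt) : BoundedOnly (fs pin_27_19.S) (fs pin_27_19.T) :=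
  boundedOnly_of_pin pin_27_19_ok (no_27_19 hG)

theorem bdd_27_19 (hG : G3Stmt) : BoundedOnly (fs 27) (fs 19) :=
  cse_27_19 hG

theorem S_28_19 : pin_28_19.S = 28 := rfl

theorem T_28_19 : pin_28_19.T = 19 := rfl

theorem k_28_19 : pin_28_19.kap = 1 := rfl

theorem v_28_19_0 (j : ℕ) : pin_28_19.vf (5 * j) = 1 := vf_eq pin_28_19 j 0

theorem v_28_19_1 (j : ℕ) : pin_28_19.vf (5 * j + 1) = 0 := vf_eq pin_28_19 j 1

theorem v_28_19_2 (j : ℕ) : pin_28_19.vf (5 * j + 2) = 1 := vf_eq pin_28_19 j 2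

theorem v_28_19_3 (j : ℕ) : pin_28_19.vf (5 * j + 3) = 0 := vf_eq pin_28_19 j 3

theorem v_28_19_4 (j : ℕ) : pin_28_19.vf (5 * j + 4) = 0 := vf_eq pin_28_19 j 4

theorem no_28_19 (b B : Fin 5 → ℝ) (hb : SupportedOn b (fs pin_28_19.S))
    (hB : SupportedOn B (fs pin_28_19.T)) (u : ℕ → ℝ) :
    ¬ LimSol pin_28_19.kap pin_28_19.vf b B (fs pin_28_19.S) (fs pin_28_19.T) u := by
  intro h
  rw [S_28_19] at *
  rw [T_28_19] at *
  rw [k_28_19] at *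
  exact fam_F7 hb hB (by decide) (by decide) (by decide) (by decide) (by decide) (by decide)
    v_28_19_0 v_28_19_1 v_28_19_2 v_28_19_3 v_28_19_4 h

theorem cse_28_19 : BoundedOnly (fs pin_28_19.S) (fs pin_28_19.T) :=
  boundedOnly_of_pin pin_28_19_ok (no_28_19)

theorem bdd_28_19 : BoundedOnly (fs 28) (fs 19) :=
  cse_28_19

theorem S_29_18 : pin_29_18.S = 29 := rfl

theorem T_29_18 : pin_29_18.T = 18 := rfl

theorem k_29_18 : pin_29_18.kap = 1 := rfl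

theorem v_29_18_0 (j : ℕ) : pin_29_18.vf (5 * j) = 1 := vf_eq pin_29_18 j 0

theorem v_29_18_1 (j : ℕ) : pin_29_18.vf (5 * j + 1) = 0 := vf_eq pin_29_18 j 1

theorem v_29_18_2 (j : ℕ) : pin_29_18.vf (5 * j + 2) = 1 := vf_eq pin_29_18 j 2

theorem v_29_18_3 (j : ℕ) : pin_29_18.vf (5 * j + 3) = 0 := vf_eq pin_29_18 j 3

theorem v_29_18_4 (j : ℕ) : pin_29_18.vf (5 * j + 4) = 0 := vf_eq pin_29_18 j 4

theorem no_29_18 (b B : Fin 5 → ℝ) (hb : SupportedOn b (fs pin_29_18.S))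
    (hB : SupportedOn B (fs pin_29_18.T)) (u : ℕ → ℝ) :
    ¬ LimSol pin_29_18.kap pin_29_18.vf b B (fs pin_29_18.S) (fs pin_29_18.T) u := by
  intro h
  rw [S_29_18] at *
  rw [T_29_18] at *
  rw [k_29_18] at *
  exact fam_F7 hb hB (by decide) (by decide) (by decide) (by decide) (by decide) (by decide)
    v_29_18_0 v_29_18_1 v_29_18_2 v_29_18_3 v_29_18_4 h

theorem cse_29_18 : BoundedOnly (fs pin_29_18.S) (fs pin_29_18.T) :=
  boundedOnly_of_pin pin_29_18_ok (no_29_18)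

theorem bdd_29_18 : BoundedOnly (fs 29) (fs 18) :=
  cse_29_18

theorem S_29_19 : pin_29_19.S = 29 := rfl

theorem T_29_19 : pin_29_19.T = 19 := rfl

theorem k_29_19 : pin_29_19.kap = 1 := rfl

theorem v_29_19_0 (j : ℕ) : pin_29_19.vf (5 * j) = 1 := vf_eq pin_29_19 j 0

theorem v_29_19_1 (j : ℕ) : pin_29_19.vf (5 * j + 1) = 0 := vf_eq pin_29_19 j 1

theorem v_29_19_2 (j : ℕ) : pin_29_19.vf (5 * j + 2) = 1 := vf_eq pin_29_19 j 2

theorem v_29_19_3 (j : ℕ) : pin_29_19.vf (5 * j + 3) = 0 := vf_eq pin_29_19 j 3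

theorem v_29_19_4 (j : ℕ) : pin_29_19.vf (5 * j + 4) = 0 := vf_eq pin_29_19 j 4

theorem no_29_19 (b B : Fin 5 → ℝ) (hb : SupportedOn b (fs pin_29_19.S))
    (hB : SupportedOn B (fs pin_29_19.T)) (u : ℕ → ℝ) :
    ¬ LimSol pin_29_19.kap pin_29_19.vf b B (fs pin_29_19.S) (fs pin_29_19.T) u := by
  intro h
  rw [S_29_19] at *
  rw [T_29_19] at *
  rw [k_29_19] at *
  exact fam_F7 hb hB (by decide) (by decide) (by decide) (by decide) (by decide) (by decide)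
    v_29_19_0 v_29_19_1 v_29_19_2 v_29_19_3 v_29_19_4 h

theorem cse_29_19 : BoundedOnly (fs pin_29_19.S) (fs pin_29_19.T) :=
  boundedOnly_of_pin pin_29_19_ok (no_29_19)

theorem bdd_29_19 : BoundedOnly (fs 29) (fs 19) :=
  cse_29_19

theorem S_30_12 : pin_30_12.S = 30 := rfl

theorem T_30_12 : pin_30_12.T = 12 := rfl

theorem k_30_12 : pin_30_12.kap = 1 := rfl

theorem v_30_12_0 (j : ℕ) : pin_30_12.vf (5 * j) = 1 := vf_eq pin_30_12 j 0

theorem v_30_12_1 (j : ℕ) : pin_30_12.vf (5 * j + 1) = 1 := vf_eq pin_30_12 j 1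

theorem v_30_12_2 (j : ℕ) : pin_30_12.vf (5 * j + 2) = 0 := vf_eq pin_30_12 j 2

theorem v_30_12_3 (j : ℕ) : pin_30_12.vf (5 * j + 3) = 0 := vf_eq pin_30_12 j 3

theorem v_30_12_4 (j : ℕ) : pin_30_12.vf (5 * j + 4) = 0 := vf_eq pin_30_12 j 4

theorem no_30_12 (b B : Fin 5 → ℝ) (hb : SupportedOn b (fs pin_30_12.S))
    (hB : SupportedOn B (fs pin_30_12.T)) (u : ℕ → ℝ) :
    ¬ LimSol pin_30_12.kap pin_30_12.vf b B (fs pin_30_12.S) (fs pin_30_12.T) u := by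
  intro h
  rw [S_30_12] at *
  rw [T_30_12] at *
  rw [k_30_12] at *
  exact fam_F6 hb hB (by decide) (by decide) (by decide) (by decide) (by decide) (by decide)
    v_30_12_0 v_30_12_1 v_30_12_2 v_30_12_3 v_30_12_4 h

theorem cse_30_12 : BoundedOnly (fs pin_30_12.S) (fs pin_30_12.T) :=
  boundedOnly_of_pin pin_30_12_ok (no_30_12)

theorem bdd_30_12 : BoundedOnly (fs 30) (fs 12) :=
  cse_30_12

theorem S_30_13 : pin_30_13.S = 30 := rfl

theorem T_30_13 : pin_30_13.T = 13 := rfl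

theorem k_30_13 : pin_30_13.kap = 1 := rfl

theorem v_30_13_0 (j : ℕ) : pin_30_13.vf (5 * j) = 1 := vf_eq pin_30_13 j 0

theorem v_30_13_1 (j : ℕ) : pin_30_13.vf (5 * j + 1) = 1 := vf_eq pin_30_13 j 1

theorem v_30_13_2 (j : ℕ) : pin_30_13.vf (5 * j + 2) = 0 := vf_eq pin_30_13 j 2

theorem v_30_13_3 (j : ℕ) : pin_30_13.vf (5 * j + 3) = 0 := vf_eq pin_30_13 j 3

theorem v_30_13_4 (j : ℕ) : pin_30_13.vf (5 * j + 4) = 0 := vf_eq pin_30_13 j 4

theorem no_30_13 (b B : Fin 5 → ℝ) (hb : SupportedOn b (fs pin_30_13.S))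
    (hB : SupportedOn B (fs pin_30_13.T)) (u : ℕ → ℝ) :
    ¬ LimSol pin_30_13.kap pin_30_13.vf b B (fs pin_30_13.S) (fs pin_30_13.T) u := by
  intro h
  rw [S_30_13] at *
  rw [T_30_13] at *
  rw [k_30_13] at *
  exact fam_F6 hb hB (by decide) (by decide) (by decide) (by decide) (by decide) (by decide)
    v_30_13_0 v_30_13_1 v_30_13_2 v_30_13_3 v_30_13_4 h

theorem cse_30_13 : BoundedOnly (fs pin_30_13.S) (fs pin_30_13.T) :=
  boundedOnly_of_pin pin_30_13_ok (no_30_13)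

theorem bdd_30_13 : BoundedOnly (fs 30) (fs 13) :=
  cse_30_13

theorem S_30_18 : pin_30_18.S = 30 := rfl

theorem T_30_18 : pin_30_18.T = 18 := rfl

theorem k_30_18 : pin_30_18.kap = 1 := rfl

theorem v_30_18_0 (j : ℕ) : pin_30_18.vf (5 * j) = 1 := vf_eq pin_30_18 j 0

theorem v_30_18_1 (j : ℕ) : pin_30_18.vf (5 * j + 1) = 0 := vf_eq pin_30_18 j 1

theorem v_30_18_2 (j : ℕ) : pin_30_18.vf (5 * j + 2) = 1 := vf_eq pin_30_18 j 2

theorem v_30_18_3 (j : ℕ) : pin_30_18.vf (5 * j + 3) = 0 := vf_eq pin_30_18 j 3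

theorem v_30_18_4 (j : ℕ) : pin_30_18.vf (5 * j + 4) = 0 := vf_eq pin_30_18 j 4

theorem no_30_18 (b B : Fin 5 → ℝ) (hb : SupportedOn b (fs pin_30_18.S))
    (hB : SupportedOn B (fs pin_30_18.T)) (u : ℕ → ℝ) :
    ¬ LimSol pin_30_18.kap pin_30_18.vf b B (fs pin_30_18.S) (fs pin_30_18.T) u := by
  intro h
  rw [S_30_18] at *
  rw [T_30_18] at *
  rw [k_30_18] at *
  exact fam_F7 hb hB (by decide) (by decide) (by decide) (by decide) (by decide) (by decide)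
    v_30_18_0 v_30_18_1 v_30_18_2 v_30_18_3 v_30_18_4 h

theorem cse_30_18 : BoundedOnly (fs pin_30_18.S) (fs pin_30_18.T) :=
  boundedOnly_of_pin pin_30_18_ok (no_30_18)

theorem bdd_30_18 : BoundedOnly (fs 30) (fs 18) :=
  cse_30_18

theorem S_30_19 : pin_30_19.S = 30 := rfl

theorem T_30_19 : pin_30_19.T = 19 := rfl

theorem k_30_19 : pin_30_19.kap = 1 := rfl

theorem v_30_19_0 (j : ℕ) : pin_30_19.vf (5 * j) = 1 := vf_eq pin_30_19 j 0

theorem v_30_19_1 (j : ℕ) : pin_30_19.vf (5 * j + 1) = 0 := vf_eq pin_30_19 j 1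

theorem v_30_19_2 (j : ℕ) : pin_30_19.vf (5 * j + 2) = 1 := vf_eq pin_30_19 j 2

theorem v_30_19_3 (j : ℕ) : pin_30_19.vf (5 * j + 3) = 0 := vf_eq pin_30_19 j 3

theorem v_30_19_4 (j : ℕ) : pin_30_19.vf (5 * j + 4) = 0 := vf_eq pin_30_19 j 4

theorem no_30_19 (b B : Fin 5 → ℝ) (hb : SupportedOn b (fs pin_30_19.S))
    (hB : SupportedOn B (fs pin_30_19.T)) (u : ℕ → ℝ) :
    ¬ LimSol pin_30_19.kap pin_30_19.vf b B (fs pin_30_19.S) (fs pin_30_19.T) u := by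
  intro h
  rw [S_30_19] at *
  rw [T_30_19] at *
  rw [k_30_19] at *
  exact fam_F7 hb hB (by decide) (by decide) (by decide) (by decide) (by decide) (by decide)
    v_30_19_0 v_30_19_1 v_30_19_2 v_30_19_3 v_30_19_4 h

theorem cse_30_19 : BoundedOnly (fs pin_30_19.S) (fs pin_30_19.T) :=
  boundedOnly_of_pin pin_30_19_ok (no_30_19)

theorem bdd_30_19 : BoundedOnly (fs 30) (fs 19) :=
  cse_30_19

theorem S_31_12 : pin_31_12.S = 31 := rfl

theorem T_31_12 : pin_31_12.T = 12 := rfl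

theorem k_31_12 : pin_31_12.kap = 1 := rfl

theorem v_31_12_0 (j : ℕ) : pin_31_12.vf (5 * j) = 1 := vf_eq pin_31_12 j 0

theorem v_31_12_1 (j : ℕ) : pin_31_12.vf (5 * j + 1) = 1 := vf_eq pin_31_12 j 1

theorem v_31_12_2 (j : ℕ) : pin_31_12.vf (5 * j + 2) = 0 := vf_eq pin_31_12 j 2

theorem v_31_12_3 (j : ℕ) : pin_31_12.vf (5 * j + 3) = 0 := vf_eq pin_31_12 j 3

theorem v_31_12_4 (j : ℕ) : pin_31_12.vf (5 * j + 4) = 0 := vf_eq pin_31_12 j 4

theorem no_31_12 (b B : Fin 5 → ℝ) (hb : SupportedOn b (fs pin_31_12.S))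
    (hB : SupportedOn B (fs pin_31_12.T)) (u : ℕ → ℝ) :
    ¬ LimSol pin_31_12.kap pin_31_12.vf b B (fs pin_31_12.S) (fs pin_31_12.T) u := by
  intro h
  rw [S_31_12] at *
  rw [T_31_12] at *
  rw [k_31_12] at *
  exact fam_F6 hb hB (by decide) (by decide) (by decide) (by decide) (by decide) (by decide)
    v_31_12_0 v_31_12_1 v_31_12_2 v_31_12_3 v_31_12_4 h

theorem cse_31_12 : BoundedOnly (fs pin_31_12.S) (fs pin_31_12.T) :=
  boundedOnly_of_pin pin_31_12_ok (no_31_12)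

theorem bdd_31_12 : BoundedOnly (fs 31) (fs 12) :=
  cse_31_12

theorem S_31_13 : pin_31_13.S = 31 := rfl

theorem T_31_13 : pin_31_13.T = 13 := rfl

theorem k_31_13 : pin_31_13.kap = 1 := rfl

theorem v_31_13_0 (j : ℕ) : pin_31_13.vf (5 * j) = 1 := vf_eq pin_31_13 j 0

theorem v_31_13_1 (j : ℕ) : pin_31_13.vf (5 * j + 1) = 1 := vf_eq pin_31_13 j 1

theorem v_31_13_2 (j : ℕ) : pin_31_13.vf (5 * j + 2) = 0 := vf_eq pin_31_13 j 2

theorem v_31_13_3 (j : ℕ) : pin_31_13.vf (5 * j + 3) = 0 := vf_eq pin_31_13 j 3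

theorem v_31_13_4 (j : ℕ) : pin_31_13.vf (5 * j + 4) = 0 := vf_eq pin_31_13 j 4

theorem no_31_13 (b B : Fin 5 → ℝ) (hb : SupportedOn b (fs pin_31_13.S))
    (hB : SupportedOn B (fs pin_31_13.T)) (u : ℕ → ℝ) :
    ¬ LimSol pin_31_13.kap pin_31_13.vf b B (fs pin_31_13.S) (fs pin_31_13.T) u := by
  intro h
  rw [S_31_13] at *
  rw [T_31_13] at *
  rw [k_31_13] at *
  exact fam_F6 hb hB (by decide) (by decide) (by decide) (by decide) (by decide) (by decide)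
    v_31_13_0 v_31_13_1 v_31_13_2 v_31_13_3 v_31_13_4 h

theorem cse_31_13 : BoundedOnly (fs pin_31_13.S) (fs pin_31_13.T) :=
  boundedOnly_of_pin pin_31_13_ok (no_31_13)

theorem bdd_31_13 : BoundedOnly (fs 31) (fs 13) :=
  cse_31_13

theorem S_31_18 : pin_31_18.S = 31 := rfl

theorem T_31_18 : pin_31_18.T = 18 := rfl

theorem k_31_18 : pin_31_18.kap = 1 := rfl

theorem v_31_18_0 (j : ℕ) : pin_31_18.vf (5 * j) = 1 := vf_eq pin_31_18 j 0

theorem v_31_18_1 (j : ℕ) : pin_31_18.vf (5 * j + 1) = 0 := vf_eq pin_31_18 j 1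

theorem v_31_18_2 (j : ℕ) : pin_31_18.vf (5 * j + 2) = 1 := vf_eq pin_31_18 j 2

theorem v_31_18_3 (j : ℕ) : pin_31_18.vf (5 * j + 3) = 0 := vf_eq pin_31_18 j 3

theorem v_31_18_4 (j : ℕ) : pin_31_18.vf (5 * j + 4) = 0 := vf_eq pin_31_18 j 4

theorem no_31_18 (b B : Fin 5 → ℝ) (hb : SupportedOn b (fs pin_31_18.S))
    (hB : SupportedOn B (fs pin_31_18.T)) (u : ℕ → ℝ) :
    ¬ LimSol pin_31_18.kap pin_31_18.vf b B (fs pin_31_18.S) (fs pin_31_18.T) u := by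
  intro h
  rw [S_31_18] at *
  rw [T_31_18] at *
  rw [k_31_18] at *
  exact fam_F7 hb hB (by decide) (by decide) (by decide) (by decide) (by decide) (by decide)
    v_31_18_0 v_31_18_1 v_31_18_2 v_31_18_3 v_31_18_4 h

theorem cse_31_18 : BoundedOnly (fs pin_31_18.S) (fs pin_31_18.T) :=
  boundedOnly_of_pin pin_31_18_ok (no_31_18)

theorem bdd_31_18 : BoundedOnly (fs 31) (fs 18) :=
  cse_31_18

theorem S_31_19 : pin_31_19.S = 31 := rfl

theorem T_31_19 : pin_31_19.T = 19 := rfl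

theorem k_31_19 : pin_31_19.kap = 1 := rfl

theorem v_31_19_0 (j : ℕ) : pin_31_19.vf (5 * j) = 1 := vf_eq pin_31_19 j 0

theorem v_31_19_1 (j : ℕ) : pin_31_19.vf (5 * j + 1) = 0 := vf_eq pin_31_19 j 1

theorem v_31_19_2 (j : ℕ) : pin_31_19.vf (5 * j + 2) = 1 := vf_eq pin_31_19 j 2

theorem v_31_19_3 (j : ℕ) : pin_31_19.vf (5 * j + 3) = 0 := vf_eq pin_31_19 j 3

theorem v_31_19_4 (j : ℕ) : pin_31_19.vf (5 * j + 4) = 0 := vf_eq pin_31_19 j 4

theorem no_31_19 (b B : Fin 5 → ℝ) (hb : SupportedOn b (fs pin_31_19.S))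
    (hB : SupportedOn B (fs pin_31_19.T)) (u : ℕ → ℝ) :
    ¬ LimSol pin_31_19.kap pin_31_19.vf b B (fs pin_31_19.S) (fs pin_31_19.T) u := by
  intro h
  rw [S_31_19] at *
  rw [T_31_19] at *
  rw [k_31_19] at *
  exact fam_F7 hb hB (by decide) (by decide) (by decide) (by decide) (by decide) (by decide)
    v_31_19_0 v_31_19_1 v_31_19_2 v_31_19_3 v_31_19_4 h

theorem cse_31_19 : BoundedOnly (fs pin_31_19.S) (fs pin_31_19.T) :=
  boundedOnly_of_pin pin_31_19_ok (no_31_19)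

theorem bdd_31_19 : BoundedOnly (fs 31) (fs 19) :=
  cse_31_19

end Pool.Agent.RatRec
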