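import Pool.Agent.Lib_helper61.Rat.Check

/-!
The logarithms of a positive solution form a window; boundedness from a certificate.
-/

set_option autoImplicit false

namespace Pool.Agent.RatRec

/-- The arguments of the recurrence. -/
def arg (x : ℕ → ℝ) (n : ℕ) : Fin 5 → ℝ := ![1, x (n + 3), x (n + 2), x (n + 1), x n]

theorem lin_eq_sum (c : Fin 5 → ℝ) (x : ℕ → ℝ) (n : ℕ) :
    lin c x n = ∑ k, c k * arg x n k := by
  simp [Fin.sum_univ_succ, lin, arg]
  ring

theorem arg_pos {x : ℕ → ℝ} (hx : ∀ n, 0 < x n) (n : ℕ) (k : Fin 5) : 0 < arg x n k := by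
  fin_cases k <;> simp [arg, hx]

/-- The constant of the window. -/
noncomputable def wc (b B : Fin 5 → ℝ) : ℝ :=
  |Real.log (∑ k, b k)| + |Real.log (∑ k, B k)| + ∑ k, |Real.log (b k)| + ∑ k, |Real.log (B k)|

theorem wc_nonneg (b B : Fin 5 → ℝ) : 0 ≤ wc b B := by
  unfold wc
  positivity

/-- The mask as a list of indices. -/
def bits (m : ℕ) : List ℕ := (List.range 5).filter (fun i => m.testBit i)

/-- The mask as a set of indices. -/
def fs (m : ℕ) : Finset (Fin 5) := Finset.univ.filter (fun i => m.testBit i = true)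

theorem mem_bits {m k : ℕ} (h : k ∈ bits m) : ∃ i : Fin 5, (i : ℕ) = k ∧ i ∈ fs m := by
  simp only [bits, List.mem_filter, List.mem_range] at h
  exact ⟨⟨k, h.1⟩, rfl, by simp [fs, h.2]⟩

theorem mem_fs {m : ℕ} {i : Fin 5} (h : i ∈ fs m) : (i : ℕ) ∈ bits m := by
  simp only [fs, Finset.mem_filter, Finset.mem_univ, true_and] at h
  simp [bits, h]

/-- Logarithms seen backwards from `N`. -/
noncomputable def back (x : ℕ → ℝ) (N t : ℕ) : ℝ := Real.log (x (N - t))

theorem zv_back {x : ℕ → ℝ} {N d : ℕ} (hd : d + 4 ≤ N) (k : Fin 5) :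
    zv (back x N) d k = Real.log (arg x (N - d - 4) k) := by
  fin_cases k
  · simp [zv, arg]
  · have : N - (d + 1) = N - d - 4 + 3 := by omega
    simp [zv, arg, back, this]
  · have : N - (d + 2) = N - d - 4 + 2 := by omega
    simp [zv, arg, back, this]
  · have : N - (d + 3) = N - d - 4 + 1 := by omega
    simp [zv, arg, back, this]
  · have : N - (d + 4) = N - d - 4 := by omega
    simp [zv, arg, back, this]

theorem lin_le_of_max {c : Fin 5 → ℝ} {m : ℕ} (hc : SupportedOn c (fs m)) {a : Fin 5 → ℝ}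
    {i : Fin 5} (hi : ∀ k ∈ fs m, a k ≤ a i) : ∑ k, c k * a k ≤ (∑ k, c k) * a i := by
  rw [Finset.sum_mul]
  apply Finset.sum_le_sum
  intro k _
  by_cases hk : k ∈ fs m
  · exact mul_le_mul_of_nonneg_left (hi k hk) (hc.nonneg k)
  · rw [hc.2 k hk]; simp

theorem single_le_lin {c : Fin 5 → ℝ} (hc : ∀ k, 0 ≤ c k) {a : Fin 5 → ℝ} (ha : ∀ k, 0 < a k)
    (i : Fin 5) : c i * a i ≤ ∑ k, c k * a k :=
  Finset.single_le_sum (f := fun k => c k * a k) (fun k _ => mul_nonneg (hc k) (ha k).le)
    (Finset.mem_univ i)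

theorem abs_log_le_wc_left (b B : Fin 5 → ℝ) (i : Fin 5) :
    |Real.log (∑ k, B k)| + |Real.log (b i)| ≤ wc b B := by
  have h := Finset.single_le_sum (f := fun k => |Real.log (b k)|)
    (fun k _ => abs_nonneg _) (Finset.mem_univ i)
  have h2 : 0 ≤ ∑ k, |Real.log (B k)| := Finset.sum_nonneg (fun k _ => abs_nonneg _)
  have h3 := abs_nonneg (Real.log (∑ k, b k))
  unfold wc
  linarith

theorem abs_log_le_wc_right (b B : Fin 5 → ℝ) (j : Fin 5) :
    |Real.log (∑ k, b k)| + |Real.log (B j)| ≤ wc b B := by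
  have h := Finset.single_le_sum (f := fun k => |Real.log (B k)|)
    (fun k _ => abs_nonneg _) (Finset.mem_univ j)
  have h2 : 0 ≤ ∑ k, |Real.log (b k)| := Finset.sum_nonneg (fun k _ => abs_nonneg _)
  have h3 := abs_nonneg (Real.log (∑ k, B k))
  unfold wc
  linarith

theorem sum_pos_of {c : Fin 5 → ℝ} {m : ℕ} (hc : SupportedOn c (fs m)) {i : Fin 5}
    (hi : i ∈ fs m) : 0 < ∑ k, c k :=
  lt_of_lt_of_le (hc.1 i hi) (Finset.single_le_sum (f := fun k => c k) (fun k _ => hc.nonneg k)
    (Finset.mem_univ i))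

theorem window_back {b B : Fin 5 → ℝ} {mS mT : ℕ} (hb : SupportedOn b (fs mS))
    (hB : SupportedOn B (fs mT)) {x : ℕ → ℝ} (hx : PosSolution b B x) {N W : ℕ} (hW : W ≤ N + 1) :
    Window (bits mS) (bits mT) (wc b B) W (back x N) := by
  intro d hd
  have hdN : d + 4 ≤ N := by omega
  set n := N - d - 4 with hn
  have hxn : x (N - d) = (∑ k, b k * arg x n k) / ∑ k, B k * arg x n k := by
    have h1 : N - d = n + 4 := by omega
    rw [h1, hx.step, lin_eq_sum, lin_eq_sum]
  have hA : ∀ k, 0 < arg x n k := arg_pos hx.pos n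
  have hlog : ∀ k : Fin 5, zv (back x N) d k = Real.log (arg x n k) := fun k => zv_back hdN k
  constructor
  · intro i hi hmax j hj
    obtain ⟨i, rfl, hi'⟩ := mem_bits hi
    obtain ⟨j, rfl, hj'⟩ := mem_bits hj
    have hmax' : ∀ k ∈ fs mS, arg x n k ≤ arg x n i := by
      intro k hk
      have h1 := hmax k (mem_fs hk)
      rw [hlog, hlog] at h1
      exact (Real.log_le_log_iff (hA k) (hA i)).mp h1
    have hS : 0 < ∑ k, b k := sum_pos_of hb hi'
    have hBj : 0 < B j := hB.1 j hj'
    have h1 : x (N - d) ≤ ((∑ k, b k) * arg x n i) / (B j * arg x n j) := by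
      rw [hxn]
      apply div_le_div₀ (mul_pos hS (hA i)).le (lin_le_of_max hb hmax')
        (mul_pos hBj (hA j)) (single_le_lin hB.nonneg hA j)
    have h2 := Real.log_le_log (hx.pos _) h1
    rw [Real.log_div (mul_pos hS (hA i)).ne' (mul_pos hBj (hA j)).ne',
      Real.log_mul hS.ne' (hA i).ne', Real.log_mul hBj.ne' (hA j).ne'] at h2
    rw [hlog, hlog]
    have h3 := abs_log_le_wc_right b B j
    have h4 := le_abs_self (Real.log (∑ k, b k))
    have h5 := neg_abs_le (Real.log (B j))
    have h6 : back x N d = Real.log (x (N - d)) := rfl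
    rw [h6]
    linarith
  · intro j hj hmax i hi
    obtain ⟨i, rfl, hi'⟩ := mem_bits hi
    obtain ⟨j, rfl, hj'⟩ := mem_bits hj
    have hmax' : ∀ k ∈ fs mT, arg x n k ≤ arg x n j := by
      intro k hk
      have h1 := hmax k (mem_fs hk)
      rw [hlog, hlog] at h1
      exact (Real.log_le_log_iff (hA k) (hA j)).mp h1
    have hT : 0 < ∑ k, B k := sum_pos_of hB hj'
    have hbi : 0 < b i := hb.1 i hi'
    have hden : 0 < ∑ k, B k * arg x n k :=
      lt_of_lt_of_le (mul_pos (hB.1 j hj') (hA j)) (single_le_lin hB.nonneg hA j)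
    have h1 : (b i * arg x n i) / ((∑ k, B k) * arg x n j) ≤ x (N - d) := by
      rw [hxn]
      apply div_le_div₀ _ (single_le_lin hb.nonneg hA i) hden (lin_le_of_max hB hmax')
      exact Finset.sum_nonneg (fun k _ => mul_nonneg (hb.nonneg k) (hA k).le)
    have h2 := Real.log_le_log (div_pos (mul_pos hbi (hA i)) (mul_pos hT (hA j))) h1
    rw [Real.log_div (mul_pos hbi (hA i)).ne' (mul_pos hT (hA j)).ne',
      Real.log_mul hT.ne' (hA j).ne', Real.log_mul hbi.ne' (hA i).ne'] at h2
    rw [hlog, hlog]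
    have h3 := abs_log_le_wc_left b B i
    have h4 := le_abs_self (Real.log (∑ k, B k))
    have h5 := neg_abs_le (Real.log (b i))
    have h6 : back x N d = Real.log (x (N - d)) := rfl
    rw [h6]
    linarith

/-- The record hypotheses `y_t - y_0 ≤ c` for `t = 1, …, n`. -/
def recH : ℕ → List (List ℤ)
  | 0 => []
  | n + 1 => ([(-1 : ℤ)] ++ List.replicate n 0 ++ [1]) :: recH n

theorem ev_append_replicate (y : ℕ → ℝ) (n s : ℕ) :
    ev y s (List.replicate n 0 ++ [1]) = y (s + n) := by
  induction n generalizing s with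
  | zero => simp [ev]
  | succ n ih =>
    simp only [List.replicate_succ, List.cons_append, ev, ih]
    have : s + 1 + n = s + (n + 1) := by ring
    rw [this]; simp

theorem ev_recH {y : ℕ → ℝ} {c : ℝ} {n : ℕ} (h : ∀ t, t ≤ n → y t ≤ y 0 + c) :
    ∀ f ∈ recH n, ev y 0 f ≤ c := by
  induction n with
  | zero => simp [recH]
  | succ n ih =>
    intro f hf
    rcases List.mem_cons.mp hf with rfl | hf
    · have h1 := h (n + 1) le_rfl
      simp only [List.cons_append, List.nil_append, ev, ev_append_replicate]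
      push_cast
      have : 0 + 1 + n = n + 1 := by ring
      rw [this]
      linarith
    · exact ih (fun t ht => h t (by omega)) f hf

/-- Boundedness from a certificate. -/
theorem boundedOnly_of_cert {mS mT W M : ℕ} {t : Tree} (hW : 1 ≤ W)
    (hS : bits mS ≠ []) (hT : bits mT ≠ [])
    (h : chk (bits mS) (bits mT) W M (recH (W - 1)) [1] t [] none = true) :
    BoundedOnly (fs mS) (fs mT) := by
  have hS' : (fs mS).Nonempty := by
    obtain ⟨a, l, hl⟩ := List.exists_cons_of_ne_nil hS
    obtain ⟨i, _, hi⟩ := mem_bits (m := mS) (k := a) (by rw [hl]; simp)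
    exact ⟨i, hi⟩
  have hT' : (fs mT).Nonempty := by
    obtain ⟨a, l, hl⟩ := List.exists_cons_of_ne_nil hT
    obtain ⟨i, _, hi⟩ := mem_bits (m := mT) (k := a) (by rw [hl]; simp)
    exact ⟨i, hi⟩
  apply boundedOnly_of_record hS' hT'
  intro b B hb hB
  refine ⟨Real.exp (M * wc b B), W - 1, ?_⟩
  intro x hx N hN hrec
  have hw := window_back hb hB hx (N := N) (W := W) (by omega)
  have hc := wc_nonneg b B
  have hr : ∀ t, t ≤ W - 1 → back x N t ≤ back x N 0 + wc b B := by
    intro t ht
    have h1 : x (N - t) ≤ x N := by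
      rcases Nat.eq_zero_or_pos t with rfl | h0
      · simp
      · exact hrec _ (by omega)
    have h2 := Real.log_le_log (hx.pos _) h1
    simp only [back, Nat.sub_zero]
    linarith
  have h1 := (chk_sound hS hT hw hc (ev_recH hr) t [] none h (by simp)).1 rfl
  have h2 : back x N 0 ≤ M * wc b B := by
    rcases h1 with h1 | h1
    · exact h1
    · simpa [ev] using h1
  have h3 : back x N 0 = Real.log (x N) := by simp [back]
  rw [h3] at h2
  exact (Real.log_le_iff_le_exp (hx.pos N)).mp h2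

end Pool.Agent.RatRec
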