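import Mathlib

/-!
Rational recurrences of order four: the definitions of problem MP_88c4fb_an.
-/

set_option autoImplicit false

namespace Pool.Agent.RatRec

/-- `c 0 + c 1 x_{n-1} + c 2 x_{n-2} + c 3 x_{n-3} + c 4 x_{n-4}`, written at the time `n + 4`
(the sequence starts with the four initial values `x 0, x 1, x 2, x 3`). -/
def lin (c : Fin 5 → ℝ) (x : ℕ → ℝ) (n : ℕ) : ℝ :=
  c 0 + c 1 * x (n + 3) + c 2 * x (n + 2) + c 3 * x (n + 1) + c 4 * x n

/-- `x` is a solution of the recurrence with numerator coefficients `b` (that is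
`α, β_1, …, β_4`) and denominator coefficients `B` (that is `A, B_1, …, B_4`) which starts from the
admissible initial values `x 0, x 1, x 2, x 3`. -/
structure IsSolution (b B : Fin 5 → ℝ) (x : ℕ → ℝ) : Prop where
  init : ∀ n, n < 4 → 0 ≤ x n
  den_pos : ∀ n, 0 < lin B x n
  step : ∀ n, x (n + 4) = lin b x n / lin B x n

/-- The coefficients with index in `S` are positive and all others are zero. -/
def SupportedOn (c : Fin 5 → ℝ) (S : Finset (Fin 5)) : Prop :=
  (∀ i ∈ S, 0 < c i) ∧ ∀ i ∉ S, c i = 0

/-- The special case with positive numerator coefficients `S` and positive denominator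
coefficients `T` has bounded solutions only. -/
def BoundedOnly (S T : Finset (Fin 5)) : Prop :=
  ∀ b B : Fin 5 → ℝ, SupportedOn b S → SupportedOn B T →
    ∀ x : ℕ → ℝ, IsSolution b B x → ∃ M : ℝ, ∀ n, x n ≤ M

end Pool.Agent.RatRec
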