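import Pool.Agent.Lib_helper61.Rat.Code

/-!
Case trees whose leaves choose one of several alternatives, and pinned patterns.
-/

set_option autoImplicit false

namespace Pool.Agent.RatRec

/-- Case trees with alternatives. -/
inductive PTree where
  | leaf (g : ℕ) (cs : List (ℕ × List Atom))
  | split (k : Bool) (d : ℕ) (ch : PTree)
  | cons (a b : PTree)
  | nil

/-- Every form of the list is certified. -/
def formsOK (S T : List ℕ) (M : ℕ) (H : List (List ℤ)) (ctx : List Fact) :
    List (List ℤ) → List (ℕ × List Atom) → Bool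
  | [], [] => true
  | f :: fs, (m, cert) :: cs =>
      atomsOK S T H ctx cert && Nat.ble 1 m && Nat.ble (multSum cert) M &&
        allZero (addForm (-m) f (sumAtoms H cert [])) && formsOK S T M H ctx fs cs
  | _, _ => false

/-- The checker. -/
def chkP (S T : List ℕ) (W M : ℕ) (H : List (List ℤ)) (alts : List (List (List ℤ))) :
    PTree → List Fact → Option (Bool × ℕ × List ℕ) → Bool
  | .leaf g cs, ctx, none =>
      Nat.blt g alts.length && formsOK S T M H ctx (alts.getD g []) cs
  | .split k d ch, ctx, none =>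
      Nat.blt (d + 4) W && chkP S T W M H alts ch ctx (some (k, d, if k then T else S))
  | .cons a b, ctx, some (k, d, i :: r) =>
      chkP S T W M H alts a ((k, d, i) :: ctx) none &&
        chkP S T W M H alts b ctx (some (k, d, r))
  | .nil, _, some (_, _, []) => true
  | _, _, _ => false

theorem formsOK_sound {S T : List ℕ} {c : ℝ} {W M : ℕ} {y : ℕ → ℝ}
    (hw : Window S T c W y) (hc : 0 ≤ c) {H : List (List ℤ)} (hH : ∀ h ∈ H, ev y 0 h ≤ c)
    {ctx : List Fact} (hctx : ∀ f ∈ ctx, FactOK S T W y f) (fs : List (List ℤ)) :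
    ∀ cs, formsOK S T M H ctx fs cs = true → ∀ f ∈ fs, ev y 0 f ≤ M * c := by
  induction fs with
  | nil => intro cs _ f hf; simp at hf
  | cons f fs ih =>
    intro cs h
    cases cs with
    | nil => simp [formsOK] at h
    | cons p cs =>
      obtain ⟨m, cert⟩ := p
      simp only [formsOK, Bool.and_eq_true] at h
      obtain ⟨⟨⟨⟨h1, h2⟩, h3⟩, h4⟩, h5⟩ := h
      intro f' hf'
      rcases List.mem_cons.mp hf' with rfl | hf'
      · have e1 := atoms_le hw hc hH hctx h1 []
        have e2 := ev_allZero y _ 0 h4
        rw [ev_addForm] at e2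
        have hm1 : (1 : ℝ) ≤ m := by exact_mod_cast Nat.ble_eq.mp h2
        have hM : (multSum cert : ℝ) ≤ M := by exact_mod_cast Nat.ble_eq.mp h3
        have hMc : (multSum cert : ℝ) * c ≤ M * c := mul_le_mul_of_nonneg_right hM hc
        have hMc0 : 0 ≤ (M : ℝ) * c := mul_nonneg (Nat.cast_nonneg M) hc
        simp only [ev] at e1
        push_cast at e2
        by_cases h0 : ev y 0 f' ≤ 0
        · exact h0.trans hMc0
        · push Not at h0
          have : ev y 0 f' ≤ m * ev y 0 f' := by
            calc ev y 0 f' = 1 * ev y 0 f' := by ring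
              _ ≤ m * ev y 0 f' := mul_le_mul_of_nonneg_right hm1 h0.le
          linarith
      · exact ih cs h5 f' hf'

theorem chkP_sound {S T : List ℕ} (hS : S ≠ []) (hT : T ≠ []) {c : ℝ} {W M : ℕ} {y : ℕ → ℝ}
    (hw : Window S T c W y) (hc : 0 ≤ c) {H : List (List ℤ)} (hH : ∀ h ∈ H, ev y 0 h ≤ c)
    {alts : List (List (List ℤ))} (t : PTree) :
    ∀ ctx pend, chkP S T W M H alts t ctx pend = true → (∀ f ∈ ctx, FactOK S T W y f) →
      ((pend = none → ∃ alt ∈ alts, ∀ f ∈ alt, ev y 0 f ≤ M * c) ∧
        ∀ k d l, pend = some (k, d, l) → (∃ i ∈ l, FactOK S T W y (k, d, i)) →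
          ∃ alt ∈ alts, ∀ f ∈ alt, ev y 0 f ≤ M * c) := by
  induction t with
  | leaf g cs =>
    intro ctx pend h hctx
    cases pend with
    | some p => obtain ⟨k, d, l⟩ := p; simp [chkP] at h
    | none =>
      refine ⟨fun _ => ?_, fun k d l h => by simp at h⟩
      simp only [chkP, Bool.and_eq_true, Nat.blt_eq] at h
      obtain ⟨h1, h2⟩ := h
      refine ⟨alts.getD g [], ?_, formsOK_sound hw hc hH hctx _ cs h2⟩
      rw [List.getD_eq_getElem _ _ h1]
      exact List.getElem_mem h1
  | split k d ch ih =>
    intro ctx pend h hctx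
    cases pend with
    | some p => obtain ⟨k, d, l⟩ := p; simp [chkP] at h
    | none =>
      refine ⟨fun _ => ?_, fun k d l h => by simp at h⟩
      simp only [chkP, Bool.and_eq_true, Nat.blt_eq] at h
      obtain ⟨h1, h2⟩ := h
      refine (ih ctx _ h2 hctx).2 k d _ rfl ?_
      cases k with
      | false =>
        obtain ⟨i, hi, hm⟩ := exists_max y d hS
        exact ⟨i, by simpa using hi, h1, hi, hm⟩
      | true =>
        obtain ⟨i, hi, hm⟩ := exists_max y d hT
        exact ⟨i, by simpa using hi, h1, hi, hm⟩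
  | cons a b iha ihb =>
    intro ctx pend h hctx
    cases pend with
    | none => simp [chkP] at h
    | some p =>
      obtain ⟨k, d, l⟩ := p
      refine ⟨fun h => by simp at h, ?_⟩
      intro k' d' l' hp hex
      simp only [Option.some.injEq, Prod.mk.injEq] at hp
      obtain ⟨rfl, rfl, rfl⟩ := hp
      cases l with
      | nil => simp at hex
      | cons i r =>
        simp only [chkP, Bool.and_eq_true] at h
        obtain ⟨h1, h2⟩ := h
        obtain ⟨i', hi', hf⟩ := hex
        rcases List.mem_cons.mp hi' with rfl | hi'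
        · refine (iha _ _ h1 ?_).1 rfl
          intro f hfm
          rcases List.mem_cons.mp hfm with rfl | hfm
          · exact hf
          · exact hctx f hfm
        · exact (ihb _ _ h2 hctx).2 k d r rfl ⟨i', hi', hf⟩
  | nil =>
    intro ctx pend h hctx
    cases pend with
    | none => simp [chkP] at h
    | some p =>
      obtain ⟨k, d, l⟩ := p
      refine ⟨fun h => by simp at h, ?_⟩
      intro k' d' l' hp hex
      simp only [Option.some.injEq, Prod.mk.injEq] at hp
      obtain ⟨rfl, rfl, rfl⟩ := hp
      cases l with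
      | nil => simp at hex
      | cons i r => simp [chkP] at h

/-- Data of a pinned pattern: masks, value at a record, period, pattern, phases, pinned range,
overlap, window, number of digits and code of the tree. -/
structure PinData where
  S : ℕ
  T : ℕ
  kap : ℕ
  per : ℕ
  v : List ℤ
  phases : List ℕ
  q : ℕ
  ov : ℕ
  W : ℕ
  n : ℕ
  code : ℕ

/-- The periodic pattern. -/
def PinData.vf (D : PinData) (i : ℕ) : ℤ := D.v.getD (i % D.per) 0

/-- The forms of the phase `s`, for the times `1, …, q`. -/
def pinForms (D : PinData) (s : ℕ) : ℕ → List (List ℤ)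
  | 0 => []
  | t + 1 => pinForms D s t ++ [addAt (D.kap : ℤ) (t + 1) [- D.vf (t + 1 + s)],
      addAt (-(D.kap : ℤ)) (t + 1) [D.vf (t + 1 + s)]]

/-- The alternatives. -/
def pinAlts (D : PinData) : List (List (List ℤ)) :=
  [[1]] :: D.phases.map (fun s => pinForms D s D.q)

/-- Read the certificates of `n` forms. -/
def readCerts : ℕ → List ℕ → List (ℕ × List Atom) × List ℕ
  | n + 1, m :: k :: l =>
    match readAtoms k l with
    | (as, l1) =>
      match readCerts n l1 with
      | (cs, l2) => ((m, as) :: cs, l2)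
  | _, l => ([], l)

/-- Read a tree (`none`) or a chain of children (`some n`). -/
def readPTree : ℕ → Option ℕ → List ℕ → PTree × List ℕ
  | 0, _, l => (.nil, l)
  | _ + 1, some 0, l => (.nil, l)
  | f + 1, some (n + 1), l =>
    match readPTree f none l with
    | (a, l1) =>
      match readPTree f (some n) l1 with
      | (b, l2) => (.cons a b, l2)
  | _ + 1, none, 0 :: g :: n :: l =>
    match readCerts n l with
    | (cs, l1) => (.leaf g cs, l1)
  | f + 1, none, 2 :: d :: n :: l =>
    match readPTree f (some n) l with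
    | (ch, l1) => (.split false d ch, l1)
  | f + 1, none, 3 :: d :: n :: l =>
    match readPTree f (some n) l with
    | (ch, l1) => (.split true d ch, l1)
  | _ + 1, none, l => (.nil, l)

/-- Decode a tree. -/
def decodePTree (n c : ℕ) : PTree := (readPTree n none (toks n c)).1

/-- The bound for the sums of the multipliers. -/
def MM : ℕ := 1000000

/-- The check of the data. -/
def PinData.ok (D : PinData) : Bool :=
  Nat.ble 1 D.W && !(bits D.S).isEmpty && !(bits D.T).isEmpty && Nat.ble 1 D.kap &&
    Nat.ble 1 D.per && Nat.ble (D.ov + D.per) D.q &&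
    D.phases.all (fun s => decide (D.vf s = D.kap) && Nat.blt s D.per) &&
    D.phases.all (fun s => D.phases.all (fun s' => s == s' ||
      (List.range D.ov).any (fun t => decide (D.vf (t + 1 + s) ≠ D.vf (t + 1 + s'))))) &&
    chkP (bits D.S) (bits D.T) D.W MM (recH (D.W - 1)) (pinAlts D) (decodePTree D.n D.code)
      [] none

/-- The pattern with phase `s` is pinned on the times up to `q`. -/
def Pinned (D : PinData) (s q : ℕ) (y : ℕ → ℝ) (C : ℝ) : Prop :=
  ∀ t, t ≤ q → |(D.kap : ℝ) * y t - (D.vf (t + s) : ℝ) * y 0| ≤ C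

theorem pinForms_sound {D : PinData} {s : ℕ} {y : ℕ → ℝ} {C : ℝ} (q : ℕ)
    (h : ∀ f ∈ pinForms D s q, ev y 0 f ≤ C) (t : ℕ) (h1 : 1 ≤ t) (h2 : t ≤ q) :
    |(D.kap : ℝ) * y t - (D.vf (t + s) : ℝ) * y 0| ≤ C := by
  induction q with
  | zero => omega
  | succ q ih =>
    by_cases ht : t = q + 1
    · subst ht
      have e1 := h (addAt (D.kap : ℤ) (q + 1) [- D.vf (q + 1 + s)]) (by simp [pinForms])
      have e2 := h (addAt (-(D.kap : ℤ)) (q + 1) [D.vf (q + 1 + s)]) (by simp [pinForms])
      rw [ev_addAt] at e1 e2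
      simp only [ev, zero_add, add_zero] at e1 e2
      push_cast at e1 e2
      rw [abs_le]
      constructor <;> linarith
    · exact ih (fun f hf => h f (by simp [pinForms, hf])) (by omega)

/-- The quasi-record property. -/
def Quasi (x : ℕ → ℝ) (N : ℕ) (a : ℝ) : Prop := ∀ m, m ≤ N → Real.log (x m) ≤ Real.log (x N) + a

theorem Window.mono {S T : List ℕ} {c c' : ℝ} {W : ℕ} {y : ℕ → ℝ} (h : Window S T c W y)
    (hc : c ≤ c') : Window S T c' W y := fun d hd =>
  ⟨fun i hi hm j hj => ((h d hd).1 i hi hm j hj).trans hc,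
    fun j hj hm i hi => ((h d hd).2 j hj hm i hi).trans hc⟩

section
variable {D : PinData} (hD : D.ok = true)
include hD

theorem ok_W : 1 ≤ D.W := by
  simp only [PinData.ok, Bool.and_eq_true] at hD
  exact Nat.ble_eq.mp hD.1.1.1.1.1.1.1.1

theorem ok_S : bits D.S ≠ [] := by
  simp only [PinData.ok, Bool.and_eq_true, Bool.not_eq_true', List.isEmpty_eq_false_iff] at hD
  exact hD.1.1.1.1.1.1.1.2

theorem ok_T : bits D.T ≠ [] := by
  simp only [PinData.ok, Bool.and_eq_true, Bool.not_eq_true', List.isEmpty_eq_false_iff] at hD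
  exact hD.1.1.1.1.1.1.2

theorem ok_kap : 1 ≤ D.kap := by
  simp only [PinData.ok, Bool.and_eq_true] at hD
  exact Nat.ble_eq.mp hD.1.1.1.1.1.2

theorem ok_per : 1 ≤ D.per := by
  simp only [PinData.ok, Bool.and_eq_true] at hD
  exact Nat.ble_eq.mp hD.1.1.1.1.2

theorem ok_q : D.ov + D.per ≤ D.q := by
  simp only [PinData.ok, Bool.and_eq_true] at hD
  exact Nat.ble_eq.mp hD.1.1.1.2

theorem ok_phase {s : ℕ} (hs : s ∈ D.phases) : D.vf s = D.kap ∧ s < D.per := by
  simp only [PinData.ok, Bool.and_eq_true, List.all_eq_true, decide_eq_true_eq, Nat.blt_eq] at hD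
  exact hD.1.1.2 s hs

theorem ok_distinct {s s' : ℕ} (hs : s ∈ D.phases) (hs' : s' ∈ D.phases)
    (h : ∀ t, 1 ≤ t → t ≤ D.ov → D.vf (t + s) = D.vf (t + s')) : s = s' := by
  simp only [PinData.ok, Bool.and_eq_true, List.all_eq_true] at hD
  have h1 := hD.1.2 s hs s' hs'
  rw [Bool.or_eq_true] at h1
  rcases h1 with h1 | h1
  · simpa using h1
  · exfalso
    rw [List.any_eq_true] at h1
    obtain ⟨t, ht, h2⟩ := h1
    rw [List.mem_range] at ht
    simp only [ne_eq, decide_not, Bool.not_eq_eq_eq_not, Bool.not_true,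
      decide_eq_false_iff_not] at h2
    exact h2 (h (t + 1) (by omega) (by omega))

theorem ok_chk : chkP (bits D.S) (bits D.T) D.W MM (recH (D.W - 1)) (pinAlts D)
    (decodePTree D.n D.code) [] none = true := by
  simp only [PinData.ok, Bool.and_eq_true] at hD
  exact hD.2

theorem vf_add_per (i : ℕ) : D.vf (i + D.per) = D.vf i := by
  have := ok_per hD
  simp [PinData.vf]

/-- One application of the certificate. -/
theorem pin_base {b B : Fin 5 → ℝ} (hb : SupportedOn b (fs D.S)) (hB : SupportedOn B (fs D.T))
    {x : ℕ → ℝ} (hx : PosSolution b B x) {N : ℕ} (hN : D.W ≤ N + 1) {a : ℝ} (ha : 0 ≤ a)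
    (hq : Quasi x N a) :
    Real.log (x N) ≤ MM * (wc b B + a) ∨
      ∃ s ∈ D.phases, Pinned D s D.q (back x N) (MM * (wc b B + a)) := by
  have hw := (window_back hb hB hx hN).mono (c' := wc b B + a) (by linarith)
  have hc := wc_nonneg b B
  have hr : ∀ t, t ≤ D.W - 1 → back x N t ≤ back x N 0 + (wc b B + a) := by
    intro t _
    have h1 := hq (N - t) (Nat.sub_le _ _)
    simp only [back, Nat.sub_zero]
    linarith
  obtain ⟨alt, halt, hall⟩ := (chkP_sound (ok_S hD) (ok_T hD) hw (by linarith)
    (ev_recH hr) _ [] none (ok_chk hD) (by simp)).1 rfl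
  rcases List.mem_cons.mp halt with rfl | halt
  · left
    have := hall [1] (by simp)
    simpa [ev, back] using this
  · right
    obtain ⟨s, hs, rfl⟩ := List.mem_map.mp halt
    refine ⟨s, hs, ?_⟩
    intro t ht
    rcases Nat.eq_zero_or_pos t with rfl | h0
    · have h1 := (ok_phase hD hs).1
      rw [zero_add, h1]
      have h2 : (0 : ℝ) ≤ MM * (wc b B + a) := by positivity
      simpa using h2
    · exact pinForms_sound D.q hall t h0 ht

omit hD in
theorem back_shift {x : ℕ → ℝ} {N p t : ℕ} : back x (N - p) t = back x N (p + t) := by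
  simp only [back, Nat.sub_sub]

/-- The pattern is pinned as far back as we like. -/
theorem pin_far {b B : Fin 5 → ℝ} (hb : SupportedOn b (fs D.S)) (hB : SupportedOn B (fs D.T))
    (n : ℕ) : ∀ a : ℝ, 0 ≤ a → ∃ C K : ℝ, 0 ≤ C ∧ ∀ x : ℕ → ℝ, PosSolution b B x →
      ∀ N, D.W + n * D.per ≤ N → Quasi x N a → K < Real.log (x N) →
        ∃ s ∈ D.phases, Pinned D s (D.q + n * D.per) (back x N) C := by
  induction n with
  | zero =>
    intro a ha
    refine ⟨MM * (wc b B + a), MM * (wc b B + a), ?_, ?_⟩
    · have := wc_nonneg b B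
      positivity
    · intro x hx N hN hq hK
      rcases pin_base hD hb hB hx (by omega) ha hq with h | h
      · exact absurd h (not_le.mpr hK)
      · simpa using h
  | succ n ih =>
    intro a ha
    have hwc := wc_nonneg b B
    set C0 : ℝ := MM * (wc b B + a) with hC0
    have hC00 : 0 ≤ C0 := by positivity
    have hkap : (1 : ℝ) ≤ D.kap := by exact_mod_cast ok_kap hD
    obtain ⟨C1, K1, hC1, h1⟩ := ih (a + C0) (by linarith)
    -- a bound for the values of the pattern
    obtain ⟨V, hV0, hV⟩ : ∃ V : ℝ, 0 ≤ V ∧ ∀ i, |(D.vf i : ℝ)| ≤ V := by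
      refine ⟨(∑ i ∈ Finset.range D.per, |(D.vf i : ℝ)|), ?_, ?_⟩
      · positivity
      · intro i
        have hi : D.vf i = D.vf (i % D.per) := by simp [PinData.vf]
        rw [hi]
        exact Finset.single_le_sum (f := fun i => |(D.vf i : ℝ)|) (fun _ _ => abs_nonneg _)
          (Finset.mem_range.mpr (Nat.mod_lt _ (ok_per hD)))
    refine ⟨C0 + C1 + V * C0, max (max C0 (K1 + C0)) (2 * (C0 + C1 + V * C0)), by positivity, ?_⟩
    intro x hx N hN hq hK
    have hK0 : C0 < Real.log (x N) :=
      lt_of_le_of_lt ((le_max_left _ _).trans (le_max_left _ _)) hK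
    have hK1 : K1 + C0 < Real.log (x N) :=
      lt_of_le_of_lt ((le_max_right _ _).trans (le_max_left _ _)) hK
    have hK2 : 2 * (C0 + C1 + V * C0) < Real.log (x N) := lt_of_le_of_lt (le_max_right _ _) hK
    rcases pin_base hD hb hB hx (by omega) ha hq with h | ⟨s, hs, hp⟩
    · exact absurd h (not_le.mpr hK0)
    have hy0 : back x N 0 = Real.log (x N) := by simp [back]
    have hper := ok_q hD
    -- the earlier record
    have hnear : |back x N D.per - back x N 0| ≤ C0 := by
      have h2 := hp D.per (by omega)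
      have h3 : D.vf (D.per + s) = D.kap := by
        rw [add_comm, vf_add_per hD, (ok_phase hD hs).1]
      rw [h3] at h2
      push_cast at h2
      rw [← mul_sub, abs_mul, abs_of_nonneg (by linarith : (0 : ℝ) ≤ D.kap)] at h2
      have h4 := abs_nonneg (back x N D.per - back x N 0)
      nlinarith
    have hlogN' : Real.log (x (N - D.per)) = back x N D.per := rfl
    have hle : Real.log (x N) - C0 ≤ Real.log (x (N - D.per)) := by
      rw [hlogN', ← hy0]
      have := neg_abs_le (back x N D.per - back x N 0)
      linarith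
    have hq' : Quasi x (N - D.per) (a + C0) := by
      intro m hm
      have := hq m (hm.trans (Nat.sub_le _ _))
      linarith
    have hN' : D.W + n * D.per ≤ N - D.per := by
      have : D.W + (n + 1) * D.per = D.W + n * D.per + D.per := by ring
      omega
    obtain ⟨s', hs', hp'⟩ := h1 x hx (N - D.per) hN' hq' (by linarith)
    -- the comparison of `back`
    have hbs : ∀ t, back x (N - D.per) t = back x N (D.per + t) := fun t => back_shift
    -- the estimate from the second base
    have hest : ∀ t, t ≤ D.q + n * D.per →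
        |(D.kap : ℝ) * back x N (D.per + t) - (D.vf (t + s') : ℝ) * back x N 0| ≤
          C1 + V * C0 := by
      intro t ht
      have e1 := hp' t ht
      rw [hbs, hbs, add_zero] at e1
      have e2 : |(D.vf (t + s') : ℝ) * (back x N D.per - back x N 0)| ≤ V * C0 := by
        rw [abs_mul]
        exact mul_le_mul (hV _) hnear (abs_nonneg _) hV0
      have e3 : (D.kap : ℝ) * back x N (D.per + t) - (D.vf (t + s') : ℝ) * back x N 0 =
          ((D.kap : ℝ) * back x N (D.per + t) - (D.vf (t + s') : ℝ) * back x N D.per) +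
          (D.vf (t + s') : ℝ) * (back x N D.per - back x N 0) := by ring
      rw [e3]
      exact (abs_add_le _ _).trans (add_le_add e1 e2)
    -- the phases agree
    have hss : s = s' := by
      apply ok_distinct hD hs hs'
      intro t ht1 ht2
      have e1 := hp (D.per + t) (by omega)
      have e2 := hest t (by omega)
      have e3 : D.vf (D.per + t + s) = D.vf (t + s) := by
        have : D.per + t + s = t + s + D.per := by ring
        rw [this, vf_add_per hD]
      rw [e3] at e1
      by_contra hne
      have e4 : (1 : ℝ) ≤ |(D.vf (t + s) : ℝ) - (D.vf (t + s') : ℝ)| := by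
        have : (1 : ℤ) ≤ |D.vf (t + s) - D.vf (t + s')| := by
          apply Int.one_le_abs
          exact sub_ne_zero.mpr hne
        exact_mod_cast this
      have e5 : |((D.vf (t + s) : ℝ) - (D.vf (t + s') : ℝ)) * back x N 0| ≤
          C0 + (C1 + V * C0) := by
        have : ((D.vf (t + s) : ℝ) - (D.vf (t + s') : ℝ)) * back x N 0 =
            ((D.kap : ℝ) * back x N (D.per + t) - (D.vf (t + s') : ℝ) * back x N 0) -
            ((D.kap : ℝ) * back x N (D.per + t) - (D.vf (t + s) : ℝ) * back x N 0) := by ring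
        rw [this]
        refine (abs_sub _ _).trans ?_
        linarith
      rw [abs_mul] at e5
      have e6 : Real.log (x N) ≤ |back x N 0| := by
        rw [hy0]; exact le_abs_self _
      have e7 : |back x N 0| ≤ |(D.vf (t + s) : ℝ) - (D.vf (t + s') : ℝ)| * |back x N 0| := by
        have := mul_le_mul_of_nonneg_right e4 (abs_nonneg (back x N 0))
        linarith
      have e8 : 0 ≤ C0 + C1 + V * C0 := by positivity
      linarith
    subst hss
    refine ⟨s, hs, ?_⟩
    intro t ht
    by_cases htp : t ≤ D.q
    · refine (hp t htp).trans ?_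
      have : 0 ≤ V * C0 := by positivity
      linarith
    · obtain ⟨r, rfl⟩ : ∃ r, t = D.per + r := ⟨t - D.per, by omega⟩
      have hr : r ≤ D.q + n * D.per := by
        have : D.q + (n + 1) * D.per = D.q + n * D.per + D.per := by ring
        omega
      have e1 := hest r hr
      have e2 : D.vf (D.per + r + s) = D.vf (r + s) := by
        have : D.per + r + s = r + s + D.per := by ring
        rw [this, vf_add_per hD]
      rw [e2]
      refine e1.trans ?_
      linarith

end

end Pool.Agent.RatRec
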